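import Pool.Agent.TA43.Defs

set_option autoImplicit false

/-!
# TA43/AbsS48: flips of marked windows, abstract
-/

namespace Pool.TA43

theorem cnt_succ48 {G : Type} {m : ℕ} {L : Finset G} {d : G → ℕ} {st : Fin m → G → ℕ}
    {φ : Fin m → G → G} (h : FlipSys L d st φ) {g : G} (hg : g ∈ L) {k : Fin m}
    (hk : st k g = 1) : cnt st 2 (φ k g) = cnt st 2 g + 1 := by
  classical
  unfold cnt
  have h0 : st k g ≠ 0 := by omega
  have h1 : (Finset.univ.filter fun k' => st k' (φ k g) = 2) =
      insert k (Finset.univ.filter fun k' => st k' g = 2) := by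
    ext k'
    rw [Finset.mem_insert, Finset.mem_filter, Finset.mem_filter]
    by_cases hkk : k' = k
    · subst hkk
      simp [(h.lo k' g hg hk).1]
    · rw [h.oth k k' hkk g hg h0]
      simp [hkk]
  rw [h1, Finset.card_insert_of_notMem]
  rw [Finset.mem_filter]
  omega

open Classical in
theorem abs_flip48 {G : Type} {m : ℕ} {L : Finset G} {d : G → ℕ} {st : Fin m → G → ℕ}
    {φ : Fin m → G → G} (h : FlipSys L d st φ) (j : ℕ) :
    ∑ g ∈ L.filter (fun g => d g = j), (cnt st 1 g : ℝ) / (cnt st 2 g + 1) ≤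
      ((L.filter fun g => d g = j + 1).card : ℝ) := by
  have h1 : ∀ g, (cnt st 1 g : ℝ) / (cnt st 2 g + 1) =
      ∑ k : Fin m, if st k g = 1 then 1 / ((cnt st 2 g : ℝ) + 1) else 0 := by
    intro g
    rw [← Finset.sum_filter, Finset.sum_const, nsmul_eq_mul]
    unfold cnt
    ring
  rw [Finset.sum_congr rfl (fun g _ => h1 g), Finset.sum_comm]
  have h2 : ∀ k : Fin m, (∑ g ∈ L.filter (fun g => d g = j),
      if st k g = 1 then 1 / ((cnt st 2 g : ℝ) + 1) else 0) ≤
      ∑ g ∈ L.filter (fun g => d g = j + 1), if st k g = 2 then 1 / (cnt st 2 g : ℝ) else 0 := by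
    intro k
    rw [← Finset.sum_filter, ← Finset.sum_filter, Finset.filter_filter, Finset.filter_filter]
    have hinj : Set.InjOn (φ k) (L.filter (fun g => d g = j ∧ st k g = 1) : Finset G) := by
      intro g hg g' hg' e
      have hg1 := Finset.mem_filter.1 (Finset.mem_coe.1 hg)
      have hg2 := Finset.mem_filter.1 (Finset.mem_coe.1 hg')
      have e1 := h.inv k g hg1.1 (by omega)
      have e2 := h.inv k g' hg2.1 (by omega)
      rw [← e1, ← e2]
      exact congrArg (φ k) e
    have e3 : ∑ g ∈ L.filter (fun g => d g = j ∧ st k g = 1), 1 / ((cnt st 2 g : ℝ) + 1) =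
        ∑ y ∈ (L.filter (fun g => d g = j ∧ st k g = 1)).image (φ k), 1 / (cnt st 2 y : ℝ) := by
      rw [Finset.sum_image hinj]
      refine Finset.sum_congr rfl fun g hg => ?_
      have hg1 := Finset.mem_filter.1 hg
      rw [cnt_succ48 h hg1.1 hg1.2.2]
      push_cast
      rfl
    rw [e3]
    refine Finset.sum_le_sum_of_subset_of_nonneg ?_ fun _ _ _ => by positivity
    intro y hy
    obtain ⟨g, hg, rfl⟩ := Finset.mem_image.1 hy
    have hg1 := Finset.mem_filter.1 hg
    have h3 := h.lo k g hg1.1 hg1.2.2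
    exact Finset.mem_filter.2 ⟨h.mem k g hg1.1 (by omega), by omega, h3.1⟩
  refine (Finset.sum_le_sum fun k _ => h2 k).trans ?_
  rw [Finset.sum_comm]
  have h4 : ∀ g, (∑ k : Fin m, if st k g = 2 then 1 / (cnt st 2 g : ℝ) else 0) ≤ 1 := by
    intro g
    rw [← Finset.sum_filter, Finset.sum_const, nsmul_eq_mul]
    show ((cnt st 2 g : ℕ) : ℝ) * (1 / (cnt st 2 g : ℝ)) ≤ 1
    rcases Nat.eq_zero_or_pos (cnt st 2 g) with h5 | h5
    · rw [h5]; norm_num
    · have : (0 : ℝ) < cnt st 2 g := by exact_mod_cast h5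
      rw [mul_one_div, div_self this.ne']
  refine (Finset.sum_le_sum fun g _ => h4 g).trans ?_
  rw [Finset.sum_const, nsmul_eq_mul, mul_one]

theorem swap_sys48 {G : Type} {m : ℕ} {L : Finset G} {d : G → ℕ} {st : Fin m → G → ℕ}
    {φ : Fin m → G → G} (h : FlipSys L d st φ) (N : ℕ) (hN : ∀ g ∈ L, d g ≤ N) :
    FlipSys L (fun g => N - d g) (swp st) φ := by
  have h0 : ∀ k g, swp st k g ≠ 0 → st k g ≠ 0 := by
    intro k g hs hg
    apply hs
    unfold swp
    rw [hg]
    simp
  have h1 : ∀ k g, swp st k g = 1 → st k g = 2 := by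
    intro k g hs
    unfold swp at hs
    split_ifs at hs <;> omega
  have h2 : ∀ k g, swp st k g = 2 → st k g = 1 := by
    intro k g hs
    unfold swp at hs
    split_ifs at hs <;> omega
  refine ⟨?_, ?_, ?_, ?_, ?_, ?_⟩
  · intro k g _
    unfold swp
    split_ifs <;> omega
  · intro k g hg hk
    exact h.mem k g hg (h0 k g hk)
  · intro k g hg hk
    exact h.inv k g hg (h0 k g hk)
  · intro k g hg hk
    have h3 := h.hi k g hg (h1 k g hk)
    have h4 := hN g hg
    refine ⟨?_, ?_⟩
    · unfold swp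
      rw [h3.1]
      simp
    · show N - d (φ k g) = N - d g + 1
      omega
  · intro k g hg hk
    have h3 := h.lo k g hg (h2 k g hk)
    have h4 := hN _ (h.mem k g hg (by rw [h2 k g hk]; norm_num))
    refine ⟨?_, ?_⟩
    · unfold swp
      rw [h3.1]
      simp
    · show N - d (φ k g) + 1 = N - d g
      omega
  · intro k k' hkk g hg hk
    unfold swp
    rw [h.oth k k' hkk g hg (h0 k g hk)]

theorem mk_swp48 {G : Type} {m : ℕ} {L : Finset G} {d : G → ℕ} {st : Fin m → G → ℕ}
    {φ : Fin m → G → G} (h : FlipSys L d st φ) (g : G) (hg : g ∈ L) : mk (swp st) g = mk st g := by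
  unfold mk
  congr 1
  apply Finset.filter_congr
  intro k _
  have h1 := h.le2 k g hg
  unfold swp
  split_ifs with ha hb
  · omega
  · omega
  · omega

open Classical in
/-- `abs_level` from `abs_exp` -/
theorem abs_level48 {G : Type} {m : ℕ} {L : Finset G} {d : G → ℕ} {st : Fin m → G → ℕ}
    {φ : Fin m → G → G} (h : FlipSys L d st φ) (N i : ℕ) (s : ℝ) (hs : 0 < s) (hmN : m ≤ N)
    (hexp : ∑ g ∈ L, Real.exp (-(s * d g)) * Real.exp (s / 2 * ((cnt st 2 g : ℝ) - cnt st 1 g)) =
      ∑ g ∈ L, Real.exp (-(s * d g)) * (1 / Real.cosh (s / 2)) ^ mk st g)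
    (hb : ((N : ℝ) + 2) * Real.exp (s / 2) *
      ∑ g ∈ L, Real.exp (-(s * d g)) * (1 / Real.cosh (s / 2)) ^ mk st g ≤
      ((L.filter fun g => d g = i).card : ℝ) * Real.exp (-(s * i))) :
    (L.filter fun g => d g = i).card ≤ (L.filter fun g => d g = i + 1).card := by
  set bad := (L.filter fun g => d g = i).filter fun g => ¬ (cnt st 2 g + 2 ≤ cnt st 1 g) with hbad
  set good := (L.filter fun g => d g = i).filter fun g => cnt st 2 g + 2 ≤ cnt st 1 g with hgood
  have hcard : good.card + bad.card = (L.filter fun g => d g = i).card :=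
    Finset.card_filter_add_card_filter_not (s := L.filter fun g => d g = i) _
  -- few bad words
  have h1 : (bad.card : ℝ) * (Real.exp (-(s * i)) * Real.exp (-(s / 2))) ≤
      ∑ g ∈ L, Real.exp (-(s * d g)) * Real.exp (s / 2 * ((cnt st 2 g : ℝ) - cnt st 1 g)) := by
    rw [← nsmul_eq_mul, ← Finset.sum_const]
    refine (Finset.sum_le_sum (g := fun g => Real.exp (-(s * d g)) *
      Real.exp (s / 2 * ((cnt st 2 g : ℝ) - cnt st 1 g))) fun g hg => ?_).trans
      (Finset.sum_le_sum_of_subset_of_nonneg (fun g hg => ?_) fun _ _ _ => by positivity)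
    · have hg1 := Finset.mem_filter.1 hg
      have hg2 := Finset.mem_filter.1 hg1.1
      rw [hg2.2]
      apply mul_le_mul_of_nonneg_left _ (Real.exp_nonneg _)
      apply Real.exp_le_exp.2
      have h2 : cnt st 1 g ≤ cnt st 2 g + 1 := by omega
      have h3 : (cnt st 1 g : ℝ) ≤ cnt st 2 g + 1 := by exact_mod_cast h2
      nlinarith
    · exact (Finset.mem_filter.1 (Finset.mem_filter.1 hg).1).1
  rw [hexp] at h1
  have h2 : ((N : ℝ) + 2) * bad.card ≤ ((L.filter fun g => d g = i).card : ℝ) := by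
    have e1 := Real.exp_pos (-(s * i))
    have e2 := Real.exp_pos (s / 2)
    have e3 : Real.exp (s / 2) * Real.exp (-(s / 2)) = 1 := by
      rw [← Real.exp_add, add_neg_cancel, Real.exp_zero]
    have h3 : ((N : ℝ) + 2) * Real.exp (s / 2) *
        ((bad.card : ℝ) * (Real.exp (-(s * i)) * Real.exp (-(s / 2)))) ≤
        ((L.filter fun g => d g = i).card : ℝ) * Real.exp (-(s * i)) :=
      (mul_le_mul_of_nonneg_left h1 (by positivity)).trans hb
    have h4 : ((N : ℝ) + 2) * Real.exp (s / 2) *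
        ((bad.card : ℝ) * (Real.exp (-(s * i)) * Real.exp (-(s / 2)))) =
        ((N : ℝ) + 2) * bad.card * Real.exp (-(s * i)) := by
      calc _ = ((N : ℝ) + 2) * bad.card * Real.exp (-(s * i)) *
            (Real.exp (s / 2) * Real.exp (-(s / 2))) := by ring
        _ = _ := by rw [e3, mul_one]
    rw [h4] at h3
    exact le_of_mul_le_mul_right h3 e1
  -- the others
  have h3 : (1 + 1 / ((N : ℝ) + 1)) * (good.card : ℝ) ≤
      ((L.filter fun g => d g = i + 1).card : ℝ) := by
    refine le_trans ?_ (abs_flip48 h i)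
    rw [mul_comm, ← nsmul_eq_mul, ← Finset.sum_const]
    refine (Finset.sum_le_sum (f := fun _ => 1 + 1 / ((N : ℝ) + 1)) (g := fun g =>
      (cnt st 1 g : ℝ) / (cnt st 2 g + 1)) fun g hg => ?_).trans
      (Finset.sum_le_sum_of_subset_of_nonneg (Finset.filter_subset _ _)
        fun _ _ _ => by positivity)
    have h1 := (Finset.mem_filter.1 hg).2
    have h2 : cnt st 2 g ≤ N := by
      have : cnt st 2 g ≤ m := by
        have := Finset.card_le_univ (Finset.univ.filter fun k => st k g = 2)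
        simpa [cnt] using this
      omega
    have h1' : (cnt st 2 g : ℝ) + 2 ≤ cnt st 1 g := by exact_mod_cast h1
    have h2' : (cnt st 2 g : ℝ) ≤ N := by exact_mod_cast h2
    have h3 : (1 : ℝ) / (N + 1) ≤ 1 / (cnt st 2 g + 1) :=
      one_div_le_one_div_of_le (by positivity) (by linarith)
    have h4 : (cnt st 2 g + 2 : ℝ) / (cnt st 2 g + 1) = 1 + 1 / (cnt st 2 g + 1) := by
      field_simp
      ring
    calc 1 + 1 / ((N : ℝ) + 1) ≤ 1 + 1 / (cnt st 2 g + 1) := by linarith
      _ = (cnt st 2 g + 2 : ℝ) / (cnt st 2 g + 1) := h4.symm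
      _ ≤ _ := div_le_div_of_nonneg_right h1' (by positivity)
  have h4 : (good.card : ℝ) + bad.card = (L.filter fun g => d g = i).card := by
    exact_mod_cast hcard
  have h6 : ((L.filter fun g => d g = i).card : ℝ) ≤ (1 + 1 / ((N : ℝ) + 1)) * good.card := by
    have h7 : (1 + 1 / ((N : ℝ) + 1)) = (N + 2) / (N + 1) := by field_simp; ring
    rw [h7, div_mul_eq_mul_div, le_div_iff₀ (by positivity)]
    nlinarith
  exact_mod_cast h6.trans h3

end Pool.TA43
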