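import Pool.Agent.TA43.AbsS9
import Pool.Agent.TA43.AbsS48

set_option autoImplicit false

/-!
# TA43/Abs: flips of marked windows, abstract (STUB)
-/

namespace Pool.TA43

open Classical in
/-- PROOF. `PH43.flip`: pairs `(g, k)` with `st k g = 1` go to `(φ k g, k)` with `st k (φ k g) = 2`,
injectively, and `cnt 2 (φ k g) = cnt 2 g + 1`. -/
theorem abs_flip {G : Type} {m : ℕ} {L : Finset G} {d : G → ℕ} {st : Fin m → G → ℕ}
    {φ : Fin m → G → G} (h : FlipSys L d st φ) (j : ℕ) :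
    ∑ g ∈ L.filter (fun g => d g = j), (cnt st 1 g : ℝ) / (cnt st 2 g + 1) ≤
      ((L.filter fun g => d g = j + 1).card : ℝ) :=
  abs_flip48 h j

/-- PROOF. Induction over the set `K` of windows already exchanged: in `∑_g e^(-s d) Π_(k ∉ K) t_k Π_(k ∈ K) γ^[st k ≠ 0]`,
`t_k = e^(-s/2)` in the low state, `e^(s/2)` in the high state, replace one more factor: with the involution
`φ k` on the words with `st k ≠ 0`, `e^(-s/2) + e^(-s) e^(s/2) = γ (1 + e^(-s))`, the other factors are not changed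
by `φ k` (`oth`). -/
theorem abs_exp {G : Type} {m : ℕ} {L : Finset G} {d : G → ℕ} {st : Fin m → G → ℕ}
    {φ : Fin m → G → G} (h : FlipSys L d st φ) (s : ℝ) :
    ∑ g ∈ L, Real.exp (-(s * d g)) * Real.exp (s / 2 * ((cnt st 2 g : ℝ) - cnt st 1 g)) =
      ∑ g ∈ L, Real.exp (-(s * d g)) * (1 / Real.cosh (s / 2)) ^ mk st g :=
  abs_exp_S9 h s

open Classical in
/-- PROOF. `bad = {g ∈ L : d g = i, cnt 1 ≤ cnt 2 + 1}`: `abs_exp` gives `e^(-si) e^(-s/2) #bad ≤ ∑ e^(-s d) γ^mk`, so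
`(N + 2) #bad ≤ #L_i`; `abs_flip`: `(1 + 1/(N+1)) (#L_i - #bad) ≤ #L_(i+1)` (`m ≤ N`); see `PH43.flip_le`,
`PH43.w_le_of_flip`. -/
theorem abs_level {G : Type} {m : ℕ} {L : Finset G} {d : G → ℕ} {st : Fin m → G → ℕ}
    {φ : Fin m → G → G} (h : FlipSys L d st φ) (N i : ℕ) (s : ℝ) (hs : 0 < s) (hmN : m ≤ N)
    (hb : ((N : ℝ) + 2) * Real.exp (s / 2) *
      ∑ g ∈ L, Real.exp (-(s * d g)) * (1 / Real.cosh (s / 2)) ^ mk st g ≤
      ((L.filter fun g => d g = i).card : ℝ) * Real.exp (-(s * i))) :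
    (L.filter fun g => d g = i).card ≤ (L.filter fun g => d g = i + 1).card :=
  abs_level48 h N i s hs hmN (abs_exp h s) hb

/-- PROOF. Case by case. -/
theorem swap_sys {G : Type} {m : ℕ} {L : Finset G} {d : G → ℕ} {st : Fin m → G → ℕ}
    {φ : Fin m → G → G} (h : FlipSys L d st φ) (N : ℕ) (hN : ∀ g ∈ L, d g ≤ N) :
    FlipSys L (fun g => N - d g) (swp st) φ :=
  swap_sys48 h N hN

theorem mk_swp {G : Type} {m : ℕ} {L : Finset G} {d : G → ℕ} {st : Fin m → G → ℕ}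
    {φ : Fin m → G → G} (h : FlipSys L d st φ) (g : G) (hg : g ∈ L) : mk (swp st) g = mk st g :=
  mk_swp48 h g hg

end Pool.TA43
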