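import Pool.Agent.TA43.Defs

set_option autoImplicit false

/-!
# TA43/AbsS9: `abs_exp` (helper9)
-/

namespace Pool.TA43

/-- factor of one window, exponential form -/
noncomputable def fcS9 (s : ℝ) (a : ℕ) : ℝ :=
  Real.exp (s / 2 * ((if a = 2 then (1 : ℝ) else 0) - (if a = 1 then (1 : ℝ) else 0)))

/-- factor of one window, marked form -/
noncomputable def ecS9 (s : ℝ) (a : ℕ) : ℝ :=
  if a ≠ 0 then 1 / Real.cosh (s / 2) else 1

theorem fc_prodS9 {G : Type} {m : ℕ} (st : Fin m → G → ℕ) (s : ℝ) (g : G) :
    Real.exp (s / 2 * ((cnt st 2 g : ℝ) - cnt st 1 g)) = ∏ k, fcS9 s (st k g) := by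
  unfold fcS9
  rw [← Real.exp_sum, ← Finset.mul_sum, Finset.sum_sub_distrib]
  unfold cnt
  simp

theorem ec_prodS9 {G : Type} {m : ℕ} (st : Fin m → G → ℕ) (s : ℝ) (g : G) :
    (1 / Real.cosh (s / 2)) ^ mk st g = ∏ k, ecS9 s (st k g) := by
  unfold ecS9 mk
  rw [Finset.prod_ite]
  simp

theorem pairS9 (s x : ℝ) :
    Real.exp (-(s * x)) * (Real.exp (-(s / 2)) - 1 / Real.cosh (s / 2)) +
      Real.exp (-(s * (x + 1))) * (Real.exp (s / 2) - 1 / Real.cosh (s / 2)) = 0 := by
  have hc : 0 < Real.cosh (s / 2) := Real.cosh_pos _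
  have h1 : Real.exp (-(s * (x + 1))) = Real.exp (-(s * x)) * (Real.exp (-(s / 2)) * Real.exp (-(s / 2))) := by
    rw [← Real.exp_add, ← Real.exp_add]; congr 1; ring
  have h2 : Real.exp (-(s / 2)) * Real.exp (s / 2) = 1 := by
    rw [← Real.exp_add]; simp
  have h3 : 2 * Real.cosh (s / 2) = Real.exp (s / 2) + Real.exp (-(s / 2)) := by
    rw [Real.cosh_eq]; ring
  rw [h1]
  have h4 : Real.exp (-(s / 2)) + Real.exp (-(s / 2)) * (Real.exp (-(s / 2)) * Real.exp (s / 2)) -
      (1 + Real.exp (-(s / 2)) * Real.exp (-(s / 2))) * (1 / Real.cosh (s / 2)) = 0 := by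
    rw [h2]
    have h5 : 1 + Real.exp (-(s / 2)) * Real.exp (-(s / 2)) =
        Real.exp (-(s / 2)) * (2 * Real.cosh (s / 2)) := by
      rw [h3]; linear_combination -h2
    rw [h5]
    field_simp
    ring
  linear_combination Real.exp (-(s * x)) * h4

open Classical in
theorem stepS9 {G : Type} {m : ℕ} {L : Finset G} {d : G → ℕ} {st : Fin m → G → ℕ}
    {φ : Fin m → G → G} (h : FlipSys L d st φ) (s : ℝ) (a : Fin m) (R : G → ℝ)
    (hR : ∀ g ∈ L, st a g ≠ 0 → R (φ a g) = R g) :
    ∑ g ∈ L, Real.exp (-(s * d g)) * (fcS9 s (st a g) * R g) =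
      ∑ g ∈ L, Real.exp (-(s * d g)) * (ecS9 s (st a g) * R g) := by
  rw [← sub_eq_zero, ← Finset.sum_sub_distrib]
  refine Finset.sum_involution (fun g _ => if st a g = 0 then g else φ a g) ?_ ?_ ?_ ?_
  · intro g hg
    by_cases h0 : st a g = 0
    · simp [h0, fcS9, ecS9]
    · have hm := hR g hg h0
      simp only [h0, if_false]
      have h2 := h.le2 a g hg
      rcases (show st a g = 1 ∨ st a g = 2 by omega) with h1 | h1
      · obtain ⟨hs, hd⟩ := h.lo a g hg h1
        rw [hm, hs, hd, h1]
        have hp := pairS9 s (d g : ℝ)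
        push_cast
        simp only [fcS9, ecS9]
        norm_num
        have e1 : s / 2 * -1 = -(s / 2) := by ring
        simp only [one_div] at hp
        linear_combination R g * hp
      · obtain ⟨hs, hd⟩ := h.hi a g hg h1
        rw [hm, hs, h1, ← hd]
        have hp := pairS9 s (d (φ a g) : ℝ)
        push_cast
        simp only [fcS9, ecS9]
        norm_num
        simp only [one_div] at hp
        linear_combination R g * hp
  · intro g hg hne he
    by_cases h0 : st a g = 0
    · apply hne
      simp [h0, fcS9, ecS9]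
    · simp only [h0, if_false] at he
      have h2 := h.le2 a g hg
      rcases (show st a g = 1 ∨ st a g = 2 by omega) with h1 | h1
      · obtain ⟨hs, hd⟩ := h.lo a g hg h1
        rw [he] at hs; omega
      · obtain ⟨hs, hd⟩ := h.hi a g hg h1
        rw [he] at hs; omega
  · intro g hg
    by_cases h0 : st a g = 0
    · simp only [h0, if_true]; exact hg
    · simp only [h0, if_false]; exact h.mem a g hg h0
  · intro g hg
    by_cases h0 : st a g = 0
    · simp only [h0, if_true]
    · simp only [h0, if_false]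
      have h2 := h.le2 a g hg
      have h3 : st a (φ a g) ≠ 0 := by
        rcases (show st a g = 1 ∨ st a g = 2 by omega) with h1 | h1
        · have := (h.lo a g hg h1).1; omega
        · have := (h.hi a g hg h1).1; omega
      simp only [h3, if_false]
      exact h.inv a g hg h0

open Classical in
theorem exchS9 {G : Type} {m : ℕ} {L : Finset G} {d : G → ℕ} {st : Fin m → G → ℕ}
    {φ : Fin m → G → G} (h : FlipSys L d st φ) (s : ℝ) (K : Finset (Fin m)) :
    ∑ g ∈ L, Real.exp (-(s * d g)) * ∏ k, fcS9 s (st k g) =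
      ∑ g ∈ L, Real.exp (-(s * d g)) *
        ∏ k, (if k ∈ K then ecS9 s (st k g) else fcS9 s (st k g)) := by
  induction K using Finset.induction_on with
  | empty => simp
  | insert a K ha ih =>
    rw [ih]
    have hs := stepS9 h s a
      (fun g => ∏ k ∈ Finset.univ.erase a, (if k ∈ K then ecS9 s (st k g) else fcS9 s (st k g)))
      (by
        intro g hg h0
        refine Finset.prod_congr rfl fun k hk => ?_
        rw [h.oth a k (Finset.ne_of_mem_erase hk) g hg h0])
    calc _ = ∑ g ∈ L, Real.exp (-(s * d g)) * (fcS9 s (st a g) *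
        ∏ k ∈ Finset.univ.erase a, (if k ∈ K then ecS9 s (st k g) else fcS9 s (st k g))) := by
          refine Finset.sum_congr rfl fun g _ => ?_
          rw [← Finset.mul_prod_erase Finset.univ _ (Finset.mem_univ a)]
          simp [ha]
      _ = _ := by
          rw [hs]
          refine Finset.sum_congr rfl fun g _ => ?_
          rw [← Finset.mul_prod_erase Finset.univ
            (fun k => if k ∈ insert a K then ecS9 s (st k g) else fcS9 s (st k g))
            (Finset.mem_univ a)]
          simp only [Finset.mem_insert, true_or, if_true]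
          congr 2
          refine Finset.prod_congr rfl fun k hk => ?_
          have hka : k ≠ a := Finset.ne_of_mem_erase hk
          simp [hka]

theorem abs_exp_S9 {G : Type} {m : ℕ} {L : Finset G} {d : G → ℕ} {st : Fin m → G → ℕ}
    {φ : Fin m → G → G} (h : FlipSys L d st φ) (s : ℝ) :
    ∑ g ∈ L, Real.exp (-(s * d g)) * Real.exp (s / 2 * ((cnt st 2 g : ℝ) - cnt st 1 g)) =
      ∑ g ∈ L, Real.exp (-(s * d g)) * (1 / Real.cosh (s / 2)) ^ mk st g := by
  have h1 := exchS9 h s Finset.univ
  simp only [fc_prodS9, ec_prodS9]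
  rw [h1]
  simp

end Pool.TA43
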