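import Pool.Agent.TA43.BubS58

set_option autoImplicit false

/-!
# TA43/Bub: bubble sort inside a window meets every number of descents
-/

namespace Pool.TA43

open Pool.HB45 Pool.HM63 Pool.PH43 Pool.SC25 Pool.SC45

variable {N B m : ℕ}

/-- PROOF. Induction over the number of inversions of the window (pairs of window positions `i < j` with
decreasing labels). If the window of `g` is not sorted it has a neighbour descent at an internal position `p`
(`o ≤ p < o + B`); `g p`, `g (p + 1)` are not comparable (`hn`), `sw g p ∈ LE Q` (`PH43.sw_mem`) is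
`g * emb τ` for a swap `τ`, has one inversion less, and `des` changes by at most one (`PH43.des_sw`: only the
positions `p - 1, p, p + 1` change, `p` loses, at `p ± 1` a descent is never lost: `-1, 0` or `+1`). If the window
is sorted, `g = srt k g` (`Tuple.sort` of a monotone family is `1`). -/
theorem bubble (hm : m * (B + 2) ≤ N + 1) {Q : Rel (N + 1)} {lab : Fin (N + 1) → ℕ}
    (hn : Nat' Q lab) (k : Fin m) (g : Equiv.Perm (Fin (N + 1))) (hg : g ∈ LE Q) (v : ℕ)
    (h1 : des lab (srt hm lab k g) ≤ v) (h2 : v ≤ des lab g) :
    ∃ τ : Equiv.Perm (Fin (B + 1)), g * emb (win_le hm k) τ ∈ LE Q ∧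
      des lab (g * emb (win_le hm k) τ) = v :=
  bubble58 hm hn k g hg v h1 h2

end Pool.TA43
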