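import Pool.Agent.TA43.Win

set_option autoImplicit false

/-!
# TA43/BubS58: bubble sort inside a window meets every number of descents
-/

namespace Pool.TA43

open Pool.HB45 Pool.HM63 Pool.PH43 Pool.SC25 Pool.SC45

variable {N B m : ℕ}

/-- the swap of two neighbouring positions of a window -/
theorem bub_emb_swap {o : ℕ} (hof : o + (B + 1) ≤ N + 1) (i : Fin B) (p : Fin N)
    (hp : p.val = o + i.val) :
    emb hof (Equiv.swap i.castSucc i.succ) = Equiv.swap p.castSucc p.succ := by
  have e1 : wpos hof i.castSucc = p.castSucc := Fin.ext (by simp [wpos, hp])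
  have e2 : wpos hof i.succ = p.succ := Fin.ext (by simp [wpos, hp]; omega)
  ext x
  by_cases hx : o ≤ x.val ∧ x.val < o + (B + 1)
  · obtain ⟨y, rfl⟩ : ∃ y : Fin (B + 1), wpos hof y = x :=
      ⟨⟨x.val - o, by omega⟩, Fin.ext (by simp [wpos]; omega)⟩
    rw [emb_wpos]
    by_cases h1 : y = i.castSucc
    · rw [h1, Equiv.swap_apply_left, e1, e2, Equiv.swap_apply_left]
    · by_cases h2 : y = i.succ
      · rw [h2, Equiv.swap_apply_right, e1, e2, Equiv.swap_apply_right]
      · rw [Equiv.swap_apply_of_ne_of_ne h1 h2, ← e1, ← e2, Equiv.swap_apply_of_ne_of_ne]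
        · intro h
          apply h1
          have := congrArg Fin.val h
          simp only [wpos] at this
          exact Fin.ext (by omega)
        · intro h
          apply h2
          have := congrArg Fin.val h
          simp only [wpos] at this
          exact Fin.ext (by omega)
  · rw [emb_of_not hof _ x hx, Equiv.swap_apply_of_ne_of_ne]
    · intro h
      apply hx
      rw [h, Fin.val_castSucc, hp]
      have := i.isLt
      omega
    · intro h
      apply hx
      rw [h, Fin.val_succ, hp]
      have := i.isLt
      omega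

/-- the potential: it grows if a descent is removed -/
def bubPot {N : ℕ} (lab : Fin (N + 1) → ℕ) (g : Equiv.Perm (Fin (N + 1))) : ℤ :=
  ∑ x : Fin (N + 1), (x.val : ℤ) * lab (g x)

theorem bubPot_le {N : ℕ} (lab : Fin (N + 1) → ℕ) (g : Equiv.Perm (Fin (N + 1))) :
    bubPot lab g ≤ ∑ x : Fin (N + 1), (N : ℤ) * lab x := by
  rw [← Equiv.sum_comp g (fun x => (N : ℤ) * lab x)]
  refine Finset.sum_le_sum fun x _ => ?_
  have h1 : (x.val : ℤ) ≤ N := by have := x.isLt; omega
  exact mul_le_mul_of_nonneg_right h1 (by positivity)

theorem bubPot_sw {N : ℕ} (lab : Fin (N + 1) → ℕ) (g : Equiv.Perm (Fin (N + 1))) (p : Fin N)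
    (hp : lab (g p.succ) < lab (g p.castSucc)) : bubPot lab g < bubPot lab (sw g p) := by
  have h1 : bubPot lab (sw g p) =
      ∑ x : Fin (N + 1), ((Equiv.swap p.castSucc p.succ x).val : ℤ) * lab (g x) := by
    unfold bubPot sw
    rw [← Equiv.sum_comp (Equiv.swap p.castSucc p.succ)
      (fun x => ((Equiv.swap p.castSucc p.succ x).val : ℤ) * lab (g x))]
    refine Finset.sum_congr rfl fun x _ => ?_
    rw [Equiv.swap_apply_self, Equiv.Perm.mul_apply]
  have h2 : bubPot lab (sw g p) - bubPot lab g =
      ∑ x : Fin (N + 1), (((Equiv.swap p.castSucc p.succ x).val : ℤ) - x.val) * lab (g x) := by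
    rw [h1]
    unfold bubPot
    rw [← Finset.sum_sub_distrib]
    exact Finset.sum_congr rfl fun x _ => by ring
  have hne : p.castSucc ≠ p.succ := by
    intro h
    have := congrArg Fin.val h
    simp at this
  rw [Finset.sum_eq_add p.castSucc p.succ hne (by
    intro c _ hc
    rw [Equiv.swap_apply_of_ne_of_ne hc.1 hc.2]
    ring) (fun h => absurd (Finset.mem_univ _) h) (fun h => absurd (Finset.mem_univ _) h),
    Equiv.swap_apply_left, Equiv.swap_apply_right, Fin.val_succ, Fin.val_castSucc] at h2
  have h3 : (lab (g p.succ) : ℤ) < lab (g p.castSucc) := by exact_mod_cast hp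
  push_cast at h2
  nlinarith

/-- removing a descent: at most one descent is lost -/
theorem bub_des_le {N : ℕ} (lab : Fin (N + 1) → ℕ) (g : Equiv.Perm (Fin (N + 1))) (p : Fin N)
    (hp : lab (g p.succ) < lab (g p.castSucc)) : des lab g ≤ des lab (sw g p) + 1 := by
  classical
  have hsub : DS lab g ⊆ insert p (DS lab (sw g p)) := by
    intro q hq
    rw [Finset.mem_insert, mem_DS]
    rw [mem_DS] at hq
    have hc : q.castSucc.val = q.val := rfl
    have hs : q.succ.val = q.val + 1 := rfl
    by_cases hqp : q = p
    · exact Or.inl hqp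
    · right
      have hq' : q.val ≠ p.val := fun h => hqp (Fin.ext h)
      by_cases hq1 : q.val + 1 = p.val
      · have h2 : q.succ = p.castSucc := Fin.ext (by rw [hs, hq1]; rfl)
        rw [h2] at hq
        rw [h2, sw_left, sw_other g (i := q.castSucc) (by rw [hc]; omega) (by rw [hc]; omega)]
        exact hp.trans hq
      · by_cases hq2 : q.val = p.val + 1
        · have h2 : q.castSucc = p.succ := Fin.ext (by rw [hc, hq2]; rfl)
          rw [h2] at hq
          rw [h2, sw_right, sw_other g (i := q.succ) (by rw [hs]; omega) (by rw [hs]; omega)]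
          exact hq.trans hp
        · rw [sw_other g (i := q.castSucc) (by rw [hc]; omega) (by rw [hc]; omega),
            sw_other g (i := q.succ) (by rw [hs]; omega) (by rw [hs]; omega)]
          exact hq
  have h1 := Finset.card_le_card hsub
  have h2 := Finset.card_insert_le p (DS lab (sw g p))
  rw [card_DS] at h1 h2
  omega

theorem bubble58 (hm : m * (B + 2) ≤ N + 1) {Q : Rel (N + 1)} {lab : Fin (N + 1) → ℕ}
    (hn : Nat' Q lab) (k : Fin m) (g : Equiv.Perm (Fin (N + 1))) (hg : g ∈ LE Q) (v : ℕ)
    (h1 : des lab (srt hm lab k g) ≤ v) (h2 : v ≤ des lab g) :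
    ∃ τ : Equiv.Perm (Fin (B + 1)), g * emb (win_le hm k) τ ∈ LE Q ∧
      des lab (g * emb (win_le hm k) τ) = v := by
  obtain ⟨M, hM⟩ : ∃ M : ℕ, ((∑ x : Fin (N + 1), (N : ℤ) * lab x) - bubPot lab g).toNat = M :=
    ⟨_, rfl⟩
  induction M using Nat.strong_induction_on generalizing g with
  | _ M ih =>
    by_cases hv : v = des lab g
    · refine ⟨1, ?_, ?_⟩
      · rw [emb_one, mul_one]; exact hg
      · rw [emb_one, mul_one, hv]
    · by_cases hs : Monotone (fun i => lab (g (wpos (win_le hm k) i)))
      · exfalso
        have h3 : srt hm lab k g = g := by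
          unfold srt
          rw [Tuple.sort_eq_refl_iff_monotone.2 hs]
          have : emb (win_le hm k) (Equiv.refl (Fin (B + 1))) = 1 := emb_one _
          rw [this, mul_one]
        rw [h3] at h1
        omega
      · rw [Fin.monotone_iff_le_succ] at hs
        push Not at hs
        obtain ⟨i, hi⟩ := hs
        have hlt : k.val * (B + 2) + i.val < N := by
          have h3 := win_le hm k
          have h4 := i.isLt
          omega
        set p : Fin N := ⟨k.val * (B + 2) + i.val, hlt⟩ with hp
        have e1 : wpos (win_le hm k) i.castSucc = p.castSucc := Fin.ext (by simp [wpos, hp])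
        have e2 : wpos (win_le hm k) i.succ = p.succ := Fin.ext (by simp [wpos, hp]; omega)
        rw [e1, e2] at hi
        have hQ : ¬ Q (g p.castSucc) (g p.succ) := by
          intro h
          have := hn.mono _ _ h
          omega
        have hswm : sw g p ∈ LE Q := sw_mem hg hQ
        have hemb := bub_emb_swap (win_le hm k) i p rfl
        have hsw : sw g p = g * emb (win_le hm k) (Equiv.swap i.castSucc i.succ) := by
          rw [hemb]; rfl
        have hd := bub_des_le lab g p hi
        have hpot := bubPot_sw lab g p hi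
        have hle := bubPot_le lab (sw g p)
        have hsrt : srt hm lab k (sw g p) = srt hm lab k g := by
          rw [hsw, srt_emb hm hn.inj]
        obtain ⟨τ, h3, h4⟩ := ih _ (by omega) (sw g p) hswm (by rw [hsrt]; exact h1) (by omega) rfl
        refine ⟨Equiv.swap i.castSucc i.succ * τ, ?_, ?_⟩
        · rw [emb_mul, ← mul_assoc, ← hsw]; exact h3
        · rw [emb_mul, ← mul_assoc, ← hsw]; exact h4

end Pool.TA43
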