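import Pool.Agent.TA43.Mass

set_option autoImplicit false

/-!
# TA43/ClmS48: intermediate values and the climb
-/

namespace Pool.TA43

theorem med48 (N : ℕ) (v : ℕ → ℝ) (j : ℕ) (a b : ℝ) (hab : a ≤ b)
    (ha : VS v a (Finset.range (j + 1)) ≤ VV N v a / 2)
    (hb : VV N v b / 2 ≤ VS v b (Finset.range (j + 1))) :
    ∃ s, a ≤ s ∧ s ≤ b ∧ VS v s (Finset.range (j + 1)) = VV N v s / 2 := by
  have hf : ContinuousOn (fun s => VS v s (Finset.range (j + 1))) (Set.Icc a b) := by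
    apply Continuous.continuousOn
    unfold VS
    fun_prop
  have hg : ContinuousOn (fun s => VV N v s / 2) (Set.Icc a b) := by
    apply Continuous.continuousOn
    unfold VV
    fun_prop
  obtain ⟨s, hs, he⟩ := isPreconnected_Icc.intermediate_value₂ (Set.left_mem_Icc.2 hab)
    (Set.right_mem_Icc.2 hab) hf hg ha hb
  exact ⟨s, hs.1, hs.2, he⟩

theorem VS_mono48 (v : ℕ → ℝ) (hv : ∀ i, 0 ≤ v i) (s : ℝ) {S T : Finset ℕ} (h : S ⊆ T) :
    VS v s S ≤ VS v s T :=
  Finset.sum_le_sum_of_subset_of_nonneg h fun i _ _ => mul_nonneg (hv i) (Real.exp_nonneg _)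

theorem VV_nonneg48 (N : ℕ) (v : ℕ → ℝ) (hv : ∀ i, 0 ≤ v i) (s : ℝ) : 0 ≤ VV N v s :=
  Finset.sum_nonneg fun i _ => mul_nonneg (hv i) (Real.exp_nonneg _)

theorem Lm_nonneg48 (N : ℕ) {s : ℝ} (hs : 0 < s) : 0 ≤ Lm N s := by
  unfold Lm
  positivity

theorem Lm_anti48 (N : ℕ) {s t : ℝ} (hs : 0 < s) (hst : s ≤ t) : Lm N t ≤ Lm N s := by
  unfold Lm
  exact div_le_div_of_nonneg_left (by positivity) hs hst

/-- the climb, from the numbers `hnum` -/
theorem climb48 (ε s0 c2 : ℝ) (hε : 0 < ε) (hs0 : 0 < s0)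
    (hnum : ∃ C : ℝ, 0 < C ∧
      ∃ N0 : ℕ, ∀ N ≥ N0, ∀ D s t : ℝ, C * Dn N ≤ D → D / (120 * N) ≤ s → s ≤ t → t ≤ s0 →
      1 / ((N : ℝ) + 1) ≤ s ∧ 4 * Lm N s + 2 ≤ ε * N / 2 ∧
      ((N : ℝ) + 2) * Real.exp (t / 2) * Real.exp (-(c2 * t ^ 2 * N)) ≤
        Real.exp (-(t * (4 * Lm N s + 1))) / ((N : ℝ) + 1) ^ 4) : ∃ C : ℝ, 0 < C ∧
    ∃ N0 : ℕ, ∀ N ≥ N0, ∀ (v : ℕ → ℝ) (β j : ℕ) (D : ℝ),
    (∀ i, 0 ≤ v i) → 0 < VV N v 0 → j ≤ N →
    (∀ m, OV N v m * OV N v (m + 2) ≤ OV N v (m + 1) ^ 2) →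
    (∀ (i : ℕ) (s : ℝ), (β : ℝ) + ε * N / 2 ≤ i → s0 < s →
      VV N v s / 2 < VS v s (Finset.range (i + 1))) →
    (∀ s : ℝ, 0 ≤ s → s ≤ D / (120 * N) → VS v s (Finset.range (j + 1)) < VV N v s / 2) →
    (∀ (i : ℕ) (s : ℝ), (β : ℝ) + ε * N / 4 ≤ i → i ≤ j → 0 < s → s ≤ s0 →
      ((N : ℝ) + 2) * Real.exp (s / 2) * Real.exp (-(c2 * s ^ 2 * N)) * VV N v s ≤
        v i * Real.exp (-(s * i)) → v i ≤ v (i + 1)) →
    (β : ℝ) + ε * N ≤ j → C * Dn N ≤ D → v j ≤ v (j + 1) := by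
  obtain ⟨C, hC, N1, hnum⟩ := hnum
  obtain ⟨N2, hmass⟩ := mass s0 hs0
  refine ⟨C, hC, max N1 N2, ?_⟩
  intro N hN v β j D hv hVV hj hlc htb hlow hstep hβ hD
  have hN1 : N ≥ N1 := le_trans (le_max_left _ _) hN
  have hN2 : N ≥ N2 := le_trans (le_max_right _ _) hN
  have hNr : (0 : ℝ) ≤ N := Nat.cast_nonneg _
  have hεN : 0 ≤ ε * N := by positivity
  have hDn : 0 ≤ Dn N := by
    unfold Dn
    have : 0 ≤ Real.log ((N : ℝ) + 1) := Real.log_nonneg (by linarith)
    positivity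
  have hD0 : 0 ≤ D := le_trans (by positivity) hD
  set a := D / (120 * N) with ha
  have ha0 : 0 ≤ a := by positivity
  have hja : (β : ℝ) + ε * N / 2 ≤ j := by linarith
  have has0 : a ≤ s0 := by
    by_contra hcon
    push Not at hcon
    have h1 := htb j a hja hcon
    have h2 := hlow a ha0 le_rfl
    linarith
  -- the tilt with median `j`
  obtain ⟨s, has, hs1, hsm⟩ := med48 N v j a (s0 + 1) (by linarith) (hlow a ha0 le_rfl).le
    (htb j (s0 + 1) hja (by linarith)).le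
  have hss0 : s ≤ s0 := by
    by_contra hcon
    push Not at hcon
    have h1 := htb j s hja hcon
    linarith
  obtain ⟨hsn, hLs, -⟩ := hnum N hN1 D s s hD has le_rfl hss0
  have hspos : 0 < s := lt_of_lt_of_le (by positivity) hsn
  set Λ := Lm N s with hΛ
  have hΛ0 : 0 ≤ Λ := Lm_nonneg48 N hspos
  set q := ⌈2 * Λ⌉₊ with hq
  have hq1 : 2 * Λ ≤ q := Nat.le_ceil _
  have hq2 : (q : ℝ) ≤ 2 * Λ + 1 := (Nat.ceil_lt_add_one (by positivity)).le
  have hqj : q ≤ j := by
    have : (q : ℝ) ≤ j := by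
      have : (0 : ℝ) ≤ β := Nat.cast_nonneg _
      linarith
    exact_mod_cast this
  set k := j - q with hk
  have hkr : (k : ℝ) = j - q := by
    rw [hk, Nat.cast_sub hqj]
  have hkj : k ≤ j := Nat.sub_le _ _
  have hkb : (β : ℝ) + ε * N / 2 ≤ k := by
    rw [hkr]
    linarith
  -- the tilt with median `k`
  obtain ⟨t, hst, ht1, htm⟩ := med48 N v k s (s0 + 1) (by linarith) (by
      rw [← hsm]
      apply VS_mono48 v hv
      intro i hi
      rw [Finset.mem_range] at hi ⊢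
      omega) (htb k (s0 + 1) hkb (by linarith)).le
  have hts0 : t ≤ s0 := by
    by_contra hcon
    push Not at hcon
    have h1 := htb k t hkb hcon
    linarith
  have htpos : 0 < t := lt_of_lt_of_le hspos hst
  obtain ⟨-, -, hfin⟩ := hnum N hN1 D s t hD has hst hts0
  have hsplit : VV N v t ≤ VS v t (Finset.range (k + 1)) +
      VS v t ((Finset.range (N + 1)).filter fun i => k ≤ i) := by
    have h1 : VV N v t = VS v t (Finset.range (N + 1)) := rfl
    rw [h1]
    have h2 : Finset.range (N + 1) ⊆ Finset.range (k + 1) ∪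
        (Finset.range (N + 1)).filter fun i => k ≤ i := by
      intro i hi
      rw [Finset.mem_union, Finset.mem_filter, Finset.mem_range]
      rcases le_or_gt k i with h | h
      · exact Or.inr ⟨hi, h⟩
      · exact Or.inl (by omega)
    refine (VS_mono48 v hv t h2).trans ?_
    have h3 := Finset.sum_union_inter (s₁ := Finset.range (k + 1))
      (s₂ := (Finset.range (N + 1)).filter fun i => k ≤ i) (f := fun i => v i * Real.exp (-(t * i)))
    have h4 : 0 ≤ VS v t (Finset.range (k + 1) ∩ (Finset.range (N + 1)).filter fun i => k ≤ i) :=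
      Finset.sum_nonneg fun i _ => mul_nonneg (hv i) (Real.exp_nonneg _)
    unfold VS at *
    linarith
  have hm := hmass N hN2 v k t hv hVV (hkj.trans hj) hlc (hsn.trans hst) hts0 htm.ge (by linarith)
  set S := (Finset.range (N + 1)).filter fun i : ℕ => |(i : ℝ) - k| ≤ 2 * Lm N t with hS
  have hVVt := VV_nonneg48 N v hv t
  have hn1 : (0 : ℝ) < (N : ℝ) + 1 := by linarith
  -- a heavy level near `k`
  obtain ⟨i₀, hi₀, hheavy⟩ : ∃ i ∈ S, VV N v t / ((N : ℝ) + 1) ^ 4 ≤ v i * Real.exp (-(t * i)) := by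
    by_contra hcon
    push Not at hcon
    have hcard : (S.card : ℝ) ≤ (N : ℝ) + 1 := by
      have : S.card ≤ N + 1 := by
        have := Finset.card_filter_le (Finset.range (N + 1))
          fun i : ℕ => |(i : ℝ) - k| ≤ 2 * Lm N t
        rwa [Finset.card_range] at this
      exact_mod_cast this
    rcases S.eq_empty_or_nonempty with he | hne
    · -- all is zero: `VV t` is positive
      have h1 : VS v t S = 0 := by
        rw [he]
        rfl
      rw [h1] at hm
      have h2 : 0 < VV N v t := by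
        have h3 : ∃ i ∈ Finset.range (N + 1), 0 < v i * Real.exp (-(0 * (i : ℝ))) := by
          by_contra h4
          push Not at h4
          have := Finset.sum_nonpos h4
          unfold VV at hVV
          linarith
        obtain ⟨i, hi, hi2⟩ := h3
        have h5 : 0 < v i := by
          by_contra h6
          push Not at h6
          have := mul_nonpos_of_nonpos_of_nonneg h6 (Real.exp_nonneg (-(0 * (i : ℝ))))
          linarith
        exact Finset.sum_pos' (fun i _ => mul_nonneg (hv i) (Real.exp_nonneg _))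
          ⟨i, hi, mul_pos h5 (Real.exp_pos _)⟩
      have : 0 < VV N v t / ((N : ℝ) + 1) ^ 3 := by positivity
      linarith
    · have h1 : VS v t S < ∑ i ∈ S, VV N v t / ((N : ℝ) + 1) ^ 4 :=
        Finset.sum_lt_sum_of_nonempty hne hcon
      rw [Finset.sum_const, nsmul_eq_mul] at h1
      have h2 : (S.card : ℝ) * (VV N v t / ((N : ℝ) + 1) ^ 4) ≤
          ((N : ℝ) + 1) * (VV N v t / ((N : ℝ) + 1) ^ 4) :=
        mul_le_mul_of_nonneg_right hcard (by positivity)
      have h3 : ((N : ℝ) + 1) * (VV N v t / ((N : ℝ) + 1) ^ 4) = VV N v t / ((N : ℝ) + 1) ^ 3 := by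
        field_simp
      linarith
  have hi₀' := Finset.mem_filter.1 hi₀
  have hLt : Lm N t ≤ Λ := Lm_anti48 N hspos hst
  have habs := abs_le.1 (hi₀'.2.trans (by linarith : 2 * Lm N t ≤ 2 * Λ))
  have hi₀j : i₀ ≤ j := by
    have : (i₀ : ℝ) ≤ j := by linarith [habs.2]
    exact_mod_cast this
  have hi₀b : (β : ℝ) + ε * N / 4 ≤ i₀ := by linarith [habs.1]
  -- the climb
  have key : ∀ d : ℕ, i₀ + d ≤ j → v i₀ ≤ v (i₀ + d) ∧ v (i₀ + d) ≤ v (i₀ + d + 1) := by
    have step : ∀ i : ℕ, i₀ ≤ i → i ≤ j → v i₀ ≤ v i → v i ≤ v (i + 1) := by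
      intro i h1 h2 h3
      have h1r : (i₀ : ℝ) ≤ i := by exact_mod_cast h1
      have h2r : (i : ℝ) ≤ j := by exact_mod_cast h2
      apply hstep i t (by linarith) h2 htpos hts0
      have h4 : (i : ℝ) - i₀ ≤ 4 * Λ + 1 := by linarith [habs.1]
      have h5 : Real.exp (-(t * (4 * Λ + 1))) ≤ Real.exp (-(t * ((i : ℝ) - i₀))) := by
        apply Real.exp_le_exp.2
        have := mul_le_mul_of_nonneg_left h4 htpos.le
        linarith
      calc ((N : ℝ) + 2) * Real.exp (t / 2) * Real.exp (-(c2 * t ^ 2 * N)) * VV N v t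
          ≤ Real.exp (-(t * (4 * Λ + 1))) / ((N : ℝ) + 1) ^ 4 * VV N v t :=
            mul_le_mul_of_nonneg_right hfin hVVt
        _ = Real.exp (-(t * (4 * Λ + 1))) * (VV N v t / ((N : ℝ) + 1) ^ 4) := by ring
        _ ≤ Real.exp (-(t * ((i : ℝ) - i₀))) * (v i₀ * Real.exp (-(t * i₀))) :=
            mul_le_mul h5 hheavy (by positivity) (Real.exp_nonneg _)
        _ = v i₀ * Real.exp (-(t * i)) := by
            rw [mul_left_comm, ← Real.exp_add]
            congr 2
            ring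
        _ ≤ v i * Real.exp (-(t * i)) := mul_le_mul_of_nonneg_right h3 (Real.exp_nonneg _)
    intro d
    induction d with
    | zero =>
      intro h
      exact ⟨le_rfl, step i₀ le_rfl h le_rfl⟩
    | succ d ih =>
      intro h
      have h1 := ih (by omega)
      have h2 : v i₀ ≤ v (i₀ + (d + 1)) := h1.1.trans h1.2
      exact ⟨h2, step _ (by omega) h h2⟩
  have hfinal := (key (j - i₀) (by omega)).2
  have he : i₀ + (j - i₀) = j := by omega
  rwa [he] at hfinal

end Pool.TA43
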