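import Pool.Agent.TA43.Mass

set_option autoImplicit false

/-!
# TA43/ClmS63: numbers of the climb
-/

namespace Pool.TA43

open Pool.HB45 Pool.HM63 Pool.PH43 Pool.SC25 Pool.SC45

theorem Dn_sqS63 (N : ℕ) (hL : 0 ≤ Real.log ((N : ℝ) + 1)) :
    Dn N ^ 2 = ((N : ℝ) + 1) * Real.sqrt (((N : ℝ) + 1) * Real.log ((N : ℝ) + 1)) := by
  have hn : (0 : ℝ) < (N : ℝ) + 1 := by positivity
  have h1 : (((N : ℝ) + 1) ^ (3 / 4 : ℝ)) ^ 2 = ((N : ℝ) + 1) * Real.sqrt ((N : ℝ) + 1) := by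
    rw [← Real.rpow_natCast, ← Real.rpow_mul hn.le]
    have e : (3 / 4 : ℝ) * ((2 : ℕ) : ℝ) = 1 + 1 / 2 := by norm_num
    rw [e, Real.rpow_add hn, Real.rpow_one, ← Real.sqrt_eq_rpow]
  have h2 : (Real.log ((N : ℝ) + 1) ^ (1 / 4 : ℝ)) ^ 2 = Real.sqrt (Real.log ((N : ℝ) + 1)) := by
    rw [← Real.rpow_natCast, ← Real.rpow_mul hL]
    have e : (1 / 4 : ℝ) * ((2 : ℕ) : ℝ) = 1 / 2 := by norm_num
    rw [e, ← Real.sqrt_eq_rpow]
  unfold Dn
  rw [mul_pow, h1, h2, Real.sqrt_mul hn.le, mul_assoc]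

/-- the real part of `num` -/
theorem num_realS63 {ε s0 c2 κ N n L A s t D k Dk : ℝ} (hε : 0 < ε) (hc2 : 0 < c2)
    (hκ0 : 0 < κ) (hκ1 : 224 * κ ≤ ε) (hκ2 : κ ≤ 1 / 3) (hk : k = 1 + 58 / c2)
    (hn : n = N + 1) (hN : 1 ≤ N) (hA : 0 ≤ A) (hAA : A ^ 2 = n * L) (hL : L ≤ κ ^ 4 * n)
    (hL1 : 1 + 3 / 2 * s0 ≤ L) (hnε : 16 ≤ ε * n) (hs0 : 0 < s0) (hDk : Dk ^ 2 = n * A)
    (hDk0 : 0 ≤ Dk) (hD : 120 * k * Dk ≤ D) (hs : D ≤ s * (120 * N)) (hst : s ≤ t) (ht : t ≤ s0) :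
    1 ≤ s * n ∧ 0 < s ∧ 4 * (7 * A / s) + 2 ≤ ε * N / 2 ∧
      1 + L + t / 2 - c2 * t ^ 2 * N ≤ -(t * (4 * (7 * A / s) + 1)) - 4 * L := by
  have hn0 : 0 < n := by linarith
  have hk1 : 1 ≤ k := by
    rw [hk]
    have : 0 < 58 / c2 := by positivity
    linarith
  have hk2 : 58 ≤ c2 * k ^ 2 := by
    have h1 : c2 * (58 / c2) = 58 := by field_simp
    have h2 : c2 * k = c2 + 58 := by
      rw [hk, mul_add, h1, mul_one]
    have h3 : c2 * k ^ 2 = (c2 * k) * k := by ring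
    rw [h3, h2]
    nlinarith
  have hL0 : 1 ≤ L := by linarith
  -- A ≤ κ² n and A ≥ 9 L
  have hAn : A ≤ κ ^ 2 * n := by
    have h1 : A ^ 2 ≤ (κ ^ 2 * n) ^ 2 := by
      rw [hAA]
      have : (κ ^ 2 * n) ^ 2 = n * (κ ^ 4 * n) := by ring
      rw [this]
      exact mul_le_mul_of_nonneg_left hL hn0.le
    exact le_of_sq_le_sq h1 (by positivity)
  have hAL : 9 * L ≤ A := by
    have h1 : (9 * L) ^ 2 ≤ A ^ 2 := by
      rw [hAA]
      have h2 : κ ^ 4 ≤ (1 / 3) ^ 4 := pow_le_pow_left₀ hκ0.le hκ2 4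
      have h3 : L ≤ (1 / 3) ^ 4 * n := hL.trans (mul_le_mul_of_nonneg_right h2 hn0.le)
      have h4 : 81 * L ≤ n := by
        norm_num at h3
        linarith
      nlinarith
    exact le_of_sq_le_sq h1 hA
  have hA9 : 9 ≤ A := by linarith
  -- s n ≥ k Dk
  have hD0 : 0 ≤ D := le_trans (by positivity) hD
  have hs0' : 0 ≤ s := by
    by_contra h
    have : s * (120 * N) < 0 := mul_neg_of_neg_of_pos (not_le.1 h) (by linarith)
    linarith
  have hsn : k * Dk ≤ s * n := by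
    have h1 : s * (120 * N) ≤ s * (120 * n) := mul_le_mul_of_nonneg_left (by linarith) hs0'
    nlinarith
  have hsn2 : k ^ 2 * (n * A) ≤ (s * n) ^ 2 := by
    have h1 := pow_le_pow_left₀ (by positivity) hsn 2
    rw [mul_pow, hDk] at h1
    exact h1
  have hs2 : k ^ 2 * A ≤ s ^ 2 * n := by
    have h1 : n * (k ^ 2 * A) ≤ n * (s ^ 2 * n) := by
      calc n * (k ^ 2 * A) = k ^ 2 * (n * A) := by ring
        _ ≤ (s * n) ^ 2 := hsn2
        _ = n * (s ^ 2 * n) := by ring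
    exact le_of_mul_le_mul_left h1 hn0
  have hk21 : 1 ≤ k ^ 2 := one_le_pow₀ hk1
  have hs2' : A ≤ s ^ 2 * n := by nlinarith
  have hspos : 0 < s := by
    rcases hs0'.eq_or_lt with h | h
    · rw [← h] at hs2'
      linarith
    · exact h
  have htpos : 0 < t := hspos.trans_le hst
  refine ⟨?_, hspos, ?_, ?_⟩
  · have h1 : 1 ^ 2 ≤ (s * n) ^ 2 := by
      have : 1 ≤ n * A := by nlinarith
      nlinarith
    exact le_of_sq_le_sq h1 (by positivity)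
  · have h1 : A ≤ κ * n * s := by
      have h2 : A ^ 2 ≤ (κ * n * s) ^ 2 := by
        calc A ^ 2 = A * A := by ring
          _ ≤ (κ ^ 2 * n) * (s ^ 2 * n) := mul_le_mul hAn hs2' hA (by positivity)
          _ = (κ * n * s) ^ 2 := by ring
      exact le_of_sq_le_sq h2 (by positivity)
    have h3 : 7 * A / s ≤ 7 * (κ * n) := by
      rw [div_le_iff₀ hspos]
      linarith
    have h4 : 28 * (κ * n) ≤ ε * n / 8 := by
      have := mul_le_mul_of_nonneg_right hκ1 hn0.le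
      linarith
    have h5 : n ≤ 2 * N := by linarith
    have h6 : ε * n ≤ ε * (2 * N) := mul_le_mul_of_nonneg_left h5 hε.le
    linarith
  · have h1 : 29 * (A * t / s) ≤ c2 * t ^ 2 * N := by
      have h2 : c2 * k ^ 2 / 2 * (A * t / s) ≤ c2 * t ^ 2 * N := by
        have h3 : k ^ 2 * (A * t / s) ≤ t * (s * n) := by
          have e : k ^ 2 * (A * t / s) = (k ^ 2 * A) * (t / s) := by ring
          rw [e]
          calc k ^ 2 * A * (t / s) ≤ s ^ 2 * n * (t / s) :=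
                mul_le_mul_of_nonneg_right hs2 (by positivity)
            _ = t * (s * n) := by field_simp
        have h4 : t * (s * n) ≤ t * (t * (2 * N)) :=
          mul_le_mul_of_nonneg_left (mul_le_mul hst (by linarith) hn0.le htpos.le) htpos.le
        have h5 : c2 / 2 * (k ^ 2 * (A * t / s)) ≤ c2 / 2 * (t * (t * (2 * N))) :=
          mul_le_mul_of_nonneg_left (h3.trans h4) (by positivity)
        calc c2 * k ^ 2 / 2 * (A * t / s) = c2 / 2 * (k ^ 2 * (A * t / s)) := by ring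
          _ ≤ _ := h5
          _ = c2 * t ^ 2 * N := by ring
      have h6 : 29 * (A * t / s) ≤ c2 * k ^ 2 / 2 * (A * t / s) :=
        mul_le_mul_of_nonneg_right (by linarith) (by positivity)
      exact h6.trans h2
    have h7 : A ≤ A * t / s := by
      rw [le_div_iff₀ hspos]
      exact mul_le_mul_of_nonneg_left hst hA
    have h8 : t * (4 * (7 * A / s) + 1) = 28 * (A * t / s) + t := by
      ring
    rw [h8]
    linarith

theorem numS63 (ε s0 c2 : ℝ) (hε : 0 < ε) (hs0 : 0 < s0) (hc2 : 0 < c2) : ∃ C : ℝ, 0 < C ∧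
    ∃ N0 : ℕ, ∀ N ≥ N0, ∀ D s t : ℝ, C * Dn N ≤ D → D / (120 * N) ≤ s → s ≤ t → t ≤ s0 →
    1 / ((N : ℝ) + 1) ≤ s ∧ 4 * Lm N s + 2 ≤ ε * N / 2 ∧
    ((N : ℝ) + 2) * Real.exp (t / 2) * Real.exp (-(c2 * t ^ 2 * N)) ≤
      Real.exp (-(t * (4 * Lm N s + 1))) / ((N : ℝ) + 1) ^ 4 := by
  set κ : ℝ := min (ε / 224) (1 / 3) with hκ
  have hκ0 : 0 < κ := lt_min (by positivity) (by norm_num)
  have hκ1 : 224 * κ ≤ ε := by
    have := min_le_left (ε / 224) (1 / 3 : ℝ)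
    linarith
  have hκ2 : κ ≤ 1 / 3 := min_le_right _ _
  have hT : Filter.Tendsto (fun N : ℕ => (N : ℝ) + 1) Filter.atTop Filter.atTop :=
    Filter.tendsto_atTop_add_const_right _ _ tendsto_natCast_atTop_atTop
  have ev1 : ∀ᶠ N : ℕ in Filter.atTop, Real.log ((N : ℝ) + 1) ≤ κ ^ 4 * ((N : ℝ) + 1) := by
    have h := (Real.isLittleO_log_id_atTop.bound (by positivity : (0 : ℝ) < κ ^ 4))
    refine (hT.eventually h).mono fun N hN => ?_
    have h0 : (0 : ℝ) ≤ (N : ℝ) + 1 := by positivity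
    rw [id_eq, Real.norm_eq_abs, Real.norm_eq_abs, abs_of_nonneg h0] at hN
    exact (le_abs_self _).trans hN
  have ev2 : ∀ᶠ N : ℕ in Filter.atTop, 1 + 3 / 2 * s0 ≤ Real.log ((N : ℝ) + 1) :=
    (Real.tendsto_log_atTop.comp hT).eventually_ge_atTop _
  have ev3 : ∀ᶠ N : ℕ in Filter.atTop, 16 / ε ≤ (N : ℝ) + 1 := hT.eventually_ge_atTop _
  have ev4 : ∀ᶠ N : ℕ in Filter.atTop, 1 ≤ N := Filter.eventually_ge_atTop 1
  obtain ⟨N0, hN0⟩ := Filter.eventually_atTop.1 (ev1.and (ev2.and (ev3.and ev4)))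
  refine ⟨120 * (1 + 58 / c2), by positivity, N0, ?_⟩
  intro N hN D s t hD hs hst ht
  obtain ⟨h1, h2, h3, h4⟩ := hN0 N hN
  have hN' : (1 : ℝ) ≤ N := by exact_mod_cast h4
  have hn0 : (0 : ℝ) < (N : ℝ) + 1 := by positivity
  have hL0 : 0 ≤ Real.log ((N : ℝ) + 1) := by linarith
  have hAA : Real.sqrt (((N : ℝ) + 1) * Real.log ((N : ℝ) + 1)) ^ 2 =
      ((N : ℝ) + 1) * Real.log ((N : ℝ) + 1) := Real.sq_sqrt (by positivity)
  have hDk0 : 0 ≤ Dn N := by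
    unfold Dn
    positivity
  have hs' : D ≤ s * (120 * N) := by
    rwa [div_le_iff₀ (by linarith)] at hs
  have h3' : 16 ≤ ε * ((N : ℝ) + 1) := by
    rw [div_le_iff₀ hε] at h3
    linarith
  obtain ⟨r1, r2, r3, r4⟩ := num_realS63 hε hc2 hκ0 hκ1 hκ2 rfl rfl hN' (Real.sqrt_nonneg _) hAA
    h1 h2 h3' hs0 (Dn_sqS63 N hL0) hDk0 hD hs' hst ht
  refine ⟨?_, r3, ?_⟩
  · rw [div_le_iff₀ hn0]
    exact r1
  · change 1 + Real.log ((N : ℝ) + 1) + t / 2 - c2 * t ^ 2 * N ≤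
      -(t * (4 * Lm N s + 1)) - 4 * Real.log ((N : ℝ) + 1) at r4
    have e1 : ((N : ℝ) + 1) ^ 4 = Real.exp (4 * Real.log ((N : ℝ) + 1)) := by
      rw [mul_comm, Real.exp_mul, Real.exp_log hn0]
      norm_cast
    have e2 : (N : ℝ) + 2 ≤ Real.exp (1 + Real.log ((N : ℝ) + 1)) := by
      rw [Real.exp_add, Real.exp_log hn0]
      have : (2 : ℝ) ≤ Real.exp 1 := by
        have := Real.add_one_le_exp (1 : ℝ)
        linarith
      nlinarith
    rw [e1, ← Real.exp_sub]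
    calc ((N : ℝ) + 2) * Real.exp (t / 2) * Real.exp (-(c2 * t ^ 2 * N))
        ≤ Real.exp (1 + Real.log ((N : ℝ) + 1)) * Real.exp (t / 2) *
          Real.exp (-(c2 * t ^ 2 * N)) := by gcongr
      _ = Real.exp (1 + Real.log ((N : ℝ) + 1) + t / 2 - c2 * t ^ 2 * N) := by
        rw [← Real.exp_add, ← Real.exp_add]
        congr 1
      _ ≤ _ := Real.exp_le_exp.2 r4

end Pool.TA43
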