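import Pool.Agent.TA43.Mass
import Pool.Agent.TA43.ClmS48
import Pool.Agent.TA43.ClmS63

set_option autoImplicit false

/-!
# TA43/Clm: the climb (STUB)
-/

namespace Pool.TA43

open Pool.HB45 Pool.HM63 Pool.PH43 Pool.SC25 Pool.SC45

/-- NUMBERS. `n = N + 1`, `t = s''`, `Lm N s = 7 √(n log n)/s`. PROOF. `s ≥ C Dn/(120 N)`, so `s^2 N ≥ (C/120)^2 √(n log n)`
(`Dn^2 = n^(3/2) (log n)^(1/2)`), `c2 t^2 N ≥ c2 (t/s) s^2 N ≥ 28 √(n log n) (t/s) + 7 log n + 2 s0 + 1` for `C` large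
(`t/s ≥ 1`); `4 Lm N s ≤ 28 √(n log n) 120 N/(C Dn) = o(N)`. -/
theorem num (ε s0 c2 : ℝ) (hε : 0 < ε) (hs0 : 0 < s0) (hc2 : 0 < c2) : ∃ C : ℝ, 0 < C ∧
    ∃ N0 : ℕ, ∀ N ≥ N0, ∀ D s t : ℝ, C * Dn N ≤ D → D / (120 * N) ≤ s → s ≤ t → t ≤ s0 →
    1 / ((N : ℝ) + 1) ≤ s ∧ 4 * Lm N s + 2 ≤ ε * N / 2 ∧
    ((N : ℝ) + 2) * Real.exp (t / 2) * Real.exp (-(c2 * t ^ 2 * N)) ≤
      Real.exp (-(t * (4 * Lm N s + 1))) / ((N : ℝ) + 1) ^ 4 := by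
  exact numS63 ε s0 c2 hε hs0 hc2

/-- INTERMEDIATE VALUES. PROOF. `VS v s (range (j + 1)) - VV/2` is continuous in `s`. -/
theorem med (N : ℕ) (v : ℕ → ℝ) (j : ℕ) (a b : ℝ) (hab : a ≤ b)
    (ha : VS v a (Finset.range (j + 1)) ≤ VV N v a / 2)
    (hb : VV N v b / 2 ≤ VS v b (Finset.range (j + 1))) :
    ∃ s, a ≤ s ∧ s ≤ b ∧ VS v s (Finset.range (j + 1)) = VV N v s / 2 :=
  med48 N v j a b hab ha hb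

/-- THE CLIMB. PROOF. `hlow` at `0` and `htb` at `s0 + 1`, `med`: `s_j` with `P(≤ j) = 1/2`, `D/(120N) < s_j ≤ s0`.
`Λ = Lm N s_j`, `j'' = j - ⌈2Λ⌉ ≥ β + εN/2` (`num`), `P_(s_j)(≤ j'') ≤ 1/2`, so `med` on `[s_j, s0 + 1]`: `t ≥ s_j` with
`P_t(≤ j'') = 1/2`, `t ≤ s0` (`htb`). `mass` at `t`, `j''`: `P_t(|i - j''| ≤ 2 Lm N t) ≥ n^(-3)`, `Lm N t ≤ Λ`, so some
`i*` with `j'' - 2Λ ≤ i* ≤ j'' + 2Λ ≤ j` has `v_(i*) e^(-t i*) ≥ n^(-4) VV`; `i* ≥ β + εN/4`. Induction for `i* ≤ i ≤ j`: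
`v_i e^(-ti) ≥ n^(-4) e^(-t (i - i*)) VV ≥ (N + 2) e^(t/2) e^(-c2 t² N) VV` (`num`), so `hstep` gives
`v_i ≤ v_(i+1)`. -/
theorem climb (ε s0 c2 : ℝ) (hε : 0 < ε) (hs0 : 0 < s0) (hc2 : 0 < c2) : ∃ C : ℝ, 0 < C ∧
    ∃ N0 : ℕ, ∀ N ≥ N0, ∀ (v : ℕ → ℝ) (β j : ℕ) (D : ℝ),
    (∀ i, 0 ≤ v i) → 0 < VV N v 0 → j ≤ N →
    (∀ m, OV N v m * OV N v (m + 2) ≤ OV N v (m + 1) ^ 2) →
    (∀ (i : ℕ) (s : ℝ), (β : ℝ) + ε * N / 2 ≤ i → s0 < s →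
      VV N v s / 2 < VS v s (Finset.range (i + 1))) →
    (∀ s : ℝ, 0 ≤ s → s ≤ D / (120 * N) → VS v s (Finset.range (j + 1)) < VV N v s / 2) →
    (∀ (i : ℕ) (s : ℝ), (β : ℝ) + ε * N / 4 ≤ i → i ≤ j → 0 < s → s ≤ s0 →
      ((N : ℝ) + 2) * Real.exp (s / 2) * Real.exp (-(c2 * s ^ 2 * N)) * VV N v s ≤
        v i * Real.exp (-(s * i)) → v i ≤ v (i + 1)) →
    (β : ℝ) + ε * N ≤ j → C * Dn N ≤ D → v j ≤ v (j + 1) :=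
  climb48 ε s0 c2 hε hs0 (num ε s0 c2 hε hs0 hc2)

end Pool.TA43
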