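import Pool.Agent.TA43.Defs

set_option autoImplicit false

/-!
# TA43/ClmNumS75: the numbers of the climb
-/

namespace Pool.TA43.S75

open Pool.TA43

theorem Dn_sq {N : ℕ} (hL : 0 ≤ Real.log ((N : ℝ) + 1)) :
    Dn N ^ 2 = ((N : ℝ) + 1) * Real.sqrt (((N : ℝ) + 1) * Real.log ((N : ℝ) + 1)) := by
  have hn : (0 : ℝ) ≤ (N : ℝ) + 1 := by positivity
  unfold Dn
  rw [mul_pow, ← Real.rpow_natCast (((N : ℝ) + 1) ^ (3 / 4 : ℝ)), ← Real.rpow_mul hn,
    ← Real.rpow_natCast (Real.log ((N : ℝ) + 1) ^ (1 / 4 : ℝ)), ← Real.rpow_mul hL,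
    Real.sqrt_mul hn, Real.sqrt_eq_rpow, Real.sqrt_eq_rpow]
  have h1 : (3 / 4 : ℝ) * ((2 : ℕ) : ℝ) = 1 + 1 / 2 := by norm_num
  have h2 : (1 / 4 : ℝ) * ((2 : ℕ) : ℝ) = 1 / 2 := by norm_num
  rw [h1, h2, Real.rpow_add (by positivity), Real.rpow_one]
  ring

theorem num (ε s0 c2 : ℝ) (hε : 0 < ε) (hs0 : 0 < s0) (hc2 : 0 < c2) : ∃ C : ℝ, 0 < C ∧
    ∃ N0 : ℕ, ∀ N ≥ N0, ∀ D s t : ℝ, C * Dn N ≤ D → D / (120 * N) ≤ s → s ≤ t → t ≤ s0 →
    1 / ((N : ℝ) + 1) ≤ s ∧ 4 * Lm N s + 2 ≤ ε * N / 2 ∧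
    ((N : ℝ) + 2) * Real.exp (t / 2) * Real.exp (-(c2 * t ^ 2 * N)) ≤
      Real.exp (-(t * (4 * Lm N s + 1))) / ((N : ℝ) + 1) ^ 4 := by
  obtain ⟨R, hR⟩ : ∃ R : ℝ, R = Real.sqrt ((34 + 2 * s0) / c2) := ⟨_, rfl⟩
  have hR0 : 0 ≤ R := by rw [hR]; positivity
  have hR2 : c2 * R ^ 2 = 34 + 2 * s0 := by
    rw [hR, Real.sq_sqrt (by positivity)]
    field_simp
  refine ⟨120 + 13440 / ε + 120 * R, by positivity, max 3 ⌈8 / ε⌉₊, ?_⟩
  intro N hN D s t hD hs hst ht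
  have hN3 : 3 ≤ N := le_trans (le_max_left _ _) hN
  have hN8 : 8 / ε ≤ N := by
    have : ⌈8 / ε⌉₊ ≤ N := le_trans (le_max_right _ _) hN
    exact Nat.ceil_le.1 this
  have hNr : (3 : ℝ) ≤ N := by exact_mod_cast hN3
  obtain ⟨n, hn⟩ : ∃ n : ℝ, n = (N : ℝ) + 1 := ⟨_, rfl⟩
  obtain ⟨L, hL⟩ : ∃ L : ℝ, L = Real.log ((N : ℝ) + 1) := ⟨_, rfl⟩
  have hn4 : 4 ≤ n := by rw [hn]; linarith
  have hL1 : 1 ≤ L := by
    rw [hL, Real.le_log_iff_exp_le (by positivity)]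
    have := Real.exp_one_lt_d9
    linarith
  have hLn : L ≤ n := by
    rw [hL, hn]
    have := Real.log_le_sub_one_of_pos (show (0 : ℝ) < (N : ℝ) + 1 by positivity)
    linarith
  obtain ⟨Q, hQ⟩ : ∃ Q : ℝ, Q = Real.sqrt (((N : ℝ) + 1) * Real.log ((N : ℝ) + 1)) := ⟨_, rfl⟩
  have hQ0 : 0 ≤ Q := by rw [hQ]; exact Real.sqrt_nonneg _
  have hQ2 : Q ^ 2 = n * L := by
    rw [hQ, Real.sq_sqrt (by rw [← hL]; positivity), hn, hL]
  have hQL : L ≤ Q := by
    apply le_of_sq_le_sq _ hQ0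
    rw [hQ2]
    nlinarith
  have hQn : Q ≤ n := by
    apply le_of_sq_le_sq _ (by linarith)
    rw [hQ2]
    nlinarith
  have hQ1 : 1 ≤ Q := hL1.trans hQL
  have hD2 : Dn N ^ 2 = n * Q := by
    rw [Dn_sq (by rw [← hL]; linarith), hn, hQ]
  have hDn0 : 0 ≤ Dn N := by
    unfold Dn
    rw [← hL]
    positivity
  have hDnQ : Q ≤ Dn N := by
    apply le_of_sq_le_sq _ hDn0
    rw [hD2]
    nlinarith
  have hDn1 : 1 ≤ Dn N := hQ1.trans hDnQ
  have hNpos : (0 : ℝ) < 120 * N := by positivity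
  have hs1 : (120 + 13440 / ε + 120 * R) * Dn N ≤ 120 * N * s := by
    rw [div_le_iff₀ hNpos] at hs
    linarith
  have hεi : 0 < 13440 / ε := by positivity
  have e1 : 120 * Dn N ≤ 120 * N * s := by
    have : 0 ≤ (13440 / ε + 120 * R) * Dn N := by positivity
    linarith
  have e2 : 13440 / ε * Dn N ≤ 120 * N * s := by
    have : 0 ≤ (120 + 120 * R) * Dn N := by positivity
    linarith
  have e3 : 120 * R * Dn N ≤ 120 * N * s := by
    have : 0 ≤ (120 + 13440 / ε) * Dn N := by positivity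
    linarith
  have hNs : 1 ≤ N * s := by linarith
  have hspos : 0 < s := by
    by_contra hcon
    rw [not_lt] at hcon
    have : (N : ℝ) * s ≤ 0 := mul_nonpos_of_nonneg_of_nonpos (by positivity) hcon
    linarith
  have htpos : 0 < t := by linarith
  have hLm : Lm N s = 7 * Q / s := by unfold Lm; rw [hQ]
  refine ⟨?_, ?_, ?_⟩
  · rw [div_le_iff₀ (by positivity)]
    nlinarith
  · rw [hLm]
    have h1 : 112 * Dn N ≤ ε * (N * s) := by
      have := mul_le_mul_of_nonneg_left e2 hε.le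
      have h3 : ε * (13440 / ε * Dn N) = 13440 * Dn N := by field_simp
      nlinarith
    have h2 : 4 * (7 * Q / s) ≤ ε * N / 4 := by
      rw [← mul_div_assoc, div_le_iff₀ hspos]
      nlinarith
    have h3 : 2 ≤ ε * N / 4 := by
      rw [div_le_iff₀ hε] at hN8
      nlinarith
    linarith
  · rw [hLm, ← hn]
    have h1 : (N : ℝ) + 2 ≤ Real.exp (2 * L) := by
      have : Real.exp L = n := by rw [hL, Real.exp_log (by positivity), hn]
      rw [two_mul, Real.exp_add, this]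
      nlinarith
    have h2 : n ^ 4 = Real.exp (4 * L) := by
      have : Real.exp L = n := by rw [hL, Real.exp_log (by positivity), hn]
      rw [show (4 : ℝ) * L = ((4 : ℕ) : ℝ) * L by norm_num, Real.exp_nat_mul, this]
    rw [h2, ← Real.exp_sub]
    have h4 : ((N : ℝ) + 2) * Real.exp (t / 2) * Real.exp (-(c2 * t ^ 2 * N)) ≤
        Real.exp (2 * L) * Real.exp (t / 2) * Real.exp (-(c2 * t ^ 2 * N)) := by
      gcongr
    refine h4.trans ?_
    rw [← Real.exp_add, ← Real.exp_add, Real.exp_le_exp]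
    -- 2 L + t/2 - c2 t^2 N ≤ - t (4 * (7 Q / s) + 1) - 4 L
    obtain ⟨u, hu⟩ : ∃ u : ℝ, u = t / s := ⟨_, rfl⟩
    have hu1 : 1 ≤ u := by rw [hu, le_div_iff₀ hspos]; linarith
    have hut : t = u * s := by rw [hu]; field_simp
    have h5 : R ^ 2 * Q ≤ s ^ 2 * N := by
      have h6 : (R * Dn N) ^ 2 ≤ (N * s) ^ 2 :=
        pow_le_pow_left₀ (by positivity) (by linarith) 2
      rw [mul_pow, hD2] at h6
      have h7 : R ^ 2 * (N * Q) ≤ R ^ 2 * (n * Q) := by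
        have : (N : ℝ) ≤ n := by rw [hn]; linarith
        gcongr
      have h8 : N * (R ^ 2 * Q) ≤ N * (s ^ 2 * N) := by nlinarith
      exact le_of_mul_le_mul_left h8 (by positivity)
    have h9 : (34 + 2 * s0) * Q ≤ c2 * (s ^ 2 * N) := by
      rw [← hR2]
      have := mul_le_mul_of_nonneg_left h5 hc2.le
      linarith
    have h10 : (34 + 2 * s0) * Q * u ≤ c2 * (t ^ 2 * N) := by
      have h11 : c2 * (t ^ 2 * N) = c2 * (s ^ 2 * N) * u * u := by rw [hut]; ring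
      rw [h11]
      have h12 : (34 + 2 * s0) * Q * u ≤ c2 * (s ^ 2 * N) * u :=
        mul_le_mul_of_nonneg_right h9 (by linarith)
      have h13 : 0 ≤ c2 * (s ^ 2 * N) * u := by positivity
      nlinarith
    have h14 : t * (4 * (7 * Q / s) + 1) = 28 * Q * u + t := by
      rw [hu]
      field_simp
      ring
    rw [h14]
    have h15 : 28 * Q * u + (6 + 2 * s0) * Q ≤ (34 + 2 * s0) * Q * u := by
      have : (6 + 2 * s0) * Q * 1 ≤ (6 + 2 * s0) * Q * u := by gcongr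
      nlinarith
    have h16 : 2 * s0 * 1 ≤ 2 * s0 * Q := by gcongr
    nlinarith

end Pool.TA43.S75
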