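import Pool.Agent.SC25.Om
import Pool.Agent.SC45.Defs
import Pool.Agent.HB45.Win

set_option autoImplicit false

/-!
# TA43/Defs: posets of any height (MP_dcdbc5_co), definitions

THEOREM. For every `ε > 0` there is `C` such that for every poset with `n` elements, longest chain `ℓ`,
natural labelling, `μ` = average number of descents, `D = C n^(3/4) (log n)^(1/4)`: `w_k ≤ w_(k+1)` for
`ε n ≤ k ≤ μ - D`, and `w_(k+1) ≤ w_k` for `k ≥ max (μ + D, ε n)` with `k ≤ n - ℓ - ε n` or `2k ≥ n`.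
Paper proof: note 3600 on MP_dcdbc5_co.

Both sides use one real sequence `v`: left `v j = w j`, `β = 0`; right `v k = w (N - k)` (`k` = number of
ascents), `β = ℓ - 1`. `n = N + 1` letters, tilt `r = e^(-s)`, `s > 0`.
-/

namespace Pool.TA43

open Pool.HB45 Pool.HM63 Pool.PH43 Pool.SC25 Pool.SC45

/-- `∑ v_i e^(-si)` -/
noncomputable def VV (N : ℕ) (v : ℕ → ℝ) (s : ℝ) : ℝ :=
  ∑ i ∈ Finset.range (N + 1), v i * Real.exp (-(s * i))

/-- the part of `VV` of the levels in `S` -/
noncomputable def VS (v : ℕ → ℝ) (s : ℝ) (S : Finset ℕ) : ℝ :=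
  ∑ i ∈ S, v i * Real.exp (-(s * i))

/-- the order polynomial of the sequence `v`: `∑ v_i C(N + 1 + m - i, N + 1)` -/
noncomputable def OV (N : ℕ) (v : ℕ → ℝ) (m : ℕ) : ℝ :=
  ∑ i ∈ Finset.range (N + 1), v i * ((N + 1 + m - i).choose (N + 1) : ℝ)

/-- `Λ(s) = 7 √(n log n)/s`, `n = N + 1` -/
noncomputable def Lm (N : ℕ) (s : ℝ) : ℝ :=
  7 * Real.sqrt (((N : ℝ) + 1) * Real.log ((N : ℝ) + 1)) / s

/-- `n^(3/4) (log n)^(1/4)`, `n = N + 1` -/
noncomputable def Dn (N : ℕ) : ℝ :=
  ((N : ℝ) + 1) ^ (3 / 4 : ℝ) * Real.log ((N : ℝ) + 1) ^ (1 / 4 : ℝ)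

/-- one window flip at a time: `st k g = 1` low state, `2` high state, `0` unmarked; `φ k` exchanges the
low and the high state of window `k`, changes `d` by one and no other state -/
structure FlipSys {G : Type} {m : ℕ} (L : Finset G) (d : G → ℕ) (st : Fin m → G → ℕ)
    (φ : Fin m → G → G) : Prop where
  le2 : ∀ k, ∀ g ∈ L, st k g ≤ 2
  mem : ∀ k, ∀ g ∈ L, st k g ≠ 0 → φ k g ∈ L
  inv : ∀ k, ∀ g ∈ L, st k g ≠ 0 → φ k (φ k g) = g
  lo : ∀ k, ∀ g ∈ L, st k g = 1 → st k (φ k g) = 2 ∧ d (φ k g) = d g + 1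
  hi : ∀ k, ∀ g ∈ L, st k g = 2 → st k (φ k g) = 1 ∧ d (φ k g) + 1 = d g
  oth : ∀ k k', k' ≠ k → ∀ g ∈ L, st k g ≠ 0 → st k' (φ k g) = st k' g

/-- number of windows in state `a` -/
def cnt {G : Type} {m : ℕ} (st : Fin m → G → ℕ) (a : ℕ) (g : G) : ℕ :=
  (Finset.univ.filter fun k => st k g = a).card

/-- number of marked windows -/
def mk {G : Type} {m : ℕ} (st : Fin m → G → ℕ) (g : G) : ℕ :=
  (Finset.univ.filter fun k => st k g ≠ 0).card

/-- exchange of the low and the high state -/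
def swp {G : Type} {m : ℕ} (st : Fin m → G → ℕ) (k : Fin m) (g : G) : ℕ :=
  if st k g = 1 then 2 else if st k g = 2 then 1 else 0

/-! ### the windows -/

variable {N B m : ℕ}

/-- window `k` sorted by labels -/
def srt (hm : m * (B + 2) ≤ N + 1) (lab : Fin (N + 1) → ℕ) (k : Fin m)
    (π : Equiv.Perm (Fin (N + 1))) : Equiv.Perm (Fin (N + 1)) :=
  π * emb (win_le hm k) (Tuple.sort fun i => lab (π (wpos (win_le hm k) i)))

/-- arrangements of window `k` with one more descent than the sorted one -/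
noncomputable def Hset (hm : m * (B + 2) ≤ N + 1) (Q : Rel (N + 1)) (lab : Fin (N + 1) → ℕ)
    (k : Fin m) (π : Equiv.Perm (Fin (N + 1))) : Finset (Equiv.Perm (Fin (B + 1))) := by
  classical
  exact (LE (winRel (win_le hm k) Q (srt hm lab k π))).filter fun τ =>
    des lab (srt hm lab k π * emb (win_le hm k) τ) = des lab (srt hm lab k π) + 1

theorem mem_Hset {hm : m * (B + 2) ≤ N + 1} {Q : Rel (N + 1)} {lab : Fin (N + 1) → ℕ}
    {k : Fin m} {π : Equiv.Perm (Fin (N + 1))} {τ : Equiv.Perm (Fin (B + 1))} :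
    τ ∈ Hset hm Q lab k π ↔ τ ∈ LE (winRel (win_le hm k) Q (srt hm lab k π)) ∧
      des lab (srt hm lab k π * emb (win_le hm k) τ) = des lab (srt hm lab k π) + 1 := by
  classical
  unfold Hset
  rw [Finset.mem_filter]

/-- a fixed choice of an element -/
noncomputable def pick {A : Type} [Inhabited A] (S : Finset A) : A := by
  classical
  exact if h : S.Nonempty then h.choose else default

theorem pick_mem {A : Type} [Inhabited A] {S : Finset A} (h : S.Nonempty) : pick S ∈ S := by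
  classical
  unfold pick
  rw [dif_pos h]
  exact h.choose_spec

/-- window `k` is flexible -/
def Flex (hm : m * (B + 2) ≤ N + 1) (Q : Rel (N + 1)) (lab : Fin (N + 1) → ℕ)
    (k : Fin m) (π : Equiv.Perm (Fin (N + 1))) : Prop := (Hset hm Q lab k π).Nonempty

/-- the high word of window `k` -/
noncomputable def hiw (hm : m * (B + 2) ≤ N + 1) (Q : Rel (N + 1)) (lab : Fin (N + 1) → ℕ)
    (k : Fin m) (π : Equiv.Perm (Fin (N + 1))) : Equiv.Perm (Fin (N + 1)) :=
  srt hm lab k π * emb (win_le hm k) (pick (Hset hm Q lab k π))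

open Classical in
/-- the state of window `k` -/
noncomputable def stw (hm : m * (B + 2) ≤ N + 1) (Q : Rel (N + 1)) (lab : Fin (N + 1) → ℕ)
    (k : Fin m) (π : Equiv.Perm (Fin (N + 1))) : ℕ :=
  if Flex hm Q lab k π then
    (if π = srt hm lab k π then 1 else if π = hiw hm Q lab k π then 2 else 0)
  else 0

open Classical in
/-- the flip of window `k` -/
noncomputable def flw (hm : m * (B + 2) ≤ N + 1) (Q : Rel (N + 1)) (lab : Fin (N + 1) → ℕ)
    (k : Fin m) (π : Equiv.Perm (Fin (N + 1))) : Equiv.Perm (Fin (N + 1)) :=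
  if π = srt hm lab k π then hiw hm Q lab k π else srt hm lab k π

open Classical in
/-- number of flexible windows -/
noncomputable def Fx (hm : m * (B + 2) ≤ N + 1) (Q : Rel (N + 1)) (lab : Fin (N + 1) → ℕ)
    (π : Equiv.Perm (Fin (N + 1))) : ℕ :=
  (Finset.univ.filter fun k => Flex hm Q lab k π).card

end Pool.TA43
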