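import Pool.Agent.TA43.Seq
import Pool.Agent.GE63.Ent
import Pool.Agent.NL25.Stein
import Pool.Agent.TA63.Low2

set_option autoImplicit false

/-!
# TA43/Low14: the tilt of a level at distance `D` from the mean is at least `D/(120 N)`
-/

namespace Pool.TA43

open Pool.HB45 Pool.HM63 Pool.PH43 Pool.SC25 Pool.SC45

/-- PROOF. `a = |mA - GG|`, `q = 8|s| ≤ 1/4`; `GE63.mX_mA_le`: `|mX - mA| ≤ |s| N`. If `mA ≥ GG`: `GE63.mA_up`: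
`a ≤ s (mX - GG)/q + 6 q GG ≤ (|s| N + a)/8 + 48 |s| N`; if `mA < GG`: `GE63.mA_lo`:
`a ≤ (|s| N + a)/16 + 32 |s| mA`, `mA ≤ N`. (`s = 0`: `GE63.mA_zeroS`.) -/
theorem mA_any {N : ℕ} {Q : Rel (N + 1)} {lab : Fin (N + 1) → ℕ} (hn : Nat' Q lab) (s : ℝ)
    (hs : |s| ≤ 1 / 96) : |NL25.mA Q lab s - NL25.GG Q| ≤ 55 * |s| * N := by
  exact TA63.mean14 hn s hs

/-- PROOF. As `GE63.logMG_leS`: the derivative of `log (MG/#) - s GG/2` is `(mX - GG)/2`, at most `28 |s| N` in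
absolute value; integrate. -/
theorem logMG14 {N : ℕ} {Q : Rel (N + 1)} {lab : Fin (N + 1) → ℕ} (hn : Nat' Q lab) (s : ℝ)
    (hs : |s| ≤ 1 / 96) :
    NL25.MG Q lab s ≤ (LE Q).card * Real.exp (s * NL25.GG Q / 2 + 14 * s ^ 2 * N) := by
  exact TA63.logMG14 hn s hs

/-- PROOF. `l = D/(60N) - s ≥ D/(120N)`: on `des ≤ j ≤ (N - GG)/2 - D`, `X ≥ GG + 2D`, so
`∑ e^(sX/2) ≤ e^(-l (GG + 2D)/2) MG (s + l) ≤ # e^(s GG/2 + 14 (s+l)^2 N - l D) ≤ MG s e^(-D^2/(240N))`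
(`NL25.jensen`), `e^(-169/240) < 1/2`. `VS = e^(-sN/2) ∑ e^(sX/2)`. -/
theorem low_left {N : ℕ} (hN : 1 ≤ N) {Q : Rel (N + 1)} {lab : Fin (N + 1) → ℕ} (hn : Nat' Q lab)
    (D s : ℝ) (hD0 : 13 * Real.sqrt N ≤ D) (hD1 : D ≤ 5 / 8 * N) (hs0 : 0 ≤ s)
    (hs1 : s ≤ D / (120 * N)) (j : ℕ) (hj : (j : ℝ) ≤ (N - NL25.GG Q) / 2 - D) :
    VS (vL Q lab) s (Finset.range (j + 1)) < VV N (vL Q lab) s / 2 := by
  exact TA63.low_leftTA hN hn D s hD0 hD1 hs1 j hj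

/-- PROOF. The same with `-s`: `N - des ≤ k ≤ (N + GG)/2 - D` gives `X ≤ GG - 2D`. -/
theorem low_right {N : ℕ} (hN : 1 ≤ N) {Q : Rel (N + 1)} {lab : Fin (N + 1) → ℕ} (hn : Nat' Q lab)
    (D s : ℝ) (hD0 : 13 * Real.sqrt N ≤ D) (hD1 : D ≤ 5 / 8 * N) (hs0 : 0 ≤ s)
    (hs1 : s ≤ D / (120 * N)) (k : ℕ) (hkN : k ≤ N) (hk : (k : ℝ) ≤ (N + NL25.GG Q) / 2 - D) :
    VS (vR Q lab) s (Finset.range (k + 1)) < VV N (vR Q lab) s / 2 := by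
  exact TA63.low_rightTA hN hn D s hD0 hD1 hs1 k hkN hk

end Pool.TA43
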