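import Pool.Agent.TA43.TB23

set_option autoImplicit false

/-!
# TA43/TB: tilts whose median is at a level `≥ β + ε N/2` are bounded 

PROOF. `i ≤ N` (else trivial). For `i < l ≤ N`: `v_l ≤ OV l` (the summand `l`), `OV l ≤ 2^(N+1) OV (β + (l-β)/2)`,
`OV m ≤ 2^(2N+2) ∑_(i' ≤ m) v_i'` for `m ≤ N + 1` (binomials are `0` for `i' > m`, else
`≤ 2^(N+1+m)`), so `v_l e^(-sl) ≤ 2^(3N+3) e^(-s(l-β)/2) VV ≤ 2^(3N+3) e^(-sεN/4) VV`. Sum over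
at most `N` values `l`: `N 2^(3N+3) e^(-sεN/4) VV < VV/2` for `s > s0 = 40/ε`.
-/

namespace Pool.TA43

open Pool.HB45 Pool.HM63 Pool.PH43 Pool.SC25 Pool.SC45

theorem tilt_le (ε : ℝ) (hε : 0 < ε) : ∃ s0 : ℝ, 0 < s0 ∧ ∀ N : ℕ, 1 ≤ N → ∀ (v : ℕ → ℝ) (β : ℕ),
    (∀ i, 0 ≤ v i) → 0 < VV N v 0 →
    (∀ t, OV N v (β + t) ≤ 2 ^ (N + 1) * OV N v (β + t / 2)) → ∀ (i : ℕ) (s : ℝ),
    (β : ℝ) + ε * N / 2 ≤ i → s0 < s → VV N v s / 2 < VS v s (Finset.range (i + 1)) := by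
  exact tilt_le23 ε hε

end Pool.TA43
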