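import Pool.Agent.TA43.Lev
import Pool.Agent.TA43.Clm
import Pool.Agent.TA43.Low14
import Pool.Agent.TA43.TB
import Pool.Agent.HB45.Uni

set_option autoImplicit false

/-!
# TA43/Fin: all posets, any height: assembly
-/

namespace Pool.TA43

open Pool.HB45 Pool.HM63 Pool.PH43 Pool.SC25 Pool.SC45

theorem vL_nonneg {N : ℕ} (Q : Rel (N + 1)) (lab : Fin (N + 1) → ℕ) (i : ℕ) : 0 ≤ vL Q lab i :=
  Nat.cast_nonneg _

theorem vR_nonneg {N : ℕ} (Q : Rel (N + 1)) (lab : Fin (N + 1) → ℕ) (i : ℕ) : 0 ≤ vR Q lab i :=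
  Nat.cast_nonneg _

theorem VV_zero_left {N : ℕ} {Q : Rel (N + 1)} {lab : Fin (N + 1) → ℕ} (hn : Nat' Q lab) :
    0 < VV N (vL Q lab) 0 := by
  unfold VV
  rw [sum_vL Q lab fun i => Real.exp (-(0 * (i : ℝ)))]
  exact Finset.sum_pos (fun _ _ => Real.exp_pos _) (NL25.LE_nonempty hn)

theorem VV_zero_right {N : ℕ} {Q : Rel (N + 1)} {lab : Fin (N + 1) → ℕ} (hn : Nat' Q lab) :
    0 < VV N (vR Q lab) 0 := by
  unfold VV
  rw [sum_vR Q lab fun i => Real.exp (-(0 * (i : ℝ)))]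
  exact Finset.sum_pos (fun _ _ => Real.exp_pos _) (NL25.LE_nonempty hn)

/-- `√N ≤ n^(3/4) (log n)^(1/4)`, `1 ≤ ` the same -/
theorem sqrt_le_Dn (N : ℕ) (hN : 2 ≤ N) : Real.sqrt N ≤ Dn N ∧ 1 ≤ Dn N := by
  have h0 : (1 : ℝ) ≤ (N : ℝ) + 1 := by
    have : (0 : ℝ) ≤ N := Nat.cast_nonneg _
    linarith
  have hN' : (2 : ℝ) ≤ N := by exact_mod_cast hN
  have hlog : 1 ≤ Real.log ((N : ℝ) + 1) := by
    rw [Real.le_log_iff_exp_le (by linarith)]
    have := Real.exp_one_lt_d9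
    linarith
  have h1 : 1 ≤ Real.log ((N : ℝ) + 1) ^ (1 / 4 : ℝ) := Real.one_le_rpow hlog (by norm_num)
  have h2 : Real.sqrt N ≤ ((N : ℝ) + 1) ^ (3 / 4 : ℝ) := by
    rw [Real.sqrt_eq_rpow]
    calc (N : ℝ) ^ (1 / 2 : ℝ) ≤ ((N : ℝ) + 1) ^ (1 / 2 : ℝ) :=
          Real.rpow_le_rpow (by linarith) (by linarith) (by norm_num)
      _ ≤ _ := Real.rpow_le_rpow_of_exponent_le h0 (by norm_num)
  have h3 : 1 ≤ ((N : ℝ) + 1) ^ (3 / 4 : ℝ) := Real.one_le_rpow h0 (by norm_num)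
  have h4 : 0 ≤ ((N : ℝ) + 1) ^ (3 / 4 : ℝ) := by linarith
  unfold Dn
  constructor
  · nlinarith
  · nlinarith

/-- LEFT SIDE -/
theorem left_side (ε : ℝ) (hε : 0 < ε) : ∃ C : ℝ, 0 < C ∧ ∃ N0 : ℕ, ∀ N ≥ N0,
    ∀ (Q : Rel (N + 1)) (lab : Fin (N + 1) → ℕ), Nat' Q lab → ∀ j : ℕ, ε * N ≤ j →
    (j : ℝ) ≤ (N - NL25.GG Q) / 2 - C * Dn N → vL Q lab j ≤ vL Q lab (j + 1) := by
  obtain ⟨s0, hs0, htb⟩ := tilt_le ε hε
  obtain ⟨c2, hc2, N1, hlev⟩ := level_left ε s0 hε hs0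
  obtain ⟨C, hC, N2, hcl⟩ := climb ε s0 c2 hε hs0 hc2
  refine ⟨max C 13, by positivity, max (max N1 N2) 2, fun N hN Q lab hn j hj hjD => ?_⟩
  have g1 : N1 ≤ N := ((le_max_left _ _).trans (le_max_left _ _)).trans hN
  have g2 : N2 ≤ N := ((le_max_right _ _).trans (le_max_left _ _)).trans hN
  have g3 : 2 ≤ N := (le_max_right _ _).trans hN
  obtain ⟨hq1, hq2⟩ := sqrt_le_Dn N g3
  have hG0 := NL25.GG_nonneg Q
  have hN0 : (0 : ℝ) ≤ N := Nat.cast_nonneg _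
  have hj0 : (0 : ℝ) ≤ j := Nat.cast_nonneg _
  obtain ⟨D, hD⟩ : ∃ D, D = (N - NL25.GG Q) / 2 - j := ⟨_, rfl⟩
  have hCD : C * Dn N ≤ D := by
    have := mul_le_mul_of_nonneg_right (le_max_left C 13) (by linarith : 0 ≤ Dn N)
    linarith
  have h13 : 13 * Real.sqrt N ≤ D := by
    have h1 := mul_le_mul_of_nonneg_right (le_max_right C 13) (by linarith : 0 ≤ Dn N)
    linarith
  have hD0 : 0 ≤ D := le_trans (by positivity) h13
  have hjN : j ≤ N := by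
    have : (j : ℝ) ≤ N := by linarith
    exact_mod_cast this
  refine hcl N g2 (vL Q lab) 0 j D (vL_nonneg Q lab) (VV_zero_left hn) hjN (lc_left hn) ?_ ?_ ?_ ?_
    hCD
  · intro i s hi hs
    exact htb N (by omega) (vL Q lab) 0 (vL_nonneg Q lab) (VV_zero_left hn) (half_left hn) i s hi hs
  · intro s hs1 hs2
    exact low_left (by omega) hn D s h13 (by linarith) hs1 hs2 j (by linarith)
  · intro i s hi _ hs1 hs2 hm
    exact hlev N g1 Q lab hn i s (by push_cast at hi; linarith) hs1 hs2 hm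
  · push_cast
    linarith

/-- RIGHT SIDE -/
theorem right_side (ε : ℝ) (hε : 0 < ε) : ∃ C : ℝ, 0 < C ∧ ∃ N0 : ℕ, ∀ N ≥ N0,
    ∀ (Q : Rel (N + 1)) (κ lab : Fin (N + 1) → ℕ) (β : ℕ), Lev (β + 1) Q κ → Nat' Q lab →
    ∀ i : ℕ, i + 1 ≤ N → (β : ℝ) + ε * N ≤ i → (i : ℝ) + ε * N / 4 ≤ N → 3 / 8 * (N : ℝ) ≤ i →
    (i : ℝ) ≤ (N + NL25.GG Q) / 2 - C * Dn N → vR Q lab i ≤ vR Q lab (i + 1) := by
  obtain ⟨s0, hs0, htb⟩ := tilt_le ε hε
  obtain ⟨c2, hc2, N1, hlev⟩ := level_right ε s0 hε hs0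
  obtain ⟨C, hC, N2, hcl⟩ := climb ε s0 c2 hε hs0 hc2
  refine ⟨max C 13, by positivity, max (max N1 N2) 2, fun N hN Q κ lab β hκ hn j hjN hβ hj4 h38
    hjD => ?_⟩
  have g1 : N1 ≤ N := ((le_max_left _ _).trans (le_max_left _ _)).trans hN
  have g2 : N2 ≤ N := ((le_max_right _ _).trans (le_max_left _ _)).trans hN
  have g3 : 2 ≤ N := (le_max_right _ _).trans hN
  obtain ⟨hq1, hq2⟩ := sqrt_le_Dn N g3
  have hGN : NL25.GG Q ≤ N := by
    unfold NL25.GG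
    have hc := NL25.card_pos hn
    rw [div_le_iff₀ hc]
    calc ∑ g ∈ LE Q, (adj Q g : ℝ) ≤ ∑ _g ∈ LE Q, (N : ℝ) := by
          refine Finset.sum_le_sum fun g _ => ?_
          have h1 : adj Q g ≤ N := by
            unfold adj
            exact (Finset.card_le_univ _).trans (by rw [Fintype.card_fin])
          exact_mod_cast h1
      _ = N * (LE Q).card := by rw [Finset.sum_const, nsmul_eq_mul, mul_comm]
  have hN0 : (0 : ℝ) ≤ N := Nat.cast_nonneg _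
  obtain ⟨D, hD⟩ : ∃ D, D = (N + NL25.GG Q) / 2 - j := ⟨_, rfl⟩
  have hCD : C * Dn N ≤ D := by
    have := mul_le_mul_of_nonneg_right (le_max_left C 13) (by linarith : 0 ≤ Dn N)
    linarith
  have h13 : 13 * Real.sqrt N ≤ D := by
    have h1 := mul_le_mul_of_nonneg_right (le_max_right C 13) (by linarith : 0 ≤ Dn N)
    linarith
  refine hcl N g2 (vR Q lab) β j D (vR_nonneg Q lab) (VV_zero_right hn) (by omega) (lc_right hn)
    ?_ ?_ ?_ hβ hCD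
  · intro i s hi hs
    exact htb N (by omega) (vR Q lab) β (vR_nonneg Q lab) (VV_zero_right hn) (half_right hκ hn) i s
      hi hs
  · intro s hs1 hs2
    exact low_right (by omega) hn D s h13 (by linarith) hs1 hs2 j (by omega) (by linarith)
  · intro i s hi hij hs1 hs2 hm
    have hij' : (i : ℝ) ≤ j := by exact_mod_cast hij
    exact hlev N g1 Q lab hn i s (by omega) (by linarith) hs1 hs2 hm

end Pool.TA43
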