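import Pool.Agent.TA43.OmS

set_option autoImplicit false

/-!
# TA43/Half: halving the values of a map (from `LA34/OmS`)
-/

namespace Pool.TA43

open Pool.HB45 Pool.HM63 Pool.PH43 Pool.SC25 Pool.SC45

/-- values in `{0, …, t}`. PROOF. `f ↦ ⌊f/2⌋`, fibres of at most `2^n` maps. -/
theorem om_half {n : ℕ} (Q : Rel n) (t : ℕ) :
    (Mp Q (t + 1)).card ≤ 2 ^ n * (Mp Q (t / 2 + 1)).card := by
  rw [Mp_succ, Mp_succ]
  exact LA34.Om_half Q t

/-- values in `{0, …, β + t}`, `κ` a level function with values `≤ β`. -/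
theorem os_half {n β : ℕ} {Q : Rel n} {κ : Fin n → ℕ} (hκ : Lev (β + 1) Q κ) (t : ℕ) :
    (Ms Q (β + t + 1)).card ≤ 2 ^ n * (Ms Q (β + t / 2 + 1)).card := by
  rw [Ms_succ, Ms_succ]
  exact LA34.Os_half hκ t

end Pool.TA43
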