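import Pool.Agent.TA43.Bub

set_option autoImplicit false

/-!
# TA43/RichS60: proofs of `des_srt_add`, `rich`, `des_le_Fx` of `TA43/Rich`
-/

namespace Pool.TA43.RichS60

open Pool.HB45 Pool.HM63 Pool.PH43 Pool.SC25 Pool.SC45 Pool.TA43

variable {N B m : ℕ}

theorem srt_wpos (hm : m * (B + 2) ≤ N + 1) (lab : Fin (N + 1) → ℕ) (k : Fin m)
    (π : Equiv.Perm (Fin (N + 1))) (i : Fin (B + 1)) :
    srt hm lab k π (wpos (win_le hm k) i) = π (wpos (win_le hm k)
      (Tuple.sort (fun i => lab (π (wpos (win_le hm k) i))) i)) := by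
  unfold srt
  rw [Equiv.Perm.mul_apply, emb_wpos]

theorem srt_of_not (hm : m * (B + 2) ≤ N + 1) (lab : Fin (N + 1) → ℕ) (k : Fin m)
    (π : Equiv.Perm (Fin (N + 1))) (q : Fin (N + 1))
    (hq : ¬ (k.val * (B + 2) ≤ q.val ∧ q.val < k.val * (B + 2) + (B + 1))) :
    srt hm lab k π q = π q := by
  unfold srt
  rw [Equiv.Perm.mul_apply, emb_of_not _ _ _ hq]

theorem card_le_of_mem {S : Finset (Fin N)} {a b : ℕ} (h : ∀ p ∈ S, a ≤ p.val ∧ p.val < b) :
    S.card ≤ b - a := by
  rw [← Nat.card_Ico a b]
  refine Finset.card_le_card_of_injOn Fin.val ?_ ?_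
  · intro p hp
    rw [Finset.mem_coe, Finset.mem_Ico]
    exact h p hp
  · intro p _ q _ hpq
    exact Fin.ext hpq

theorem des_srt_add (hm : m * (B + 2) ≤ N + 1) {lab : Fin (N + 1) → ℕ}
    (k : Fin m) (π : Equiv.Perm (Fin (N + 1))) :
    des lab (srt hm lab k π) + (Finset.univ.filter fun p : Fin N => k.val * (B + 2) ≤ p.val ∧
        p.val < k.val * (B + 2) + B ∧ p ∈ DS lab π).card ≤ des lab π + 2 := by
  classical
  have hwin := win_le hm k
  set o := k.val * (B + 2) with ho
  set I : Finset (Fin N) := Finset.univ.filter fun p : Fin N => o ≤ p.val ∧ p.val < o + B ∧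
    p ∈ DS lab π with hI
  set E : Finset (Fin N) := Finset.univ.filter fun p : Fin N => p.val + 1 = o ∨ p.val = o + B
    with hE
  have hIsub : I ⊆ DS lab π := by
    intro p hp
    rw [hI, Finset.mem_filter] at hp
    exact hp.2.2.2
  have hEc : E.card ≤ 2 := by
    have h1 : E ⊆ (Finset.univ.filter fun p : Fin N => p.val + 1 = o) ∪
        (Finset.univ.filter fun p : Fin N => p.val = o + B) := by
      intro p hp
      rw [hE, Finset.mem_filter] at hp
      rw [Finset.mem_union, Finset.mem_filter, Finset.mem_filter]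
      rcases hp.2 with h | h
      · exact Or.inl ⟨Finset.mem_univ _, h⟩
      · exact Or.inr ⟨Finset.mem_univ _, h⟩
    refine (Finset.card_le_card h1).trans ((Finset.card_union_le _ _).trans ?_)
    have h2 : (Finset.univ.filter fun p : Fin N => p.val + 1 = o).card ≤ 1 := by
      rw [Finset.card_le_one]
      intro a ha b hb
      rw [Finset.mem_filter] at ha hb
      exact Fin.ext (by omega)
    have h3 : (Finset.univ.filter fun p : Fin N => p.val = o + B).card ≤ 1 := by
      rw [Finset.card_le_one]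
      intro a ha b hb
      rw [Finset.mem_filter] at ha hb
      exact Fin.ext (by omega)
    omega
  have hsub : DS lab (srt hm lab k π) ⊆ (DS lab π \ I) ∪ E := by
    intro p hp
    rw [mem_DS] at hp
    rw [Finset.mem_union, Finset.mem_sdiff]
    by_cases hpE : p.val + 1 = o ∨ p.val = o + B
    · right
      rw [hE, Finset.mem_filter]
      exact ⟨Finset.mem_univ _, hpE⟩
    · left
      push Not at hpE
      by_cases hin : o ≤ p.val ∧ p.val < o + B
      · exfalso
        have h1 : p.castSucc = wpos hwin ⟨p.val - o, by omega⟩ :=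
          Fin.ext (by simp [wpos]; omega)
        have h2 : p.succ = wpos hwin ⟨p.val - o + 1, by omega⟩ :=
          Fin.ext (by simp [wpos]; omega)
        rw [h1, h2, srt_wpos, srt_wpos] at hp
        have h3 := Tuple.monotone_sort (fun i => lab (π (wpos hwin i)))
        have h4 : (⟨p.val - o, by omega⟩ : Fin (B + 1)) ≤ ⟨p.val - o + 1, by omega⟩ :=
          Fin.mk_le_mk.2 (by omega)
        have h5 := h3 h4
        simp only [Function.comp_apply] at h5
        exact absurd hp (not_lt.2 h5)
      · have h1 : ¬ (o ≤ p.castSucc.val ∧ p.castSucc.val < o + (B + 1)) := by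
          rw [Fin.val_castSucc]
          omega
        have h2 : ¬ (o ≤ p.succ.val ∧ p.succ.val < o + (B + 1)) := by
          rw [Fin.val_succ]
          omega
        rw [srt_of_not hm lab k π _ h1, srt_of_not hm lab k π _ h2] at hp
        refine ⟨mem_DS.2 hp, ?_⟩
        intro hpI
        rw [hI, Finset.mem_filter] at hpI
        exact hin ⟨hpI.2.1, hpI.2.2.1⟩
  have h1 := (Finset.card_le_card hsub).trans (Finset.card_union_le _ _)
  rw [Finset.card_sdiff_of_subset hIsub] at h1
  have h2 := Finset.card_le_card hIsub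
  rw [card_DS] at h1 h2
  rw [card_DS] at h1
  omega

theorem rich (hm : m * (B + 2) ≤ N + 1) {Q : Rel (N + 1)} {lab : Fin (N + 1) → ℕ}
    (hn : Nat' Q lab) (k : Fin m) (g : Equiv.Perm (Fin (N + 1))) (hg : g ∈ LE Q)
    (h3 : ∃ τ : Equiv.Perm (Fin (B + 1)), g * emb (win_le hm k) τ ∈ LE Q ∧
      3 ≤ (Finset.univ.filter fun p : Fin N => k.val * (B + 2) ≤ p.val ∧
        p.val < k.val * (B + 2) + B ∧ p ∈ DS lab (g * emb (win_le hm k) τ)).card) :
    Flex hm Q lab k g := by
  obtain ⟨τ, hτ, hc⟩ := h3
  have h1 := des_srt_add hm (lab := lab) k (g * emb (win_le hm k) τ)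
  obtain ⟨τ', hτ', hd⟩ := bubble hm hn k (g * emb (win_le hm k) τ) hτ
    (des lab (srt hm lab k (g * emb (win_le hm k) τ)) + 1) (by omega) (by omega)
  rw [srt_emb hm hn.inj] at hd
  set σ : Equiv.Perm (Fin (B + 1)) := Tuple.sort (fun i => lab (g (wpos (win_le hm k) i))) with hσ
  have h2 : g * emb (win_le hm k) τ * emb (win_le hm k) τ' =
      srt hm lab k g * emb (win_le hm k) (σ⁻¹ * τ * τ') := by
    unfold srt
    rw [← hσ, mul_assoc, mul_assoc, ← emb_mul, ← emb_mul, mul_assoc, mul_inv_cancel_left]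
  refine ⟨σ⁻¹ * τ * τ', mem_Hset.2 ⟨?_, ?_⟩⟩
  · rw [← mul_emb_mem (win_le hm k) _ (srt_mem hm hn k g hg), ← h2]
    exact hτ'
  · rw [← h2]
    exact hd

open Classical in
/-- the positions of `TA43/Rich.inc` -/
noncomputable def inc60 (_hm : m * (B + 2) ≤ N + 1) (Q : Rel (N + 1)) (k : Fin m)
    (g : Equiv.Perm (Fin (N + 1))) : Finset (Fin N) :=
  Finset.univ.filter fun p : Fin N => k.val * (B + 2) ≤ p.val ∧ p.val < k.val * (B + 2) + B ∧
    ¬ Q (g p.castSucc) (g p.succ)

theorem des_le_Fx (hm : m * (B + 2) ≤ N + 1) (hm' : N + 1 < (m + 1) * (B + 2)) {Q : Rel (N + 1)}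
    {lab : Fin (N + 1) → ℕ} (hn : Nat' Q lab) (g : Equiv.Perm (Fin (N + 1)))
    (hR : ∀ k : Fin m, 5 ≤ (inc60 hm Q k g).card → Flex hm Q lab k g) :
    des lab g ≤ Fx hm Q lab g * B + 6 * m + (B + 2) := by
  classical
  set I : Fin m → Finset (Fin N) := fun k => (DS lab g).filter fun p =>
    k.val * (B + 2) ≤ p.val ∧ p.val < k.val * (B + 2) + B with hI
  set E : Fin m → Finset (Fin N) := fun k => Finset.univ.filter fun p : Fin N =>
    k.val * (B + 2) + B ≤ p.val ∧ p.val < k.val * (B + 2) + (B + 2) with hE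
  set T : Finset (Fin N) := Finset.univ.filter fun p : Fin N => m * (B + 2) ≤ p.val with hT
  have hsub : DS lab g ⊆ (Finset.univ.biUnion I ∪ Finset.univ.biUnion E) ∪ T := by
    intro p hp
    rw [Finset.mem_union, Finset.mem_union, Finset.mem_biUnion, Finset.mem_biUnion]
    have h1 := Nat.div_add_mod p.val (B + 2)
    have h2 := Nat.mod_lt p.val (show 0 < B + 2 by omega)
    have h3 : (B + 2) * (p.val / (B + 2)) = p.val / (B + 2) * (B + 2) := Nat.mul_comm _ _
    by_cases hk : p.val / (B + 2) < m
    · left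
      by_cases hb : p.val < p.val / (B + 2) * (B + 2) + B
      · left
        refine ⟨⟨p.val / (B + 2), hk⟩, Finset.mem_univ _, ?_⟩
        rw [hI]
        simp only [Finset.mem_filter]
        exact ⟨hp, by omega, hb⟩
      · right
        refine ⟨⟨p.val / (B + 2), hk⟩, Finset.mem_univ _, ?_⟩
        rw [hE]
        simp only [Finset.mem_filter]
        exact ⟨Finset.mem_univ _, by omega, by omega⟩
    · right
      rw [hT, Finset.mem_filter]
      refine ⟨Finset.mem_univ _, ?_⟩
      have h4 : m * (B + 2) ≤ p.val / (B + 2) * (B + 2) :=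
        Nat.mul_le_mul_right _ (not_lt.1 hk)
      omega
  have hT' : T.card ≤ B + 2 := by
    have h1 : T.card ≤ N - m * (B + 2) := card_le_of_mem fun p hp => by
      rw [hT, Finset.mem_filter] at hp
      exact ⟨hp.2, p.isLt⟩
    rw [Nat.add_mul] at hm'
    omega
  have hE' : (Finset.univ.biUnion E).card ≤ 2 * m := by
    refine Finset.card_biUnion_le.trans ?_
    refine (Finset.sum_le_card_nsmul _ _ 2 fun k _ => ?_).trans ?_
    · have h1 : (E k).card ≤ k.val * (B + 2) + (B + 2) - (k.val * (B + 2) + B) :=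
        card_le_of_mem fun p hp => by
          rw [hE] at hp
          simp only [Finset.mem_filter] at hp
          exact hp.2
      omega
    · rw [Finset.card_univ, Fintype.card_fin, smul_eq_mul, Nat.mul_comm]
  have hI1 : ∀ k : Fin m, (I k).card ≤ (if Flex hm Q lab k g then B else 0) + 4 := by
    intro k
    by_cases hk : Flex hm Q lab k g
    · rw [if_pos hk]
      have h1 : (I k).card ≤ k.val * (B + 2) + B - k.val * (B + 2) :=
        card_le_of_mem fun p hp => by
          rw [hI] at hp
          simp only [Finset.mem_filter] at hp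
          exact hp.2
      omega
    · rw [if_neg hk]
      have h1 : (inc60 hm Q k g).card < 5 := by
        by_contra h5
        exact hk (hR k (by omega))
      have h2 : (I k).card ≤ (inc60 hm Q k g).card := by
        refine Finset.card_le_card fun p hp => ?_
        rw [hI] at hp
        simp only [Finset.mem_filter] at hp
        unfold inc60
        rw [Finset.mem_filter]
        refine ⟨Finset.mem_univ _, hp.2.1, hp.2.2, fun hQ => ?_⟩
        have h3 := hn.mono _ _ hQ
        have h4 := mem_DS.1 hp.1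
        omega
      omega
  have hI' : (Finset.univ.biUnion I).card ≤ Fx hm Q lab g * B + 4 * m := by
    refine Finset.card_biUnion_le.trans ?_
    refine (Finset.sum_le_sum fun k _ => hI1 k).trans (le_of_eq ?_)
    rw [Finset.sum_add_distrib, Finset.sum_const, Finset.card_univ, Fintype.card_fin,
      smul_eq_mul, ← Finset.sum_filter, Finset.sum_const, smul_eq_mul]
    unfold Fx
    ring
  have h1 := (Finset.card_le_card hsub).trans (Finset.card_union_le _ _)
  have h2 := Finset.card_union_le (Finset.univ.biUnion I) (Finset.univ.biUnion E)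
  rw [card_DS] at h1
  omega

end Pool.TA43.RichS60
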