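import Pool.Agent.TA43.Bub

set_option autoImplicit false

/-!
# TA43/ThreeS58: three disjoint incomparable neighbour pairs of a window made descents
-/

namespace Pool.TA43

open Pool.HB45 Pool.HM63 Pool.PH43 Pool.SC25 Pool.SC45

variable {N B m : ℕ}

/-- Incomparable neighbour pairs of a window, at pairwise distance at least two, can be made descents. -/
theorem three_aux (hm : m * (B + 2) ≤ N + 1) {Q : Rel (N + 1)} {lab : Fin (N + 1) → ℕ}
    (hn : Nat' Q lab) (k : Fin m) (g : Equiv.Perm (Fin (N + 1))) (hg : g ∈ LE Q)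
    (T : Finset (Fin N))
    (hT : ∀ t ∈ T, k.val * (B + 2) ≤ t.val ∧ t.val < k.val * (B + 2) + B ∧
      ¬ Q (g t.castSucc) (g t.succ))
    (hd : ∀ t ∈ T, ∀ t' ∈ T, t.val < t'.val → t.val + 2 ≤ t'.val) :
    ∃ τ : Equiv.Perm (Fin (B + 1)), g * emb (win_le hm k) τ ∈ LE Q ∧
      T ⊆ DS lab (g * emb (win_le hm k) τ) ∧
      ∀ x : Fin (N + 1), (∀ t ∈ T, x.val ≠ t.val ∧ x.val ≠ t.val + 1) →
        (g * emb (win_le hm k) τ) x = g x := by
  classical
  induction T using Finset.induction_on with
  | empty =>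
    refine ⟨1, ?_, Finset.empty_subset _, fun x _ => ?_⟩
    · rw [emb_one, mul_one]; exact hg
    · rw [emb_one, mul_one]
  | insert t T ht ih =>
    obtain ⟨τ, h1, h2, h3⟩ := ih (fun t' h => hT t' (Finset.mem_insert_of_mem h))
      (fun a ha b hb => hd a (Finset.mem_insert_of_mem ha) b (Finset.mem_insert_of_mem hb))
    obtain ⟨g', hg'⟩ : ∃ g', g' = g * emb (win_le hm k) τ := ⟨_, rfl⟩
    rw [← hg'] at h1 h2 h3
    have hfar : ∀ t' ∈ T, t'.val + 2 ≤ t.val ∨ t.val + 2 ≤ t'.val := by
      intro t' h'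
      have hne : t'.val ≠ t.val := fun h => ht (Fin.ext h ▸ h')
      rcases Nat.lt_or_gt_of_ne hne with h | h
      · exact Or.inl (hd t' (Finset.mem_insert_of_mem h') t (Finset.mem_insert_self _ _) h)
      · exact Or.inr (hd t (Finset.mem_insert_self _ _) t' (Finset.mem_insert_of_mem h') h)
    have hc : t.castSucc.val = t.val := rfl
    have hs : t.succ.val = t.val + 1 := rfl
    obtain ⟨ht1, ht2, ht3⟩ := hT t (Finset.mem_insert_self _ _)
    have e1 : g' t.castSucc = g t.castSucc := h3 _ fun t' h' => by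
      have := hfar t' h'
      rw [hc]; omega
    have e2 : g' t.succ = g t.succ := h3 _ fun t' h' => by
      have := hfar t' h'
      rw [hs]; omega
    by_cases hdes : t ∈ DS lab g'
    · refine ⟨τ, hg' ▸ h1, ?_, ?_⟩
      · rw [← hg']
        exact Finset.insert_subset hdes h2
      · intro x hx
        rw [← hg']
        exact h3 x fun t' h' => hx t' (Finset.mem_insert_of_mem h')
    · have hlt : lab (g' t.castSucc) < lab (g' t.succ) := lt_of_not_mem hn hdes
      have hsw : sw g' t = g * emb (win_le hm k) (τ * Equiv.swap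
          (⟨t.val - k.val * (B + 2), by omega⟩ : Fin B).castSucc
          (⟨t.val - k.val * (B + 2), by omega⟩ : Fin B).succ) := by
        rw [emb_mul, ← mul_assoc, ← hg', bub_emb_swap (win_le hm k)
          (⟨t.val - k.val * (B + 2), by omega⟩ : Fin B) t (by simp; omega)]
        rfl
      refine ⟨_, hsw ▸ sw_mem h1 (by rw [e1, e2]; exact ht3), ?_, ?_⟩
      · rw [← hsw]
        refine Finset.insert_subset ?_ ?_
        · rw [mem_DS, sw_left, sw_right]
          exact hlt
        · intro t' h'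
          have h4 := hfar t' h'
          have h5 := h2 h'
          have hc' : t'.castSucc.val = t'.val := rfl
          have hs' : t'.succ.val = t'.val + 1 := rfl
          rw [mem_DS] at h5 ⊢
          rw [sw_other g' (i := t'.castSucc) (by rw [hc']; omega) (by rw [hc']; omega),
            sw_other g' (i := t'.succ) (by rw [hs']; omega) (by rw [hs']; omega)]
          exact h5
      · intro x hx
        rw [← hsw]
        have h4 := hx t (Finset.mem_insert_self _ _)
        rw [sw_other g' h4.1 h4.2]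
        exact h3 x fun t' h' => hx t' (Finset.mem_insert_of_mem h')

open Classical in
theorem three_des58 (hm : m * (B + 2) ≤ N + 1) {Q : Rel (N + 1)} {lab : Fin (N + 1) → ℕ}
    (hn : Nat' Q lab) (k : Fin m) (g : Equiv.Perm (Fin (N + 1))) (hg : g ∈ LE Q)
    (h5 : 5 ≤ (Finset.univ.filter fun p : Fin N => k.val * (B + 2) ≤ p.val ∧
      p.val < k.val * (B + 2) + B ∧ ¬ Q (g p.castSucc) (g p.succ)).card) :
    ∃ τ : Equiv.Perm (Fin (B + 1)), g * emb (win_le hm k) τ ∈ LE Q ∧
      3 ≤ (Finset.univ.filter fun p : Fin N => k.val * (B + 2) ≤ p.val ∧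
        p.val < k.val * (B + 2) + B ∧ p ∈ DS lab (g * emb (win_le hm k) τ)).card := by
  set S := Finset.univ.filter fun p : Fin N => k.val * (B + 2) ≤ p.val ∧
      p.val < k.val * (B + 2) + B ∧ ¬ Q (g p.castSucc) (g p.succ) with hS
  set e := S.orderEmbOfCardLe h5 with he
  have hmem : ∀ i, e i ∈ S := fun i => Finset.orderEmbOfCardLe_mem S h5 i
  have hlt : ∀ i j : Fin 5, i < j → (e i).val < (e j).val := fun i j h =>
    Fin.lt_def.1 (e.strictMono h)
  have h01 := hlt 0 1 (by decide)
  have h12 := hlt 1 2 (by decide)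
  have h23 := hlt 2 3 (by decide)
  have h34 := hlt 3 4 (by decide)
  set T : Finset (Fin N) := {e 0, e 2, e 4} with hTdef
  have hmS : ∀ t ∈ T, t ∈ S := by
    intro t ht
    rw [hTdef, Finset.mem_insert, Finset.mem_insert, Finset.mem_singleton] at ht
    rcases ht with rfl | rfl | rfl <;> exact hmem _
  have hTS : ∀ t ∈ T, k.val * (B + 2) ≤ t.val ∧ t.val < k.val * (B + 2) + B ∧
      ¬ Q (g t.castSucc) (g t.succ) := by
    intro t ht
    have := hmS t ht
    rw [hS, Finset.mem_filter] at this
    exact this.2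
  have hTd : ∀ t ∈ T, ∀ t' ∈ T, t.val < t'.val → t.val + 2 ≤ t'.val := by
    intro t ht t' ht'
    rw [hTdef, Finset.mem_insert, Finset.mem_insert, Finset.mem_singleton] at ht ht'
    rcases ht with rfl | rfl | rfl <;> rcases ht' with rfl | rfl | rfl <;> intro h <;> omega
  have hT3 : T.card = 3 := by
    rw [hTdef, Finset.card_eq_three]
    refine ⟨e 0, e 2, e 4, ?_, ?_, ?_, rfl⟩ <;> intro h <;>
      [have := congrArg Fin.val h; have := congrArg Fin.val h; have := congrArg Fin.val h] <;> omega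
  obtain ⟨τ, h1, h2, -⟩ := three_aux hm hn k g hg T hTS hTd
  refine ⟨τ, h1, ?_⟩
  rw [← hT3]
  refine Finset.card_le_card fun t ht => ?_
  rw [Finset.mem_filter]
  exact ⟨Finset.mem_univ _, (hTS t ht).1, (hTS t ht).2.1, h2 ht⟩

end Pool.TA43
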