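import Pool.Agent.TA43.Bub
import Pool.Agent.TA43.ThreeS58
import Pool.Agent.TA43.RichS60

set_option autoImplicit false

/-!
# TA43/Rich: windows with five incomparable neighbour pairs are flexible; many windows are flexible (STUB)
-/

namespace Pool.TA43

open Pool.HB45 Pool.HM63 Pool.PH43 Pool.SC25 Pool.SC45

variable {N B m : ℕ}

open Classical in
/-- internal positions of window `k` with incomparable neighbours -/
noncomputable def inc (hm : m * (B + 2) ≤ N + 1) (Q : Rel (N + 1)) (k : Fin m)
    (g : Equiv.Perm (Fin (N + 1))) : Finset (Fin N) :=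
  Finset.univ.filter fun p : Fin N => k.val * (B + 2) ≤ p.val ∧ p.val < k.val * (B + 2) + B ∧
    ¬ Q (g p.castSucc) (g p.succ)

/-- three disjoint incomparable neighbour pairs made descents.
PROOF. Three of the positions of `inc` (first, third, fifth) have distances `≥ 2`; swap those which are ascents
(`PH43.sw_mem`; the pairs are disjoint, so the other two positions keep their letters); the result is `g * emb τ`,
in `LE Q`, with descents at three internal positions. -/
theorem three_des (hm : m * (B + 2) ≤ N + 1) {Q : Rel (N + 1)} {lab : Fin (N + 1) → ℕ}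
    (hn : Nat' Q lab) (k : Fin m) (g : Equiv.Perm (Fin (N + 1))) (hg : g ∈ LE Q)
    (h5 : 5 ≤ (inc hm Q k g).card) :
    ∃ τ : Equiv.Perm (Fin (B + 1)), g * emb (win_le hm k) τ ∈ LE Q ∧
      3 ≤ (Finset.univ.filter fun p : Fin N => k.val * (B + 2) ≤ p.val ∧
        p.val < k.val * (B + 2) + B ∧ p ∈ DS lab (g * emb (win_le hm k) τ)).card := by
  exact three_des58 hm hn k g hg h5

/-- PROOF. Outside the internal positions of the window only the two positions `o - 1` and `o + B` can differ
(template `SC25.FlipE2_des_le`), the sorted window has no internal descent. -/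
theorem des_srt_add (hm : m * (B + 2) ≤ N + 1) {lab : Fin (N + 1) → ℕ}
    (hi : Function.Injective lab) (k : Fin m) (π : Equiv.Perm (Fin (N + 1))) :
    des lab (srt hm lab k π) + (Finset.univ.filter fun p : Fin N => k.val * (B + 2) ≤ p.val ∧
        p.val < k.val * (B + 2) + B ∧ p ∈ DS lab π).card ≤ des lab π + 2 :=
  RichS60.des_srt_add hm k π

/-- PROOF. `three_des`, `des_srt_add` at `g' = g * emb τ` (`srt_emb`): `des (srt) + 1 ≤ des g'`; `bubble` at `g'` with
`v = des (srt) + 1`; the word is `srt k g * emb τ''` (`emb_mul`), in `LE Q`, so `τ'' ∈ Hset` (`mul_emb_mem`). -/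
theorem rich (hm : m * (B + 2) ≤ N + 1) {Q : Rel (N + 1)} {lab : Fin (N + 1) → ℕ}
    (hn : Nat' Q lab) (k : Fin m) (g : Equiv.Perm (Fin (N + 1))) (hg : g ∈ LE Q)
    (h5 : 5 ≤ (inc hm Q k g).card) : Flex hm Q lab k g :=
  RichS60.rich hm hn k g hg (three_des hm hn k g hg h5)

/-- PROOF. A descent is an incomparable neighbour pair. Descents inside flexible windows: at most `B` each; inside
the others at most `4` each (`rich`); at most `2 m` at the borders of windows (positions `o + B`, `o + B + 1`),
and fewer than `B + 2` behind the last window (`N + 1 < (m + 1)(B + 2)`). -/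
theorem des_le_Fx (hm : m * (B + 2) ≤ N + 1) (hm' : N + 1 < (m + 1) * (B + 2)) {Q : Rel (N + 1)}
    {lab : Fin (N + 1) → ℕ} (hn : Nat' Q lab) (g : Equiv.Perm (Fin (N + 1))) (hg : g ∈ LE Q) :
    des lab g ≤ Fx hm Q lab g * B + 6 * m + (B + 2) :=
  RichS60.des_le_Fx hm hm' hn g fun k h5 => rich hm hn k g hg h5

end Pool.TA43
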