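import Pool.Agent.TA43.Defs
import Pool.Agent.LA34.OmS

set_option autoImplicit false

/-!
# TA43/OmS: the strict order polynomial (from `LA34/OmS`)
-/

namespace Pool.TA43

open Pool.HB45 Pool.HM63 Pool.PH43 Pool.SC25 Pool.SC45

theorem Ms_succ {n : ℕ} (Q : Rel n) (m : ℕ) : (Ms Q (m + 1)).card = LA34.Os Q m := by
  unfold Ms LA34.Os
  congr

theorem Mp_succ {n : ℕ} (Q : Rel n) (m : ℕ) : (Mp Q (m + 1)).card = Om Q m := by
  unfold Mp Om
  congr

theorem os_card {N : ℕ} {Q : Rel (N + 1)} {lab : Fin (N + 1) → ℕ} (hn : Nat' Q lab) (M : ℕ) :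
    (Ms Q M).card = ∑ g ∈ LE Q, Nat.choose (M + des lab g) (N + 1) := by
  classical
  cases M with
  | zero =>
    have h1 : (Ms Q 0).card = 0 := by
      rw [Finset.card_eq_zero, Finset.eq_empty_iff_forall_notMem]
      intro f _
      exact (f 0).elim0
    rw [h1]
    symm
    refine Finset.sum_eq_zero fun g _ => Nat.choose_eq_zero_of_lt ?_
    have := om_des_le lab g
    omega
  | succ m =>
    rw [Ms_succ, LA34.Os_eq hn]

end Pool.TA43
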