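import Pool.Agent.TA43.OmLC
import Pool.Agent.TA43.OmS
import Pool.Agent.TA43.Half

set_option autoImplicit false

/-!
# TA43/Seq: the sequence `v` of the left and of the right side 
-/

namespace Pool.TA43

open Pool.HB45 Pool.HM63 Pool.PH43 Pool.SC25 Pool.SC45

/-- the left sequence `w_j` -/
noncomputable def vL {N : ℕ} (Q : Rel (N + 1)) (lab : Fin (N + 1) → ℕ) (j : ℕ) : ℝ := w Q lab j

/-- the right sequence `w_(N - k)` -/
noncomputable def vR {N : ℕ} (Q : Rel (N + 1)) (lab : Fin (N + 1) → ℕ) (k : ℕ) : ℝ :=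
  w Q lab (N - k)

/-- fibres of `des` -/
theorem sum_vL {N : ℕ} (Q : Rel (N + 1)) (lab : Fin (N + 1) → ℕ) (F : ℕ → ℝ) :
    ∑ i ∈ Finset.range (N + 1), vL Q lab i * F i = ∑ g ∈ LE Q, F (des lab g) := by
  classical
  have hmap : ∀ g ∈ LE Q, des lab g ∈ Finset.range (N + 1) := fun g _ =>
    Finset.mem_range.2 (Nat.lt_succ_of_le (om_des_le lab g))
  rw [← Finset.sum_fiberwise_of_maps_to hmap]
  refine Finset.sum_congr rfl fun i _ => ?_
  have h1 : ∑ g ∈ (LE Q).filter (fun g => des lab g = i), F (des lab g) =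
      ∑ g ∈ (LE Q).filter (fun g => des lab g = i), F i :=
    Finset.sum_congr rfl fun g hg => by rw [(Finset.mem_filter.1 hg).2]
  rw [h1, Finset.sum_const, nsmul_eq_mul]
  unfold vL w
  congr!

/-- fibres of `des`, reversed -/
theorem sum_vR {N : ℕ} (Q : Rel (N + 1)) (lab : Fin (N + 1) → ℕ) (F : ℕ → ℝ) :
    ∑ i ∈ Finset.range (N + 1), vR Q lab i * F i = ∑ g ∈ LE Q, F (N - des lab g) := by
  have h := sum_vL Q lab (fun i => F (N - i))
  rw [← h, ← Finset.sum_range_reflect]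
  refine Finset.sum_congr rfl fun i hi => ?_
  have hi' := Finset.mem_range.1 hi
  have e1 : N + 1 - 1 - i = N - i := by omega
  have e2 : N - (N - i) = i := by omega
  rw [e1]
  show (w Q lab (N - (N - i)) : ℝ) * F (N - i) = (w Q lab i : ℝ) * F (N - i)
  rw [e2]

/-- PROOF. `sum_vL`, `SC25.om_card` with `M = m + 1`. -/
theorem OV_left {N : ℕ} {Q : Rel (N + 1)} {lab : Fin (N + 1) → ℕ} (hn : Nat' Q lab) (m : ℕ) :
    OV N (vL Q lab) m = (Mp Q (m + 1)).card := by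
  unfold OV
  rw [sum_vL Q lab (fun i => ((N + 1 + m - i).choose (N + 1) : ℝ)), om_card hn (m + 1), Nat.cast_sum]
  refine Finset.sum_congr rfl fun g _ => ?_
  have e : N + 1 + m - des lab g = m + 1 + N - des lab g := by omega
  rw [e]

/-- PROOF. `sum_vR`, `os_card` with `M = m + 1`; `N + 1 + m - (N - des) = m + 1 + des`. -/
theorem OV_right {N : ℕ} {Q : Rel (N + 1)} {lab : Fin (N + 1) → ℕ} (hn : Nat' Q lab) (m : ℕ) :
    OV N (vR Q lab) m = (Ms Q (m + 1)).card := by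
  unfold OV
  rw [sum_vR Q lab (fun i => ((N + 1 + m - i).choose (N + 1) : ℝ)), os_card hn (m + 1), Nat.cast_sum]
  refine Finset.sum_congr rfl fun g _ => ?_
  have h1 := om_des_le lab g
  have e : N + 1 + m - (N - des lab g) = m + 1 + des lab g := by omega
  rw [e]

theorem lc_left {N : ℕ} {Q : Rel (N + 1)} {lab : Fin (N + 1) → ℕ} (hn : Nat' Q lab) (m : ℕ) :
    OV N (vL Q lab) m * OV N (vL Q lab) (m + 2) ≤ OV N (vL Q lab) (m + 1) ^ 2 := by
  rw [OV_left hn, OV_left hn, OV_left hn]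
  exact_mod_cast om_lc Q (m + 1)

theorem lc_right {N : ℕ} {Q : Rel (N + 1)} {lab : Fin (N + 1) → ℕ} (hn : Nat' Q lab) (m : ℕ) :
    OV N (vR Q lab) m * OV N (vR Q lab) (m + 2) ≤ OV N (vR Q lab) (m + 1) ^ 2 := by
  rw [OV_right hn, OV_right hn, OV_right hn]
  exact_mod_cast os_lc Q (m + 1)

theorem half_left {N : ℕ} {Q : Rel (N + 1)} {lab : Fin (N + 1) → ℕ} (hn : Nat' Q lab) (t : ℕ) :
    OV N (vL Q lab) (0 + t) ≤ 2 ^ (N + 1) * OV N (vL Q lab) (0 + t / 2) := by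
  rw [OV_left hn, OV_left hn, Nat.zero_add, Nat.zero_add]
  exact_mod_cast om_half Q t

theorem half_right {N β : ℕ} {Q : Rel (N + 1)} {κ lab : Fin (N + 1) → ℕ} (hκ : Lev (β + 1) Q κ)
    (hn : Nat' Q lab) (t : ℕ) :
    OV N (vR Q lab) (β + t) ≤ 2 ^ (N + 1) * OV N (vR Q lab) (β + t / 2) := by
  rw [OV_right hn, OV_right hn]
  exact_mod_cast os_half hκ t

end Pool.TA43
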