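import Pool.Agent.TA43.Win

set_option autoImplicit false

/-!
# TA43/SysS45: the flips of the windows form a system
-/

namespace Pool.TA43

open Pool.HB45 Pool.HM63 Pool.PH43 Pool.SC25 Pool.SC45

variable {N B m : ℕ}

theorem flex_same (hm : m * (B + 2) ≤ N + 1) (Q : Rel (N + 1)) {lab : Fin (N + 1) → ℕ}
    (hi : Function.Injective lab) (k : Fin m) (π : Equiv.Perm (Fin (N + 1)))
    (τ : Equiv.Perm (Fin (B + 1))) :
    Flex hm Q lab k (π * emb (win_le hm k) τ) ↔ Flex hm Q lab k π := by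
  unfold Flex
  rw [Hset_same hm Q hi]

theorem flex_other (hm : m * (B + 2) ≤ N + 1) (Q : Rel (N + 1)) (lab : Fin (N + 1) → ℕ)
    (k k' : Fin m) (hk : k' ≠ k) (π : Equiv.Perm (Fin (N + 1))) (τ : Equiv.Perm (Fin (B + 1))) :
    Flex hm Q lab k' (π * emb (win_le hm k) τ) ↔ Flex hm Q lab k' π := by
  unfold Flex
  rw [Hset_other hm Q lab k k' hk]

/-- the windows commute -/
theorem emb_comm' (hm : m * (B + 2) ≤ N + 1) (k k' : Fin m) (hk : k' ≠ k)
    (τ τ' : Equiv.Perm (Fin (B + 1))) :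
    emb (win_le hm k) τ * emb (win_le hm k') τ' = emb (win_le hm k') τ' * emb (win_le hm k) τ := by
  rcases win_disj B (fun h => hk (Fin.ext h) : k'.val ≠ k.val) with h | h
  · exact (emb_comm (win_le hm k') (win_le hm k) h τ' τ).symm
  · exact emb_comm (win_le hm k) (win_le hm k') h τ τ'

theorem hiw_same (hm : m * (B + 2) ≤ N + 1) (Q : Rel (N + 1)) {lab : Fin (N + 1) → ℕ}
    (hi : Function.Injective lab) (k : Fin m) (π : Equiv.Perm (Fin (N + 1)))
    (τ : Equiv.Perm (Fin (B + 1))) :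
    hiw hm Q lab k (π * emb (win_le hm k) τ) = hiw hm Q lab k π := by
  unfold hiw
  rw [Hset_same hm Q hi, srt_emb hm hi]

theorem hiw_other (hm : m * (B + 2) ≤ N + 1) (Q : Rel (N + 1)) (lab : Fin (N + 1) → ℕ)
    (k k' : Fin m) (hk : k' ≠ k) (π : Equiv.Perm (Fin (N + 1))) (τ : Equiv.Perm (Fin (B + 1))) :
    hiw hm Q lab k' (π * emb (win_le hm k) τ) = hiw hm Q lab k' π * emb (win_le hm k) τ := by
  unfold hiw
  rw [Hset_other hm Q lab k k' hk, srt_other hm lab k k' hk, mul_assoc, mul_assoc,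
    emb_comm' hm k k' hk]

/-- the state of a window does not see the other windows -/
theorem stw_other (hm : m * (B + 2) ≤ N + 1) (Q : Rel (N + 1)) (lab : Fin (N + 1) → ℕ)
    (k k' : Fin m) (hk : k' ≠ k) (π : Equiv.Perm (Fin (N + 1))) (τ : Equiv.Perm (Fin (B + 1))) :
    stw hm Q lab k' (π * emb (win_le hm k) τ) = stw hm Q lab k' π := by
  unfold stw
  rw [srt_other hm lab k k' hk, hiw_other hm Q lab k k' hk]
  simp only [mul_left_inj]
  by_cases hF : Flex hm Q lab k' π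
  · rw [if_pos hF, if_pos ((flex_other hm Q lab k k' hk π τ).2 hF)]
  · rw [if_neg hF, if_neg fun h => hF ((flex_other hm Q lab k k' hk π τ).1 h)]

theorem flw_eq (hm : m * (B + 2) ≤ N + 1) (Q : Rel (N + 1)) (lab : Fin (N + 1) → ℕ)
    (k : Fin m) (π : Equiv.Perm (Fin (N + 1))) :
    ∃ τ, flw hm Q lab k π = π * emb (win_le hm k) τ := by
  unfold flw
  split_ifs with h
  · refine ⟨(Tuple.sort fun i => lab (π (wpos (win_le hm k) i))) * pick (Hset hm Q lab k π), ?_⟩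
    unfold hiw srt
    rw [emb_mul, mul_assoc]
  · exact ⟨_, rfl⟩

theorem srt_eq (hm : m * (B + 2) ≤ N + 1) (lab : Fin (N + 1) → ℕ)
    (k : Fin m) (π : Equiv.Perm (Fin (N + 1))) :
    ∃ τ, srt hm lab k π = π * emb (win_le hm k) τ := ⟨_, rfl⟩

theorem hiw_eq (hm : m * (B + 2) ≤ N + 1) (Q : Rel (N + 1)) (lab : Fin (N + 1) → ℕ)
    (k : Fin m) (π : Equiv.Perm (Fin (N + 1))) :
    ∃ τ, hiw hm Q lab k π = π * emb (win_le hm k) τ := by
  refine ⟨(Tuple.sort fun i => lab (π (wpos (win_le hm k) i))) * pick (Hset hm Q lab k π), ?_⟩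
  unfold hiw srt
  rw [emb_mul, mul_assoc]

theorem srt_srt (hm : m * (B + 2) ≤ N + 1) {lab : Fin (N + 1) → ℕ} (hi : Function.Injective lab)
    (k : Fin m) (π : Equiv.Perm (Fin (N + 1))) :
    srt hm lab k (srt hm lab k π) = srt hm lab k π := by
  obtain ⟨τ, h⟩ := srt_eq hm lab k π
  rw [h, srt_emb hm hi, h]

theorem srt_hiw (hm : m * (B + 2) ≤ N + 1) (Q : Rel (N + 1)) {lab : Fin (N + 1) → ℕ}
    (hi : Function.Injective lab) (k : Fin m) (π : Equiv.Perm (Fin (N + 1))) :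
    srt hm lab k (hiw hm Q lab k π) = srt hm lab k π := by
  obtain ⟨τ, h⟩ := hiw_eq hm Q lab k π
  rw [h, srt_emb hm hi]

theorem hiw_srt (hm : m * (B + 2) ≤ N + 1) (Q : Rel (N + 1)) {lab : Fin (N + 1) → ℕ}
    (hi : Function.Injective lab) (k : Fin m) (π : Equiv.Perm (Fin (N + 1))) :
    hiw hm Q lab k (srt hm lab k π) = hiw hm Q lab k π := by
  obtain ⟨τ, h⟩ := srt_eq hm lab k π
  rw [h, hiw_same hm Q hi]

theorem hiw_hiw (hm : m * (B + 2) ≤ N + 1) (Q : Rel (N + 1)) {lab : Fin (N + 1) → ℕ}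
    (hi : Function.Injective lab) (k : Fin m) (π : Equiv.Perm (Fin (N + 1))) :
    hiw hm Q lab k (hiw hm Q lab k π) = hiw hm Q lab k π := by
  obtain ⟨τ, h⟩ := hiw_eq hm Q lab k π
  rw [h, hiw_same hm Q hi, h]

theorem flex_srt (hm : m * (B + 2) ≤ N + 1) (Q : Rel (N + 1)) {lab : Fin (N + 1) → ℕ}
    (hi : Function.Injective lab) (k : Fin m) (π : Equiv.Perm (Fin (N + 1))) :
    Flex hm Q lab k (srt hm lab k π) ↔ Flex hm Q lab k π := by
  obtain ⟨τ, h⟩ := srt_eq hm lab k π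
  rw [h, flex_same hm Q hi]

theorem flex_hiw (hm : m * (B + 2) ≤ N + 1) (Q : Rel (N + 1)) {lab : Fin (N + 1) → ℕ}
    (hi : Function.Injective lab) (k : Fin m) (π : Equiv.Perm (Fin (N + 1))) :
    Flex hm Q lab k (hiw hm Q lab k π) ↔ Flex hm Q lab k π := by
  obtain ⟨τ, h⟩ := hiw_eq hm Q lab k π
  rw [h, flex_same hm Q hi]

/-- the high word has one descent more -/
theorem des_hiw (hm : m * (B + 2) ≤ N + 1) (Q : Rel (N + 1)) (lab : Fin (N + 1) → ℕ)
    (k : Fin m) (π : Equiv.Perm (Fin (N + 1))) (hF : Flex hm Q lab k π) :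
    des lab (hiw hm Q lab k π) = des lab (srt hm lab k π) + 1 :=
  (mem_Hset.1 (pick_mem hF)).2

theorem hiw_ne_srt (hm : m * (B + 2) ≤ N + 1) (Q : Rel (N + 1)) (lab : Fin (N + 1) → ℕ)
    (k : Fin m) (π : Equiv.Perm (Fin (N + 1))) (hF : Flex hm Q lab k π) :
    hiw hm Q lab k π ≠ srt hm lab k π := by
  intro h
  have h1 := des_hiw hm Q lab k π hF
  rw [h] at h1
  omega

theorem hiw_mem (hm : m * (B + 2) ≤ N + 1) {Q : Rel (N + 1)} {lab : Fin (N + 1) → ℕ}
    (hn : Nat' Q lab) (k : Fin m) (π : Equiv.Perm (Fin (N + 1))) (hπ : π ∈ LE Q)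
    (hF : Flex hm Q lab k π) : hiw hm Q lab k π ∈ LE Q := by
  unfold hiw
  rw [mul_emb_mem (win_le hm k) _ (srt_mem hm hn k π hπ)]
  exact (mem_Hset.1 (pick_mem hF)).1

/-- the states -/
theorem stw_srt (hm : m * (B + 2) ≤ N + 1) {Q : Rel (N + 1)} {lab : Fin (N + 1) → ℕ}
    (hi : Function.Injective lab) (k : Fin m) (π : Equiv.Perm (Fin (N + 1)))
    (hF : Flex hm Q lab k π) : stw hm Q lab k (srt hm lab k π) = 1 := by
  unfold stw
  rw [if_pos ((flex_srt hm Q hi k π).2 hF), if_pos (srt_srt hm hi k π).symm]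

theorem stw_hiw (hm : m * (B + 2) ≤ N + 1) {Q : Rel (N + 1)} {lab : Fin (N + 1) → ℕ}
    (hi : Function.Injective lab) (k : Fin m) (π : Equiv.Perm (Fin (N + 1)))
    (hF : Flex hm Q lab k π) : stw hm Q lab k (hiw hm Q lab k π) = 2 := by
  unfold stw
  rw [if_pos ((flex_hiw hm Q hi k π).2 hF), if_neg, if_pos (hiw_hiw hm Q hi k π).symm]
  rw [srt_hiw hm Q hi]
  exact hiw_ne_srt hm Q lab k π hF

theorem stw_one {hm : m * (B + 2) ≤ N + 1} {Q : Rel (N + 1)} {lab : Fin (N + 1) → ℕ}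
    {k : Fin m} {π : Equiv.Perm (Fin (N + 1))} (h : stw hm Q lab k π = 1) :
    Flex hm Q lab k π ∧ π = srt hm lab k π := by
  unfold stw at h
  split_ifs at h with h1 h2 h3
  · exact ⟨h1, h2⟩
  · omega

theorem stw_two {hm : m * (B + 2) ≤ N + 1} {Q : Rel (N + 1)} {lab : Fin (N + 1) → ℕ}
    {k : Fin m} {π : Equiv.Perm (Fin (N + 1))} (h : stw hm Q lab k π = 2) :
    Flex hm Q lab k π ∧ π = hiw hm Q lab k π ∧ π ≠ srt hm lab k π := by
  unfold stw at h
  split_ifs at h with h1 h2 h3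
  · omega
  · exact ⟨h1, h3, h2⟩

theorem stw_cases (hm : m * (B + 2) ≤ N + 1) (Q : Rel (N + 1)) (lab : Fin (N + 1) → ℕ)
    (k : Fin m) (π : Equiv.Perm (Fin (N + 1))) :
    stw hm Q lab k π = 0 ∨ stw hm Q lab k π = 1 ∨ stw hm Q lab k π = 2 := by
  unfold stw
  split_ifs <;> simp

theorem flw_one {hm : m * (B + 2) ≤ N + 1} {Q : Rel (N + 1)} {lab : Fin (N + 1) → ℕ}
    {k : Fin m} {π : Equiv.Perm (Fin (N + 1))} (h : stw hm Q lab k π = 1) :
    flw hm Q lab k π = hiw hm Q lab k π := by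
  unfold flw
  rw [if_pos (stw_one h).2]

theorem flw_two {hm : m * (B + 2) ≤ N + 1} {Q : Rel (N + 1)} {lab : Fin (N + 1) → ℕ}
    {k : Fin m} {π : Equiv.Perm (Fin (N + 1))} (h : stw hm Q lab k π = 2) :
    flw hm Q lab k π = srt hm lab k π := by
  unfold flw
  rw [if_neg (stw_two h).2.2]

open Classical in
theorem win_sys45 (hm : m * (B + 2) ≤ N + 1) {Q : Rel (N + 1)} {lab : Fin (N + 1) → ℕ}
    (hn : Nat' Q lab) (F0 : ℕ) :
    FlipSys ((LE Q).filter fun g => F0 ≤ Fx hm Q lab g) (des lab) (stw hm Q lab)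
      (flw hm Q lab) := by
  have hi := hn.inj
  have hlo : ∀ (k : Fin m) (g : Equiv.Perm (Fin (N + 1))), stw hm Q lab k g = 1 →
      stw hm Q lab k (flw hm Q lab k g) = 2 ∧ des lab (flw hm Q lab k g) = des lab g + 1 := by
    intro k g h
    obtain ⟨hF, h2⟩ := stw_one h
    rw [flw_one h]
    refine ⟨stw_hiw hm hi k g hF, ?_⟩
    rw [des_hiw hm Q lab k g hF, ← h2]
  have hhi : ∀ (k : Fin m) (g : Equiv.Perm (Fin (N + 1))), stw hm Q lab k g = 2 →
      stw hm Q lab k (flw hm Q lab k g) = 1 ∧ des lab (flw hm Q lab k g) + 1 = des lab g := by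
    intro k g h
    obtain ⟨hF, h2, h3⟩ := stw_two h
    rw [flw_two h]
    refine ⟨stw_srt hm hi k g hF, ?_⟩
    rw [← des_hiw hm Q lab k g hF, ← h2]
  refine ⟨?_, ?_, ?_, ?_, ?_, ?_⟩
  · intro k g _
    rcases stw_cases hm Q lab k g with h | h | h <;> omega
  · intro k g hg h0
    rw [Finset.mem_filter] at hg ⊢
    refine ⟨?_, ?_⟩
    · rcases stw_cases hm Q lab k g with h | h | h
      · exact absurd h h0
      · rw [flw_one h]
        exact hiw_mem hm hn k g hg.1 (stw_one h).1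
      · rw [flw_two h]
        exact srt_mem hm hn k g hg.1
    · obtain ⟨τ, hτ⟩ := flw_eq hm Q lab k g
      rw [hτ, Fx_emb hm Q hi]
      exact hg.2
  · intro k g hg h0
    rcases stw_cases hm Q lab k g with h | h | h
    · exact absurd h h0
    · have h4 := hlo k g h
      rw [flw_two h4.1, flw_one h, srt_hiw hm Q hi]
      exact (stw_one h).2.symm
    · have h4 := hhi k g h
      rw [flw_one h4.1, flw_two h, hiw_srt hm Q hi]
      exact (stw_two h).2.1.symm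
  · intro k g _ h
    exact hlo k g h
  · intro k g _ h
    exact hhi k g h
  · intro k k' hk g _ _
    obtain ⟨τ, hτ⟩ := flw_eq hm Q lab k g
    rw [hτ, stw_other hm Q lab k k' hk]

end Pool.TA43
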