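import Pool.Agent.TA43.SysS45

set_option autoImplicit false

/-!
# TA43/SysW45: the window bound
-/

namespace Pool.TA43

open Pool.HB45 Pool.HM63 Pool.PH43 Pool.SC25 Pool.SC45

variable {N B m : ℕ}

open Classical in
/-- factor of a marked window -/
noncomputable def fa (hm : m * (B + 2) ≤ N + 1) (Q : Rel (N + 1)) (lab : Fin (N + 1) → ℕ) (γ : ℝ)
    (k : Fin m) (π : Equiv.Perm (Fin (N + 1))) : ℝ := if stw hm Q lab k π ≠ 0 then γ else 1

open Classical in
/-- factor of a flexible window -/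
noncomputable def fb (hm : m * (B + 2) ≤ N + 1) (Q : Rel (N + 1)) (lab : Fin (N + 1) → ℕ) (q : ℝ)
    (k : Fin m) (π : Equiv.Perm (Fin (N + 1))) : ℝ := if Flex hm Q lab k π then q else 1

theorem fa_other (hm : m * (B + 2) ≤ N + 1) (Q : Rel (N + 1)) (lab : Fin (N + 1) → ℕ) (γ : ℝ)
    (k k' : Fin m) (hk : k' ≠ k) (π : Equiv.Perm (Fin (N + 1))) (τ : Equiv.Perm (Fin (B + 1))) :
    fa hm Q lab γ k' (π * emb (win_le hm k) τ) = fa hm Q lab γ k' π := by
  unfold fa
  rw [stw_other hm Q lab k k' hk]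

theorem fb_same (hm : m * (B + 2) ≤ N + 1) (Q : Rel (N + 1)) {lab : Fin (N + 1) → ℕ}
    (hi : Function.Injective lab) (q : ℝ)
    (k : Fin m) (π : Equiv.Perm (Fin (N + 1))) (τ : Equiv.Perm (Fin (B + 1))) :
    fb hm Q lab q k (π * emb (win_le hm k) τ) = fb hm Q lab q k π := by
  unfold fb
  by_cases hF : Flex hm Q lab k π
  · rw [if_pos hF, if_pos ((flex_same hm Q hi k π τ).2 hF)]
  · rw [if_neg hF, if_neg fun h => hF ((flex_same hm Q hi k π τ).1 h)]

theorem fb_other (hm : m * (B + 2) ≤ N + 1) (Q : Rel (N + 1)) (lab : Fin (N + 1) → ℕ) (q : ℝ)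
    (k k' : Fin m) (hk : k' ≠ k) (π : Equiv.Perm (Fin (N + 1))) (τ : Equiv.Perm (Fin (B + 1))) :
    fb hm Q lab q k' (π * emb (win_le hm k) τ) = fb hm Q lab q k' π := by
  unfold fb
  by_cases hF : Flex hm Q lab k' π
  · rw [if_pos hF, if_pos ((flex_other hm Q lab k k' hk π τ).2 hF)]
  · rw [if_neg hF, if_neg fun h => hF ((flex_other hm Q lab k k' hk π τ).1 h)]

theorem fa_nonneg (hm : m * (B + 2) ≤ N + 1) (Q : Rel (N + 1)) (lab : Fin (N + 1) → ℕ) {γ : ℝ}
    (h : 0 ≤ γ) (k : Fin m) (π : Equiv.Perm (Fin (N + 1))) : 0 ≤ fa hm Q lab γ k π := by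
  unfold fa
  split_ifs
  · exact h
  · exact zero_le_one

theorem fb_nonneg (hm : m * (B + 2) ≤ N + 1) (Q : Rel (N + 1)) (lab : Fin (N + 1) → ℕ) {γ : ℝ}
    (h : 0 ≤ γ) (k : Fin m) (π : Equiv.Perm (Fin (N + 1))) : 0 ≤ fb hm Q lab γ k π := by
  unfold fb
  split_ifs
  · exact h
  · exact zero_le_one

theorem fa_le (hm : m * (B + 2) ≤ N + 1) (Q : Rel (N + 1)) (lab : Fin (N + 1) → ℕ) {γ : ℝ}
    (h : γ ≤ 1) (k : Fin m) (π : Equiv.Perm (Fin (N + 1))) : fa hm Q lab γ k π ≤ 1 := by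
  unfold fa
  split_ifs
  · exact h
  · exact le_refl _

/-- one class of rearrangements of a window -/
theorem class_le45 (hm : m * (B + 2) ≤ N + 1) {Q : Rel (N + 1)} {lab : Fin (N + 1) → ℕ}
    (hn : Nat' Q lab) (d : Equiv.Perm (Fin (N + 1)) → ℕ)
    (hd : ∀ (k : Fin m) (π : Equiv.Perm (Fin (N + 1))) (τ τ' : Equiv.Perm (Fin (B + 1))),
      d (π * emb (win_le hm k) τ) ≤ d (π * emb (win_le hm k) τ') + (B + 2))
    (r γ : ℝ) (hr0 : 0 < r) (hr1 : r ≤ 1) (hγ1 : γ ≤ 1) (k : Fin m)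
    (π : Equiv.Perm (Fin (N + 1))) (hπ : π ∈ LE Q) :
    ∑ τ ∈ LE (winRel (win_le hm k) Q π), r ^ d (π * emb (win_le hm k) τ) *
        fa hm Q lab γ k (π * emb (win_le hm k) τ) ≤
      ∑ τ ∈ LE (winRel (win_le hm k) Q π), r ^ d (π * emb (win_le hm k) τ) *
        fb hm Q lab (1 - (1 - γ) * (r ^ (B + 2) / ((B + 1).factorial : ℝ))) k
          (π * emb (win_le hm k) τ) := by
  by_cases hF : Flex hm Q lab k π
  · obtain ⟨τ0, hτ0⟩ := srt_eq hm lab k π
    have hmem : τ0 ∈ LE (winRel (win_le hm k) Q π) := by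
      rw [← mul_emb_mem (win_le hm k) π hπ, ← hτ0]
      exact srt_mem hm hn k π hπ
    have hfa : fa hm Q lab γ k (π * emb (win_le hm k) τ0) = γ := by
      unfold fa
      rw [← hτ0, stw_srt hm hn.inj k π hF, if_pos one_ne_zero]
    have hκ : (r ^ (B + 2) / ((B + 1).factorial : ℝ)) *
        ∑ τ ∈ LE (winRel (win_le hm k) Q π), r ^ d (π * emb (win_le hm k) τ) ≤
        r ^ d (π * emb (win_le hm k) τ0) := by
      have h1 : ∀ τ ∈ LE (winRel (win_le hm k) Q π),
          r ^ (B + 2) * r ^ d (π * emb (win_le hm k) τ) ≤ r ^ d (π * emb (win_le hm k) τ0) := by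
        intro τ _
        rw [← pow_add]
        refine pow_le_pow_of_le_one hr0.le hr1 ?_
        have := hd k π τ0 τ
        omega
      have h2 := Finset.sum_le_card_nsmul _ _ _ h1
      rw [nsmul_eq_mul, ← Finset.mul_sum] at h2
      have h3 : ((LE (winRel (win_le hm k) Q π)).card : ℝ) ≤ ((B + 1).factorial : ℝ) := by
        have h4 := Finset.card_le_univ (LE (winRel (win_le hm k) Q π))
        rw [Fintype.card_perm, Fintype.card_fin] at h4
        exact_mod_cast h4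
      have h5 : (0 : ℝ) < ((B + 1).factorial : ℝ) := by exact_mod_cast Nat.factorial_pos _
      rw [div_mul_eq_mul_div, div_le_iff₀ h5]
      refine h2.trans ?_
      rw [mul_comm]
      exact mul_le_mul_of_nonneg_left h3 (pow_nonneg hr0.le _)
    have hfb : ∀ τ ∈ LE (winRel (win_le hm k) Q π), r ^ d (π * emb (win_le hm k) τ) *
        fb hm Q lab (1 - (1 - γ) * (r ^ (B + 2) / ((B + 1).factorial : ℝ))) k
          (π * emb (win_le hm k) τ) = r ^ d (π * emb (win_le hm k) τ) *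
          (1 - (1 - γ) * (r ^ (B + 2) / ((B + 1).factorial : ℝ))) := by
      intro τ _
      rw [fb_same hm Q hn.inj]
      unfold fb
      rw [if_pos hF]
    rw [Finset.sum_congr rfl hfb, ← Finset.sum_mul]
    have h6 : ∑ τ ∈ LE (winRel (win_le hm k) Q π), r ^ d (π * emb (win_le hm k) τ) *
        fa hm Q lab γ k (π * emb (win_le hm k) τ) ≤
        ∑ τ ∈ LE (winRel (win_le hm k) Q π), r ^ d (π * emb (win_le hm k) τ) -
          (1 - γ) * r ^ d (π * emb (win_le hm k) τ0) := by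
      have h7 : (1 - γ) * r ^ d (π * emb (win_le hm k) τ0) ≤
          ∑ τ ∈ LE (winRel (win_le hm k) Q π), r ^ d (π * emb (win_le hm k) τ) *
            (1 - fa hm Q lab γ k (π * emb (win_le hm k) τ)) := by
        have h8 := Finset.single_le_sum (f := fun τ => r ^ d (π * emb (win_le hm k) τ) *
            (1 - fa hm Q lab γ k (π * emb (win_le hm k) τ)))
          (fun τ _ => mul_nonneg (pow_nonneg hr0.le _)
            (sub_nonneg.2 (fa_le hm Q lab hγ1 k _))) hmem
        simp only [hfa] at h8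
        linarith
      have h9 : ∑ τ ∈ LE (winRel (win_le hm k) Q π), r ^ d (π * emb (win_le hm k) τ) *
            (1 - fa hm Q lab γ k (π * emb (win_le hm k) τ)) =
          ∑ τ ∈ LE (winRel (win_le hm k) Q π), r ^ d (π * emb (win_le hm k) τ) -
          ∑ τ ∈ LE (winRel (win_le hm k) Q π), r ^ d (π * emb (win_le hm k) τ) *
            fa hm Q lab γ k (π * emb (win_le hm k) τ) := by
        rw [← Finset.sum_sub_distrib]
        exact Finset.sum_congr rfl fun τ _ => by ring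
      linarith
    have h10 := mul_le_mul_of_nonneg_left hκ (sub_nonneg.2 hγ1)
    nlinarith
  · refine Finset.sum_le_sum fun τ _ => le_of_eq ?_
    have h1 : fa hm Q lab γ k (π * emb (win_le hm k) τ) = 1 := by
      have h2 : stw hm Q lab k (π * emb (win_le hm k) τ) = 0 := by
        unfold stw
        rw [if_neg fun h => hF ((flex_same hm Q hn.inj k π τ).1 h)]
      unfold fa
      rw [h2, if_neg fun h => h rfl]
    have h3 : fb hm Q lab (1 - (1 - γ) * (r ^ (B + 2) / ((B + 1).factorial : ℝ))) k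
          (π * emb (win_le hm k) τ) = 1 := by
      rw [fb_same hm Q hn.inj]
      unfold fb
      rw [if_neg hF]
    rw [h1, h3]

/-- one window -/
theorem one_win45 (hm : m * (B + 2) ≤ N + 1) {Q : Rel (N + 1)} {lab : Fin (N + 1) → ℕ}
    (hn : Nat' Q lab) (d : Equiv.Perm (Fin (N + 1)) → ℕ)
    (hd : ∀ (k : Fin m) (π : Equiv.Perm (Fin (N + 1))) (τ τ' : Equiv.Perm (Fin (B + 1))),
      d (π * emb (win_le hm k) τ) ≤ d (π * emb (win_le hm k) τ') + (B + 2))
    (r γ : ℝ) (hr0 : 0 < r) (hr1 : r ≤ 1) (hγ1 : γ ≤ 1) (k : Fin m)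
    (c : Equiv.Perm (Fin (N + 1)) → ℝ) (hc0 : ∀ π, 0 ≤ c π)
    (hc : ∀ (π : Equiv.Perm (Fin (N + 1))) (τ : Equiv.Perm (Fin (B + 1))),
      c (π * emb (win_le hm k) τ) = c π) :
    ∑ π ∈ LE Q, c π * (r ^ d π * fa hm Q lab γ k π) ≤
      ∑ π ∈ LE Q, c π * (r ^ d π *
        fb hm Q lab (1 - (1 - γ) * (r ^ (B + 2) / ((B + 1).factorial : ℝ))) k π) := by
  rw [avg (win_le hm k) (fun π => c π * (r ^ d π * fa hm Q lab γ k π)),
    avg (win_le hm k) (fun π => c π * (r ^ d π *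
        fb hm Q lab (1 - (1 - γ) * (r ^ (B + 2) / ((B + 1).factorial : ℝ))) k π))]
  refine Finset.sum_le_sum fun π hπ => ?_
  rw [smul_eq_mul, smul_eq_mul]
  refine mul_le_mul_of_nonneg_left ?_ (inv_nonneg.2 (Nat.cast_nonneg _))
  simp only [hc]
  rw [← Finset.mul_sum, ← Finset.mul_sum]
  exact mul_le_mul_of_nonneg_left
    (class_le45 hm hn d hd r γ hr0 hr1 hγ1 k π hπ) (hc0 π)

open Classical in
theorem windows_le45 (hm : m * (B + 2) ≤ N + 1) {Q : Rel (N + 1)} {lab : Fin (N + 1) → ℕ}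
    (hn : Nat' Q lab) (d : Equiv.Perm (Fin (N + 1)) → ℕ)
    (hd : ∀ (k : Fin m) (π : Equiv.Perm (Fin (N + 1))) (τ τ' : Equiv.Perm (Fin (B + 1))),
      d (π * emb (win_le hm k) τ) ≤ d (π * emb (win_le hm k) τ') + (B + 2))
    (r γ : ℝ) (hr0 : 0 < r) (hr1 : r ≤ 1) (hγ0 : 0 ≤ γ) (hγ1 : γ ≤ 1) (F0 : ℕ) :
    ∑ g ∈ (LE Q).filter (fun g => F0 ≤ Fx hm Q lab g), r ^ d g * γ ^ mk (stw hm Q lab) g ≤
      (1 - (1 - γ) * (r ^ (B + 2) / ((B + 1).factorial : ℝ))) ^ F0 * ∑ g ∈ LE Q, r ^ d g := by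
  set q : ℝ := 1 - (1 - γ) * (r ^ (B + 2) / ((B + 1).factorial : ℝ)) with hq
  have h5 : (1 : ℝ) ≤ ((B + 1).factorial : ℝ) := by
    exact_mod_cast Nat.succ_le_of_lt (Nat.factorial_pos (B + 1))
  have hκ0 : 0 ≤ r ^ (B + 2) / ((B + 1).factorial : ℝ) :=
    div_nonneg (pow_nonneg hr0.le _) (by linarith)
  have hκ1 : r ^ (B + 2) / ((B + 1).factorial : ℝ) ≤ 1 := by
    rw [div_le_one (by linarith)]
    exact (pow_le_one₀ hr0.le hr1).trans h5
  have hq0 : 0 ≤ q := by
    rw [hq]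
    nlinarith
  have hq1 : q ≤ 1 := by
    rw [hq]
    nlinarith
  let ι : Equiv.Perm (Fin (N + 1)) → ℝ := fun g => if F0 ≤ Fx hm Q lab g then 1 else 0
  have hι0 : ∀ g, 0 ≤ ι g := fun g => by
    change 0 ≤ (if F0 ≤ Fx hm Q lab g then (1 : ℝ) else 0)
    split_ifs <;> norm_num
  have hι : ∀ (k : Fin m) (π : Equiv.Perm (Fin (N + 1))) (τ : Equiv.Perm (Fin (B + 1))),
      ι (π * emb (win_le hm k) τ) = ι π := by
    intro k π τ
    change (if F0 ≤ Fx hm Q lab (π * emb (win_le hm k) τ) then (1 : ℝ) else 0) =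
      if F0 ≤ Fx hm Q lab π then 1 else 0
    rw [Fx_emb hm Q hn.inj]
  have key : ∀ K : Finset (Fin m),
      ∑ π ∈ LE Q, ι π * (r ^ d π * ∏ k, fa hm Q lab γ k π) ≤
      ∑ π ∈ LE Q, ι π * (r ^ d π * ((∏ k ∈ K, fb hm Q lab q k π) *
        ∏ k ∈ Kᶜ, fa hm Q lab γ k π)) := by
    intro K
    induction K using Finset.induction_on with
    | empty =>
      refine le_of_eq (Finset.sum_congr rfl fun π _ => ?_)
      rw [Finset.prod_empty, one_mul, Finset.compl_empty]
    | insert k K hk ih =>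
      refine ih.trans ?_
      have hKc : Kᶜ = insert k (insert k K)ᶜ := by
        ext l
        simp only [Finset.mem_compl, Finset.mem_insert]
        constructor
        · intro hl
          by_cases h : l = k
          · exact Or.inl h
          · exact Or.inr fun h' => h'.elim h hl
        · rintro (rfl | h)
          · exact hk
          · exact fun h' => h (Or.inr h')
      have hkc : k ∉ (insert k K)ᶜ := by simp
      have h1 := one_win45 hm hn d hd r γ hr0 hr1 hγ1 k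
        (fun π => ι π * ((∏ l ∈ K, fb hm Q lab q l π) *
          ∏ l ∈ (insert k K)ᶜ, fa hm Q lab γ l π))
        (fun π => mul_nonneg (hι0 π) (mul_nonneg
          (Finset.prod_nonneg fun l _ => fb_nonneg hm Q lab hq0 l π)
          (Finset.prod_nonneg fun l _ => fa_nonneg hm Q lab hγ0 l π)))
        (fun π τ => by
          have h2 : ∏ l ∈ K, fb hm Q lab q l (π * emb (win_le hm k) τ) =
              ∏ l ∈ K, fb hm Q lab q l π := Finset.prod_congr rfl fun l hl =>
            fb_other hm Q lab q k l (fun h => hk (h ▸ hl)) π τ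
          have h3 : ∏ l ∈ (insert k K)ᶜ, fa hm Q lab γ l (π * emb (win_le hm k) τ) =
              ∏ l ∈ (insert k K)ᶜ, fa hm Q lab γ l π := Finset.prod_congr rfl fun l hl =>
            fa_other hm Q lab γ k l (fun h => hkc (h ▸ hl)) π τ
          simp only [h2, h3, hι k π τ])
      calc ∑ π ∈ LE Q, ι π * (r ^ d π * ((∏ k ∈ K, fb hm Q lab q k π) *
            ∏ k ∈ Kᶜ, fa hm Q lab γ k π))
          = ∑ π ∈ LE Q, (ι π * ((∏ l ∈ K, fb hm Q lab q l π) *
            ∏ l ∈ (insert k K)ᶜ, fa hm Q lab γ l π)) * (r ^ d π * fa hm Q lab γ k π) := by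
            refine Finset.sum_congr rfl fun π _ => ?_
            rw [hKc, Finset.prod_insert hkc]
            ring
        _ ≤ _ := h1
        _ = ∑ π ∈ LE Q, ι π * (r ^ d π * ((∏ l ∈ insert k K, fb hm Q lab q l π) *
            ∏ l ∈ (insert k K)ᶜ, fa hm Q lab γ l π)) := by
            refine Finset.sum_congr rfl fun π _ => ?_
            rw [Finset.prod_insert hk]
            ring
  have h := key Finset.univ
  have hL : ∑ g ∈ (LE Q).filter (fun g => F0 ≤ Fx hm Q lab g),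
      r ^ d g * γ ^ mk (stw hm Q lab) g =
      ∑ π ∈ LE Q, ι π * (r ^ d π * ∏ k, fa hm Q lab γ k π) := by
    rw [Finset.sum_filter]
    refine Finset.sum_congr rfl fun π _ => ?_
    change _ = (if F0 ≤ Fx hm Q lab π then (1 : ℝ) else 0) * _
    split_ifs with h1
    · rw [one_mul]
      congr 1
      unfold fa mk
      rw [Finset.prod_ite, Finset.prod_const, Finset.prod_const_one, mul_one]
    · rw [zero_mul]
  rw [hL]
  refine h.trans ?_
  rw [Finset.mul_sum]
  refine Finset.sum_le_sum fun π _ => ?_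
  rw [Finset.compl_univ, Finset.prod_empty, mul_one]
  change (if F0 ≤ Fx hm Q lab π then (1 : ℝ) else 0) * _ ≤ _
  have hr : 0 ≤ r ^ d π := pow_nonneg hr0.le _
  split_ifs with h1
  · have h2 : ∏ k, fb hm Q lab q k π = q ^ Fx hm Q lab π := by
      unfold fb Fx
      rw [Finset.prod_ite, Finset.prod_const, Finset.prod_const_one, mul_one]
    rw [one_mul, h2, mul_comm]
    exact mul_le_mul_of_nonneg_right (pow_le_pow_of_le_one hq0 hq1 h1) hr
  · rw [zero_mul]
    exact mul_nonneg (pow_nonneg hq0 _) hr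

end Pool.TA43
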