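import Pool.Agent.TA43.Win
import Pool.Agent.TA43.SysS45
import Pool.Agent.TA43.SysW45

set_option autoImplicit false

/-!
# TA43/Sys: the flips of the windows form a system, and its window bound (STUB)
-/

namespace Pool.TA43

open Pool.HB45 Pool.HM63 Pool.PH43 Pool.SC25 Pool.SC45

variable {N B m : ℕ}

open Classical in
/-- PROOF. `srt k π = π * emb τ0`, `hiw k π = π * emb (τ0 * pick)`. Same window: `srt_emb`, `Hset_same` (so `hiw k` is the
same for all words of the class), `pick_mem`, `mem_Hset` (`hiw ≠ srt` because of `des`). Other window `k'`: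
`srt_other`, `Hset_other`, `emb_comm`: `π * emb τ = srt k' (π * emb τ)` iff `π = srt k' π`, the same for `hiw`.
Membership: `srt_mem`, `mul_emb_mem`, `Fx_emb`. -/
theorem win_sys (hm : m * (B + 2) ≤ N + 1) {Q : Rel (N + 1)} {lab : Fin (N + 1) → ℕ}
    (hn : Nat' Q lab) (F0 : ℕ) :
    FlipSys ((LE Q).filter fun g => F0 ≤ Fx hm Q lab g) (des lab) (stw hm Q lab)
      (flw hm Q lab) :=
  win_sys45 hm hn F0

open Classical in
/-- THE WINDOW BOUND. PROOF. Induction over the set `K` of windows already treated: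
`Φ_K = Π_(k ∈ K) q^[Flex k] Π_(k ∉ K) γ^[stw k ≠ 0]`, `q = 1 - (1 - γ) κ`, `κ = r^(B+2)/(B+1)!`; claim
`∑_(F0 ≤ Fx) r^d Φ_K` increases with `K`. One window: average over the class (`HB45.avg`; template
`HM63.windows_le`, `SC25/OneWin43`); in a flexible class `∑_τ r^d γ^[stw k ≠ 0] ≤ ∑_τ r^d - (1 - γ) r^(d (srt))`
(the sorted word is marked) and `r^(d (srt)) ≥ r^(B+2) r^(d τ)` for each of at most `(B+1)!` words `τ` (`hd`).
Other windows: `Hset_other`, so `stw k'` is constant on the class (as in `win_sys`). At the end `q^Fx ≤ q^F0`. -/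
theorem windows_le (hm : m * (B + 2) ≤ N + 1) {Q : Rel (N + 1)} {lab : Fin (N + 1) → ℕ}
    (hn : Nat' Q lab) (d : Equiv.Perm (Fin (N + 1)) → ℕ)
    (hd : ∀ (k : Fin m) (π : Equiv.Perm (Fin (N + 1))) (τ τ' : Equiv.Perm (Fin (B + 1))),
      d (π * emb (win_le hm k) τ) ≤ d (π * emb (win_le hm k) τ') + (B + 2))
    (r γ : ℝ) (hr0 : 0 < r) (hr1 : r ≤ 1) (hγ0 : 0 ≤ γ) (hγ1 : γ ≤ 1) (F0 : ℕ) :
    ∑ g ∈ (LE Q).filter (fun g => F0 ≤ Fx hm Q lab g), r ^ d g * γ ^ mk (stw hm Q lab) g ≤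
      (1 - (1 - γ) * (r ^ (B + 2) / ((B + 1).factorial : ℝ))) ^ F0 * ∑ g ∈ LE Q, r ^ d g :=
  windows_le45 hm hn d hd r γ hr0 hr1 hγ0 hγ1 F0

end Pool.TA43
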