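import Pool.Agent.TA43.Abs
import Pool.Agent.TA43.Sys
import Pool.Agent.TA43.Rich
import Pool.Agent.TA43.Seq

set_option autoImplicit false

/-!
# TA43/LevS38: a level with enough mass in a tilt increases (proofs for `Lev`)
-/

namespace Pool.TA43

open Pool.HB45 Pool.HM63 Pool.PH43 Pool.SC25 Pool.SC45

theorem cosh_lower38 (s : ℝ) (hs : 0 < s) : 1 + s ^ 2 / 8 ≤ Real.cosh (s / 2) := by
  have h1 : Real.cosh (s / 2) = 1 + 2 * Real.sinh (s / 4) ^ 2 := by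
    have h2 := Real.cosh_two_mul (s / 4)
    have h3 := Real.cosh_sq (s / 4)
    have h4 : 2 * (s / 4) = s / 2 := by ring
    rw [h4] at h2
    rw [h2, h3]
    ring
  have h5 : s / 4 ≤ Real.sinh (s / 4) := Real.self_le_sinh_iff.2 (by positivity)
  have h6 : (s / 4) ^ 2 ≤ Real.sinh (s / 4) ^ 2 := pow_le_pow_left₀ (by positivity) h5 2
  rw [h1]
  nlinarith

theorem gam_le38 (B : ℕ) (s0 : ℝ) (hs0 : 0 < s0) : ∃ c : ℝ, 0 < c ∧ ∀ s : ℝ, 0 < s → s ≤ s0 →
    ∀ F0 : ℕ, (1 - (1 - 1 / Real.cosh (s / 2)) *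
      (Real.exp (-s) ^ (B + 2) / ((B + 1).factorial : ℝ))) ^ F0 ≤
      Real.exp (-(c * s ^ 2 * F0)) := by
  have hf1 : (1 : ℝ) ≤ ((B + 1).factorial : ℝ) := by exact_mod_cast Nat.factorial_pos (B + 1)
  have hf : (0 : ℝ) < ((B + 1).factorial : ℝ) := by linarith
  have hc0 : 0 < Real.cosh (s0 / 2) := Real.cosh_pos _
  refine ⟨Real.exp (-s0) ^ (B + 2) / ((B + 1).factorial : ℝ) / (8 * Real.cosh (s0 / 2)),
    by positivity, fun s hs hss F0 => ?_⟩
  set κ : ℝ := Real.exp (-s) ^ (B + 2) / ((B + 1).factorial : ℝ) with hκ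
  set κ0 : ℝ := Real.exp (-s0) ^ (B + 2) / ((B + 1).factorial : ℝ) with hκ0
  have hκ0' : 0 ≤ κ0 := by positivity
  have hκκ : κ0 ≤ κ := by
    rw [hκ, hκ0]
    refine div_le_div_of_nonneg_right ?_ hf.le
    exact pow_le_pow_left₀ (Real.exp_pos _).le (Real.exp_le_exp.2 (by linarith)) _
  have hκ1 : κ ≤ 1 := by
    rw [hκ, div_le_one hf]
    refine le_trans (pow_le_one₀ (Real.exp_pos _).le ?_) hf1
    exact Real.exp_le_one_iff.2 (by linarith)
  have hch : 0 < Real.cosh (s / 2) := Real.cosh_pos _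
  have hch1 : 1 ≤ Real.cosh (s / 2) := Real.one_le_cosh _
  have hcle : Real.cosh (s / 2) ≤ Real.cosh (s0 / 2) := by
    rw [Real.cosh_le_cosh, abs_of_pos (by positivity), abs_of_pos (by positivity)]
    linarith
  have hg : s ^ 2 / (8 * Real.cosh (s0 / 2)) ≤ 1 - 1 / Real.cosh (s / 2) := by
    have h1 : 1 - 1 / Real.cosh (s / 2) = (Real.cosh (s / 2) - 1) / Real.cosh (s / 2) := by
      field_simp
    rw [h1, div_le_div_iff₀ (by positivity) hch]
    have h2 := cosh_lower38 s hs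
    have h3 : s ^ 2 * Real.cosh (s / 2) ≤ s ^ 2 * Real.cosh (s0 / 2) :=
      mul_le_mul_of_nonneg_left hcle (sq_nonneg s)
    nlinarith
  have hg1 : 1 - 1 / Real.cosh (s / 2) ≤ 1 := by
    have : 0 < 1 / Real.cosh (s / 2) := by positivity
    linarith
  have hg0 : 0 ≤ 1 - 1 / Real.cosh (s / 2) := le_trans (by positivity) hg
  set x : ℝ := (1 - 1 / Real.cosh (s / 2)) * κ with hx
  have hx1 : x ≤ 1 := by
    rw [hx]
    exact mul_le_one₀ hg1 (hκ0'.trans hκκ) hκ1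
  have hxl : κ0 / (8 * Real.cosh (s0 / 2)) * s ^ 2 ≤ x := by
    calc κ0 / (8 * Real.cosh (s0 / 2)) * s ^ 2 = s ^ 2 / (8 * Real.cosh (s0 / 2)) * κ0 := by ring
      _ ≤ (1 - 1 / Real.cosh (s / 2)) * κ := mul_le_mul hg hκκ hκ0' hg0
  calc (1 - x) ^ F0 ≤ (Real.exp (-(κ0 / (8 * Real.cosh (s0 / 2)) * s ^ 2))) ^ F0 := by
        refine pow_le_pow_left₀ (by linarith) ?_ _
        refine le_trans ?_ (Real.add_one_le_exp _)
        linarith
    _ = Real.exp (-(κ0 / (8 * Real.cosh (s0 / 2)) * s ^ 2 * F0)) := by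
        rw [← Real.exp_nat_mul]
        congr 1
        ring

/-- the common part of both sides -/
theorem lev_core38 (ε s0 : ℝ) (hε : 0 < ε) (hs0 : 0 < s0) : ∃ c2 : ℝ, 0 < c2 ∧ ∃ N0 : ℕ,
    ∀ N ≥ N0, ∃ (B m : ℕ) (hm : m * (B + 2) ≤ N + 1), m ≤ N ∧ ∃ F0 : ℕ,
      ∀ (Q : Rel (N + 1)) (lab : Fin (N + 1) → ℕ), Nat' Q lab →
      (∀ g ∈ LE Q, ε * N / 4 ≤ des lab g → F0 ≤ Fx hm Q lab g) ∧
      ∀ (d : Equiv.Perm (Fin (N + 1)) → ℕ),
        (∀ (k : Fin m) (π : Equiv.Perm (Fin (N + 1))) (τ τ' : Equiv.Perm (Fin (B + 1))),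
          d (π * emb (win_le hm k) τ) ≤ d (π * emb (win_le hm k) τ') + (B + 2)) →
        ∀ s : ℝ, 0 < s → s ≤ s0 →
          ∑ g ∈ (LE Q).filter (fun g => F0 ≤ Fx hm Q lab g), Real.exp (-(s * d g)) *
            (1 / Real.cosh (s / 2)) ^ mk (stw hm Q lab) g ≤
          Real.exp (-(c2 * s ^ 2 * N)) * ∑ g ∈ LE Q, Real.exp (-(s * d g)) := by
  set B : ℕ := ⌈48 / ε⌉₊ + 1 with hB
  have hB48 : 48 ≤ ε * (B + 2) := by
    have h1 : 48 / ε ≤ (⌈48 / ε⌉₊ : ℝ) := Nat.le_ceil _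
    have h2 : ((B : ℕ) : ℝ) = (⌈48 / ε⌉₊ : ℝ) + 1 := by rw [hB]; push_cast; ring
    have h3 : 48 / ε ≤ (B : ℝ) + 2 := by linarith
    rw [div_le_iff₀ hε] at h3
    linarith
  obtain ⟨c, hc, hgam⟩ := gam_le38 B s0 hs0
  have hB0 : (0 : ℝ) ≤ (B : ℝ) := Nat.cast_nonneg _
  set c1 : ℝ := ε / (10 * ((B : ℝ) + 1)) with hc1
  have hc1' : 0 < c1 := by positivity
  refine ⟨c * c1, by positivity, ⌈40 * (ε / 8 + B + 2) / ε⌉₊ + 1, fun N hN => ?_⟩
  have hN1 : 1 ≤ N := by omega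
  have hN2 : ε / 8 + B + 2 ≤ ε * N / 40 := by
    have h1 : 40 * (ε / 8 + B + 2) / ε ≤ (⌈40 * (ε / 8 + B + 2) / ε⌉₊ : ℝ) := Nat.le_ceil _
    have h2 : ((⌈40 * (ε / 8 + B + 2) / ε⌉₊ : ℕ) : ℝ) ≤ (N : ℝ) := by
      exact_mod_cast (by omega : ⌈40 * (ε / 8 + B + 2) / ε⌉₊ ≤ N)
    have h3 := h1.trans h2
    rw [div_le_iff₀ hε] at h3
    linarith
  have hm : (N + 1) / (B + 2) * (B + 2) ≤ N + 1 := Nat.div_mul_le_self _ _
  have hm' : N + 1 < ((N + 1) / (B + 2) + 1) * (B + 2) := by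
    rw [mul_comm]
    exact Nat.lt_mul_div_succ (N + 1) (by omega)
  refine ⟨B, (N + 1) / (B + 2), hm, ?_, ⌈c1 * N⌉₊, fun Q lab hn => ⟨?_, ?_⟩⟩
  · have h1 : (N + 1) / (B + 2) * (B + 2) ≤ N + 1 := hm
    nlinarith
  · intro g hg hi
    rw [Nat.ceil_le]
    have h1 := des_le_Fx hm hm' hn g hg
    have h2 : (des lab g : ℝ) ≤ Fx hm Q lab g * B + 6 * ((N + 1) / (B + 2) : ℕ) + (B + 2) := by
      exact_mod_cast h1
    have h3 : (((N + 1) / (B + 2) : ℕ) : ℝ) * (B + 2) ≤ N + 1 := by exact_mod_cast hm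
    have h4 : 6 * (((N + 1) / (B + 2) : ℕ) : ℝ) ≤ ε * (N + 1) / 8 := by
      have h5 : (0 : ℝ) ≤ (((N + 1) / (B + 2) : ℕ) : ℝ) := Nat.cast_nonneg _
      have h6 : 48 * (((N + 1) / (B + 2) : ℕ) : ℝ) ≤
          ε * (B + 2) * (((N + 1) / (B + 2) : ℕ) : ℝ) := mul_le_mul_of_nonneg_right hB48 h5
      have h7 : ε * ((((N + 1) / (B + 2) : ℕ) : ℝ) * (B + 2)) ≤ ε * (N + 1) :=
        mul_le_mul_of_nonneg_left h3 hε.le
      nlinarith
    have h8 : ε * N / 10 ≤ Fx hm Q lab g * B := by linarith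
    have h9 : (0 : ℝ) ≤ Fx hm Q lab g := Nat.cast_nonneg _
    have h10 : ε * N / 10 ≤ Fx hm Q lab g * ((B : ℝ) + 1) := by nlinarith
    have h11 : c1 * N = ε * N / 10 / ((B : ℝ) + 1) := by
      rw [hc1]
      field_simp
    rw [h11, div_le_iff₀ (by positivity)]
    exact h10
  · intro d hd s hs hss
    have h1 := windows_le hm hn d hd (Real.exp (-s)) (1 / Real.cosh (s / 2)) (Real.exp_pos _)
      (Real.exp_le_one_iff.2 (by linarith)) (by positivity)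
      (by rw [div_le_one (Real.cosh_pos _)]; exact Real.one_le_cosh _) ⌈c1 * N⌉₊
    have hpow : ∀ g : Equiv.Perm (Fin (N + 1)), Real.exp (-s) ^ d g = Real.exp (-(s * d g)) := by
      intro g
      rw [← Real.exp_nat_mul]
      congr 1
      ring
    simp only [hpow] at h1
    refine h1.trans ?_
    refine mul_le_mul_of_nonneg_right ?_ (Finset.sum_nonneg fun g _ => (Real.exp_pos _).le)
    refine (hgam s hs hss _).trans (Real.exp_le_exp.2 ?_)
    have h2 : c1 * N ≤ (⌈c1 * N⌉₊ : ℝ) := Nat.le_ceil _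
    have h3 : 0 ≤ c * s ^ 2 := by positivity
    nlinarith [mul_le_mul_of_nonneg_left h2 h3]

theorem card_level38 {N : ℕ} (Q : Rel (N + 1)) (lab : Fin (N + 1) → ℕ) (j : ℕ) :
    w Q lab j = ((LE Q).filter fun g => des lab g = j).card := by
  unfold w
  congr

theorem level_left38 (ε s0 : ℝ) (hε : 0 < ε) (hs0 : 0 < s0) : ∃ c2 : ℝ, 0 < c2 ∧ ∃ N0 : ℕ,
    ∀ N ≥ N0, ∀ (Q : Rel (N + 1)) (lab : Fin (N + 1) → ℕ), Nat' Q lab → ∀ (i : ℕ) (s : ℝ),
    ε * N / 4 ≤ i → 0 < s → s ≤ s0 →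
    ((N : ℝ) + 2) * Real.exp (s / 2) * Real.exp (-(c2 * s ^ 2 * N)) * VV N (vL Q lab) s ≤
      vL Q lab i * Real.exp (-(s * i)) → vL Q lab i ≤ vL Q lab (i + 1) := by
  classical
  obtain ⟨c2, hc2, N0, hcore⟩ := lev_core38 ε s0 hε hs0
  refine ⟨c2, hc2, N0, fun N hN Q lab hn i s hi hs hss hyp => ?_⟩
  obtain ⟨B, m, hm, hmN, F0, hF⟩ := hcore N hN
  obtain ⟨hF1, hF2⟩ := hF Q lab hn
  have hsum := hF2 (des lab) (fun k π τ τ' => des_emb_le hm lab k π τ τ') s hs hss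
  have hVV : VV N (vL Q lab) s = ∑ g ∈ LE Q, Real.exp (-(s * (des lab g : ℝ))) :=
    sum_vL Q lab fun i => Real.exp (-(s * (i : ℝ)))
  have hlev : (((LE Q).filter fun g => F0 ≤ Fx hm Q lab g).filter fun g => des lab g = i) =
      (LE Q).filter fun g => des lab g = i := by
    ext g
    simp only [Finset.mem_filter]
    constructor
    · rintro ⟨⟨h1, _⟩, h2⟩
      exact ⟨h1, h2⟩
    · rintro ⟨h1, h2⟩
      exact ⟨⟨h1, hF1 g h1 (by rw [h2]; exact hi)⟩, h2⟩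
  have hle := abs_level (win_sys hm hn F0) N i s hs hmN (by
    rw [hlev]
    have h1 : (((LE Q).filter fun g => des lab g = i).card : ℝ) = vL Q lab i := by
      unfold vL
      rw [card_level38]
    rw [h1]
    refine le_trans ?_ hyp
    rw [hVV]
    have h2 : 0 ≤ ((N : ℝ) + 2) * Real.exp (s / 2) := by positivity
    have h3 := mul_le_mul_of_nonneg_left hsum h2
    linarith)
  rw [hlev] at hle
  have hle2 : (((LE Q).filter fun g => F0 ≤ Fx hm Q lab g).filter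
      fun g => des lab g = i + 1).card ≤ ((LE Q).filter fun g => des lab g = i + 1).card :=
    Finset.card_le_card (Finset.filter_subset_filter _ (Finset.filter_subset _ _))
  unfold vL
  rw [card_level38, card_level38]
  exact_mod_cast hle.trans hle2

theorem level_right38 (ε s0 : ℝ) (hε : 0 < ε) (hs0 : 0 < s0) : ∃ c2 : ℝ, 0 < c2 ∧ ∃ N0 : ℕ,
    ∀ N ≥ N0, ∀ (Q : Rel (N + 1)) (lab : Fin (N + 1) → ℕ), Nat' Q lab → ∀ (i : ℕ) (s : ℝ),
    i + 1 ≤ N → (i : ℝ) + ε * N / 4 ≤ N → 0 < s → s ≤ s0 →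
    ((N : ℝ) + 2) * Real.exp (s / 2) * Real.exp (-(c2 * s ^ 2 * N)) * VV N (vR Q lab) s ≤
      vR Q lab i * Real.exp (-(s * i)) → vR Q lab i ≤ vR Q lab (i + 1) := by
  classical
  obtain ⟨c2, hc2, N0, hcore⟩ := lev_core38 ε s0 hε hs0
  refine ⟨c2, hc2, N0, fun N hN Q lab hn i s hiN hi hs hss hyp => ?_⟩
  obtain ⟨B, m, hm, hmN, F0, hF⟩ := hcore N hN
  obtain ⟨hF1, hF2⟩ := hF Q lab hn
  have hsum := hF2 (fun g => N - des lab g) (fun k π τ τ' => by
    have h1 := des_emb_le hm lab k π τ' τ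
    have h2 := om_des_le lab (π * emb (win_le hm k) τ)
    have h3 := om_des_le lab (π * emb (win_le hm k) τ')
    omega) s hs hss
  have hVV : VV N (vR Q lab) s = ∑ g ∈ LE Q, Real.exp (-(s * ((N - des lab g : ℕ) : ℝ))) :=
    sum_vR Q lab fun i => Real.exp (-(s * (i : ℝ)))
  have hd : ∀ g ∈ (LE Q).filter (fun g => F0 ≤ Fx hm Q lab g), des lab g ≤ N :=
    fun g _ => om_des_le lab g
  have hlev : (((LE Q).filter fun g => F0 ≤ Fx hm Q lab g).filter fun g => N - des lab g = i) =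
      (LE Q).filter fun g => des lab g = N - i := by
    ext g
    have h0 := om_des_le lab g
    simp only [Finset.mem_filter]
    constructor
    · rintro ⟨⟨h1, _⟩, h2⟩
      exact ⟨h1, by omega⟩
    · rintro ⟨h1, h2⟩
      refine ⟨⟨h1, hF1 g h1 ?_⟩, by omega⟩
      rw [h2, Nat.cast_sub (by omega)]
      linarith
  have hsys := swap_sys (win_sys hm hn F0) N hd
  have hle := abs_level hsys N i s hs hmN (by
    rw [hlev]
    have h1 : (((LE Q).filter fun g => des lab g = N - i).card : ℝ) = vR Q lab i := by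
      unfold vR
      rw [card_level38]
    rw [h1]
    refine le_trans ?_ hyp
    rw [hVV]
    have h2 : 0 ≤ ((N : ℝ) + 2) * Real.exp (s / 2) := by positivity
    have h4 : ∑ g ∈ (LE Q).filter (fun g => F0 ≤ Fx hm Q lab g),
        Real.exp (-(s * ((N - des lab g : ℕ) : ℝ))) *
          (1 / Real.cosh (s / 2)) ^ mk (swp (stw hm Q lab)) g =
        ∑ g ∈ (LE Q).filter (fun g => F0 ≤ Fx hm Q lab g),
        Real.exp (-(s * ((N - des lab g : ℕ) : ℝ))) *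
          (1 / Real.cosh (s / 2)) ^ mk (stw hm Q lab) g := by
      refine Finset.sum_congr rfl fun g hg => ?_
      rw [mk_swp (win_sys hm hn F0) g hg]
    rw [h4]
    have h3 := mul_le_mul_of_nonneg_left hsum h2
    linarith)
  rw [hlev] at hle
  have hle2 : (((LE Q).filter fun g => F0 ≤ Fx hm Q lab g).filter
      fun g => N - des lab g = i + 1).card ≤
        ((LE Q).filter fun g => des lab g = N - (i + 1)).card := by
    refine Finset.card_le_card fun g hg => ?_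
    simp only [Finset.mem_filter] at hg ⊢
    have h0 := om_des_le lab g
    exact ⟨hg.1.1, by omega⟩
  unfold vR
  rw [card_level38, card_level38]
  exact_mod_cast hle.trans hle2

end Pool.TA43
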