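import Pool.Agent.TA43.Abs
import Pool.Agent.TA43.Sys
import Pool.Agent.TA43.Rich
import Pool.Agent.TA43.Seq
import Pool.Agent.TA43.LevS38

set_option autoImplicit false

/-!
# TA43/Lev: a level with enough mass in a tilt increases (proofs in TA43/LevS38)

PROOF (both). `B + 2 = ⌈48/ε⌉ + 3`, `m = (N + 1)/(B + 2)`, `c1 = ε/(10 (B + 1))`; `des_le_Fx`: a word with
`des g ≥ ε N/4` has `Fx g ≥ c1 N`, since `6 m ≤ ε (N + 1)/8`. `F0 = ⌈c1 N⌉`, `L' = {g ∈ LE Q : F0 ≤ Fx g}` contains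
all words of the level. `win_sys` (right side: `swap_sys`, `d = N - des`), `windows_le` with `r = e^(-s)`,
`γ = 1/cosh (s/2)`: `1 - γ ≥ (s^2/8)/cosh (s0/2)`, `κ ≥ e^(-s0 (B+2))/(B+1)!`, so
`∑_(L') e^(-s d) γ^mk ≤ e^(-c2 s^2 N) VV`; `abs_level`.
-/

namespace Pool.TA43

open Pool.HB45 Pool.HM63 Pool.PH43 Pool.SC25 Pool.SC45

/-- the bound of the window factor -/
theorem gam_le (B : ℕ) (s0 : ℝ) (hs0 : 0 < s0) : ∃ c : ℝ, 0 < c ∧ ∀ s : ℝ, 0 < s → s ≤ s0 →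
    ∀ F0 : ℕ, (1 - (1 - 1 / Real.cosh (s / 2)) *
      (Real.exp (-s) ^ (B + 2) / ((B + 1).factorial : ℝ))) ^ F0 ≤
      Real.exp (-(c * s ^ 2 * F0)) :=
  gam_le38 B s0 hs0

theorem level_left (ε s0 : ℝ) (hε : 0 < ε) (hs0 : 0 < s0) : ∃ c2 : ℝ, 0 < c2 ∧ ∃ N0 : ℕ,
    ∀ N ≥ N0, ∀ (Q : Rel (N + 1)) (lab : Fin (N + 1) → ℕ), Nat' Q lab → ∀ (i : ℕ) (s : ℝ),
    ε * N / 4 ≤ i → 0 < s → s ≤ s0 →
    ((N : ℝ) + 2) * Real.exp (s / 2) * Real.exp (-(c2 * s ^ 2 * N)) * VV N (vL Q lab) s ≤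
      vL Q lab i * Real.exp (-(s * i)) → vL Q lab i ≤ vL Q lab (i + 1) :=
  level_left38 ε s0 hε hs0

theorem level_right (ε s0 : ℝ) (hε : 0 < ε) (hs0 : 0 < s0) : ∃ c2 : ℝ, 0 < c2 ∧ ∃ N0 : ℕ,
    ∀ N ≥ N0, ∀ (Q : Rel (N + 1)) (lab : Fin (N + 1) → ℕ), Nat' Q lab → ∀ (i : ℕ) (s : ℝ),
    i + 1 ≤ N → (i : ℝ) + ε * N / 4 ≤ N → 0 < s → s ≤ s0 →
    ((N : ℝ) + 2) * Real.exp (s / 2) * Real.exp (-(c2 * s ^ 2 * N)) * VV N (vR Q lab) s ≤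
      vR Q lab i * Real.exp (-(s * i)) → vR Q lab i ≤ vR Q lab (i + 1) :=
  level_right38 ε s0 hε hs0

end Pool.TA43
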