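import Mathlib

/-!
# TA43/MassS76: a log-concave convolution has mass near a median of the first factor
-/

set_option autoImplicit false

namespace Pool.TA43.S76

open Finset

/-- the convolution on a box -/
theorem conv_sum {n z : ℕ} {p q a : ℕ → ℝ} (hpn : ∀ i, n < i → p i = 0)
    (ha : ∀ m, a m = ∑ i ∈ range (m + 1), p i * q (m - i)) (S : Finset ℕ)
    (hS : ∀ m ∈ S, m ≤ z) :
    ∑ m ∈ S, a m = ∑ x ∈ (range (n + 1) ×ˢ range (z + 1)).filter (fun x => x.1 + x.2 ∈ S),
      p x.1 * q x.2 := by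
  classical
  rw [← sum_fiberwise_of_maps_to (t := S) (g := fun x : ℕ × ℕ => x.1 + x.2)
    (fun x hx => (mem_filter.1 hx).2)]
  refine sum_congr rfl fun m hm => ?_
  rw [ha m, ← Finset.Nat.sum_antidiagonal_eq_sum_range_succ_mk (f := fun x : ℕ × ℕ => p x.1 * q x.2)]
  symm
  refine sum_subset ?_ ?_
  · intro x hx
    exact HasAntidiagonal.mem_antidiagonal.2 (mem_filter.1 hx).2
  · intro x hx hx'
    rw [HasAntidiagonal.mem_antidiagonal] at hx
    by_cases h : x.1 ≤ n
    · exfalso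
      refine hx' (mem_filter.2 ⟨mem_filter.2 ⟨mem_product.2 ⟨mem_range.2 (by omega), mem_range.2 ?_⟩, ?_⟩, hx⟩)
      · have := hS m hm
        omega
      · rw [hx]; exact hm
    · rw [hpn _ (by omega), zero_mul]

theorem mass (n z j : ℕ) (p q a : ℕ → ℝ) (hp : ∀ i, 0 ≤ p i) (hq : ∀ i, 0 ≤ q i)
    (hpn : ∀ i, n < i → p i = 0) (hps : ∑ i ∈ range (n + 1), p i = 1)
    (hqs : ∀ M, ∑ i ∈ range M, q i ≤ 1) (ν L δ : ℝ) (hν : 0 ≤ ν) (hL : 1 ≤ 2 * L) (hδ : δ ≤ 1 / 6)
    (hz : (n : ℝ) + ν + L ≤ z) (hjn : j ≤ n)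
    (hJ : 1 - 2 * δ ≤ ∑ k ∈ (range (z + 1)).filter (fun k : ℕ => |(k : ℝ) - ν| ≤ L), q k)
    (ha : ∀ m, a m = ∑ i ∈ range (m + 1), p i * q (m - i))
    (hmin : ∀ i k l, i ≤ k → k ≤ l → min (a i) (a l) ≤ a k)
    (hj1 : 1 / 2 ≤ ∑ i ∈ range (j + 1), p i) (hj2 : 1 / 2 ≤ ∑ i ∈ Ico j (n + 1), p i) :
    1 / (6 * ((z : ℝ) + 1)) - 2 * δ ≤
      ∑ i ∈ (range (n + 1)).filter (fun i : ℕ => |(i : ℝ) - j| ≤ 2 * L), p i := by
  classical
  set G : Finset (ℕ × ℕ) := range (n + 1) ×ˢ range (z + 1) with hG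
  set J : Finset ℕ := (range (z + 1)).filter (fun k : ℕ => |(k : ℝ) - ν| ≤ L) with hJdef
  have hz0 : (0 : ℝ) < (z : ℝ) + 1 := by positivity
  have hjz : (j : ℝ) + ν + L ≤ z := by
    have : (j : ℝ) ≤ n := by exact_mod_cast hjn
    linarith
  have ha0 : ∀ m, 0 ≤ a m := fun m => by
    rw [ha m]; exact sum_nonneg fun i _ => mul_nonneg (hp i) (hq _)
  -- the three parts
  set I : Finset ℕ := (range (z + 1)).filter (fun m : ℕ => |(m : ℝ) - (j + ν)| ≤ L) with hI
  set Lo : Finset ℕ := (range (z + 1)).filter (fun m : ℕ => (m : ℝ) < j + ν - L) with hLo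
  set Hi : Finset ℕ := (range (z + 1)).filter (fun m : ℕ => j + ν + L < (m : ℝ)) with hHi
  have hle : ∀ S : Finset ℕ, S ⊆ range (z + 1) → ∀ m ∈ S, m ≤ z := fun S hS m hm => by
    have := mem_range.1 (hS hm); omega
  have hIz : I ⊆ range (z + 1) := filter_subset _ _
  -- mass of `p`-part times `q`-part
  have hlow : 1 / 2 * (1 - 2 * δ) ≤ ∑ m ∈ Lo, a m + ∑ m ∈ I, a m := by
    have hd : Disjoint Lo I := by
      rw [disjoint_left]
      intro m h1 h2
      have h3 := (mem_filter.1 h1).2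
      have h4 := (abs_le.1 (mem_filter.1 h2).2).1
      linarith
    rw [← sum_union hd, conv_sum hpn ha (Lo ∪ I)
      (hle _ (union_subset (filter_subset _ _) (filter_subset _ _)))]
    calc 1 / 2 * (1 - 2 * δ) ≤ (∑ i ∈ range (j + 1), p i) * ∑ k ∈ J, q k := by
          refine mul_le_mul hj1 hJ (by linarith) (le_trans (by norm_num) hj1)
      _ = ∑ x ∈ range (j + 1) ×ˢ J, p x.1 * q x.2 := by
          rw [sum_product, sum_mul]
          refine sum_congr rfl fun i _ => ?_
          rw [mul_sum]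
      _ ≤ _ := by
          refine sum_le_sum_of_subset_of_nonneg ?_ fun x _ _ => mul_nonneg (hp _) (hq _)
          intro x hx
          obtain ⟨h1, h2⟩ := mem_product.1 hx
          have h3 := mem_range.1 h1
          obtain ⟨h4, h5⟩ := mem_filter.1 h2
          have h6 := abs_le.1 h5
          have h7 : (x.1 : ℝ) ≤ j := by exact_mod_cast (by omega : x.1 ≤ j)
          have h8 : ((x.1 + x.2 : ℕ) : ℝ) ≤ j + ν + L := by push_cast; linarith [h6.2]
          have h9 : x.1 + x.2 < z + 1 := by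
            have : ((x.1 + x.2 : ℕ) : ℝ) ≤ z := h8.trans hjz
            have : x.1 + x.2 ≤ z := by exact_mod_cast this
            omega
          refine mem_filter.2 ⟨mem_product.2 ⟨mem_range.2 (by omega), h4⟩, ?_⟩
          rw [mem_union]
          by_cases hc : ((x.1 + x.2 : ℕ) : ℝ) < j + ν - L
          · exact Or.inl (mem_filter.2 ⟨mem_range.2 h9, hc⟩)
          · exact Or.inr (mem_filter.2 ⟨mem_range.2 h9, abs_le.2 ⟨by linarith, by linarith⟩⟩)
  have hhigh : 1 / 2 * (1 - 2 * δ) ≤ ∑ m ∈ Hi, a m + ∑ m ∈ I, a m := by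
    have hd : Disjoint Hi I := by
      rw [disjoint_left]
      intro m h1 h2
      have h3 := (mem_filter.1 h1).2
      have h4 := (abs_le.1 (mem_filter.1 h2).2).2
      linarith
    rw [← sum_union hd, conv_sum hpn ha (Hi ∪ I)
      (hle _ (union_subset (filter_subset _ _) (filter_subset _ _)))]
    calc 1 / 2 * (1 - 2 * δ) ≤ (∑ i ∈ Ico j (n + 1), p i) * ∑ k ∈ J, q k := by
          refine mul_le_mul hj2 hJ (by linarith) (le_trans (by norm_num) hj2)
      _ = ∑ x ∈ Ico j (n + 1) ×ˢ J, p x.1 * q x.2 := by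
          rw [sum_product, sum_mul]
          refine sum_congr rfl fun i _ => ?_
          rw [mul_sum]
      _ ≤ _ := by
          refine sum_le_sum_of_subset_of_nonneg ?_ fun x _ _ => mul_nonneg (hp _) (hq _)
          intro x hx
          obtain ⟨h1, h2⟩ := mem_product.1 hx
          have h3 := mem_Ico.1 h1
          obtain ⟨h4, h5⟩ := mem_filter.1 h2
          have h6 := abs_le.1 h5
          have h7 : (j : ℝ) ≤ x.1 := by exact_mod_cast h3.1
          have h7' : (x.1 : ℝ) ≤ n := by exact_mod_cast (by omega : x.1 ≤ n)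
          have h8 : j + ν - L ≤ ((x.1 + x.2 : ℕ) : ℝ) := by push_cast; linarith [h6.1]
          have h9 : x.1 + x.2 < z + 1 := by
            have : ((x.1 + x.2 : ℕ) : ℝ) ≤ z := by push_cast; linarith [h6.2]
            have : x.1 + x.2 ≤ z := by exact_mod_cast this
            omega
          refine mem_filter.2 ⟨mem_product.2 ⟨mem_range.2 h3.2, h4⟩, ?_⟩
          rw [mem_union]
          by_cases hc : j + ν + L < ((x.1 + x.2 : ℕ) : ℝ)
          · exact Or.inl (mem_filter.2 ⟨mem_range.2 h9, hc⟩)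
          · exact Or.inr (mem_filter.2 ⟨mem_range.2 h9, abs_le.2 ⟨by linarith, by linarith⟩⟩)
  -- mass of the middle window
  have hwin : 1 / (6 * ((z : ℝ) + 1)) ≤ ∑ m ∈ I, a m := by
    by_cases hbig : 1 / 6 ≤ ∑ m ∈ I, a m
    · refine le_trans ?_ hbig
      refine one_div_le_one_div_of_le (by norm_num) ?_
      have : (0 : ℝ) ≤ z := Nat.cast_nonneg _
      linarith
    rw [not_le] at hbig
    have hex : ∀ S : Finset ℕ, S ⊆ range (z + 1) → 1 / 6 ≤ ∑ m ∈ S, a m →
        ∃ m ∈ S, 1 / (6 * ((z : ℝ) + 1)) ≤ a m := by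
      intro S hS hm
      by_contra hno
      push Not at hno
      have h1 : ∑ m ∈ S, a m ≤ S.card * (1 / (6 * ((z : ℝ) + 1))) := by
        rw [← nsmul_eq_mul]
        exact sum_le_card_nsmul _ _ _ fun m hm => (hno m hm).le
      have hne : S.Nonempty := by
        rw [nonempty_iff_ne_empty]
        intro h
        rw [h, sum_empty] at hm
        linarith
      have h2 : ∑ m ∈ S, a m < S.card * (1 / (6 * ((z : ℝ) + 1))) := by
        rw [← nsmul_eq_mul, ← sum_const]
        exact sum_lt_sum_of_nonempty hne fun m hm => hno m hm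
      have h3 : (S.card : ℝ) ≤ (z : ℝ) + 1 := by
        have := card_le_card hS
        rw [card_range] at this
        exact_mod_cast this
      have h4 : (S.card : ℝ) * (1 / (6 * ((z : ℝ) + 1))) ≤ 1 / 6 := by
        rw [mul_one_div, div_le_div_iff₀ (by positivity) (by norm_num)]
        linarith
      linarith
    obtain ⟨m1, hm1, h1⟩ := hex Lo (filter_subset _ _) (by linarith)
    obtain ⟨m2, hm2, h2⟩ := hex Hi (filter_subset _ _) (by linarith)
    -- an integer in the window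
    obtain ⟨m0, hm0⟩ : ∃ m0, m0 ∈ I := by
      have h3 : (0 : ℝ) ≤ j + ν + L := by
        have : (0 : ℝ) ≤ j := Nat.cast_nonneg _
        linarith
      refine ⟨⌊(j : ℝ) + ν + L⌋₊, mem_filter.2 ⟨mem_range.2 ?_, ?_⟩⟩
      · have : ((⌊(j : ℝ) + ν + L⌋₊ : ℕ) : ℝ) ≤ z := (Nat.floor_le h3).trans hjz
        have : ⌊(j : ℝ) + ν + L⌋₊ ≤ z := by exact_mod_cast this
        omega
      · have h4 := Nat.floor_le h3
        have h5 := Nat.lt_floor_add_one ((j : ℝ) + ν + L)
        exact abs_le.2 ⟨by linarith, by linarith⟩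
    have h3 : min (a m1) (a m2) ≤ a m0 := by
      have h4 := abs_le.1 (mem_filter.1 hm0).2
      have h5 := (mem_filter.1 hm1).2
      have h6 := (mem_filter.1 hm2).2
      refine hmin m1 m0 m2 ?_ ?_
      · have : (m1 : ℝ) ≤ m0 := by linarith
        exact_mod_cast this
      · have : (m0 : ℝ) ≤ m2 := by linarith
        exact_mod_cast this
    calc 1 / (6 * ((z : ℝ) + 1)) ≤ min (a m1) (a m2) := le_min h1 h2
      _ ≤ a m0 := h3
      _ ≤ ∑ m ∈ I, a m := single_le_sum (fun m _ => ha0 m) hm0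
  -- transfer to `p`
  set D : Finset ℕ := (range (n + 1)).filter (fun i : ℕ => |(i : ℝ) - j| ≤ 2 * L) with hD
  have hJsub : J ⊆ range (z + 1) := filter_subset _ _
  have hout : ∑ k ∈ range (z + 1) \ J, q k ≤ 2 * δ := by
    have h1 := sum_sdiff (f := q) hJsub
    have h2 := hqs (z + 1)
    linarith
  have htr : ∑ m ∈ I, a m ≤ ∑ i ∈ D, p i + 2 * δ := by
    rw [conv_sum hpn ha I (hle _ hIz)]
    calc ∑ x ∈ (range (n + 1) ×ˢ range (z + 1)).filter (fun x => x.1 + x.2 ∈ I), p x.1 * q x.2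
        ≤ ∑ x ∈ D ×ˢ range (z + 1) ∪ range (n + 1) ×ˢ (range (z + 1) \ J), p x.1 * q x.2 := by
          refine sum_le_sum_of_subset_of_nonneg ?_ fun x _ _ => mul_nonneg (hp _) (hq _)
          intro x hx
          obtain ⟨h1, h2⟩ := mem_filter.1 hx
          obtain ⟨h3, h4⟩ := mem_product.1 h1
          rw [mem_union, mem_product, mem_product]
          by_cases hk : x.2 ∈ J
          · refine Or.inl ⟨mem_filter.2 ⟨h3, ?_⟩, h4⟩
            have h5 := abs_le.1 (mem_filter.1 h2).2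
            have h6 := abs_le.1 (mem_filter.1 hk).2
            push_cast at h5
            exact abs_le.2 ⟨by linarith [h5.1, h6.2], by linarith [h5.2, h6.1]⟩
          · exact Or.inr ⟨h3, mem_sdiff.2 ⟨h4, hk⟩⟩
      _ ≤ ∑ x ∈ D ×ˢ range (z + 1), p x.1 * q x.2 +
            ∑ x ∈ range (n + 1) ×ˢ (range (z + 1) \ J), p x.1 * q x.2 := by
          rw [← sum_union_inter]
          have : 0 ≤ ∑ x ∈ D ×ˢ range (z + 1) ∩ range (n + 1) ×ˢ (range (z + 1) \ J),
              p x.1 * q x.2 := sum_nonneg fun x _ => mul_nonneg (hp _) (hq _)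
          linarith
      _ = (∑ i ∈ D, p i) * ∑ k ∈ range (z + 1), q k +
            (∑ i ∈ range (n + 1), p i) * ∑ k ∈ range (z + 1) \ J, q k := by
          rw [sum_product, sum_product, sum_mul, sum_mul]
          congr 1 <;> exact sum_congr rfl fun i _ => by rw [mul_sum]
      _ ≤ (∑ i ∈ D, p i) * 1 + 1 * (2 * δ) := by
          rw [hps]
          refine add_le_add ?_ ?_
          · exact mul_le_mul_of_nonneg_left (hqs _) (sum_nonneg fun i _ => hp i)
          · exact mul_le_mul_of_nonneg_left hout zero_le_one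
      _ = _ := by ring
  linarith

end Pool.TA43.S76
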