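import Pool.Agent.SC45.Defs
import Pool.Agent.SC25.Defs

/-!
# TA43/OmLCS76: log-concavity of the numbers of (strictly) order preserving maps

Four functions theorem (`Finset.le_card_infs_mul_card_sups`).
-/

set_option autoImplicit false

namespace Pool.TA43.S76

open Pool.HB45 Finset
open scoped FinsetFamily

/-- maps with values in `[a, b)` and the property `P` -/
noncomputable def VV {n : ℕ} (P : (Fin n → ℕ) → Prop) (a b : ℕ) : Finset (Fin n → ℕ) := by
  classical
  exact (Fintype.piFinset fun _ => Ico a b).filter P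

theorem mem_VV {n : ℕ} {P : (Fin n → ℕ) → Prop} {a b : ℕ} {f : Fin n → ℕ} :
    f ∈ VV P a b ↔ (∀ i, a ≤ f i ∧ f i < b) ∧ P f := by
  classical
  simp [VV, Fintype.mem_piFinset]

theorem VV_shift {n : ℕ} {P : (Fin n → ℕ) → Prop} (hP : ∀ f, P (fun i => f i + 1) ↔ P f) (k : ℕ) :
    (VV P 1 (k + 1)).card = (VV P 0 k).card := by
  classical
  symm
  refine card_bij (fun f _ => fun i => f i + 1) ?_ ?_ ?_
  · intro f hf
    rw [mem_VV] at hf ⊢
    exact ⟨fun i => ⟨by omega, by have := (hf.1 i).2; omega⟩, (hP f).2 hf.2⟩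
  · intro f _ g _ h
    funext i
    have := congrFun h i
    simpa using this
  · intro g hg
    rw [mem_VV] at hg
    have e : (fun i => (g i - 1) + 1) = g := by
      funext i
      have := (hg.1 i).1
      omega
    refine ⟨fun i => g i - 1, ?_, e⟩
    rw [mem_VV]
    refine ⟨fun i => ⟨Nat.zero_le _, by have := hg.1 i; omega⟩, ?_⟩
    rw [← hP]
    have h2 := hg.2
    rw [← e] at h2
    exact h2

theorem VV_lc {n : ℕ} {P : (Fin n → ℕ) → Prop} (hP : ∀ f, P (fun i => f i + 1) ↔ P f)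
    (hsup : ∀ f g, P f → P g → P (f ⊔ g)) (hinf : ∀ f g, P f → P g → P (f ⊓ g)) (k : ℕ) :
    (VV P 0 k).card * (VV P 0 (k + 2)).card ≤ (VV P 0 (k + 1)).card ^ 2 := by
  classical
  have h1 := Finset.le_card_infs_mul_card_sups (VV P 1 (k + 1)) (VV P 0 (k + 2))
  have h2 : VV P 1 (k + 1) ⊼ VV P 0 (k + 2) ⊆ VV P 0 (k + 1) := by
    intro f hf
    obtain ⟨a, ha, b, hb, rfl⟩ := Finset.mem_infs.1 hf
    rw [mem_VV] at ha hb ⊢
    refine ⟨fun i => ⟨Nat.zero_le _, ?_⟩, hinf _ _ ha.2 hb.2⟩
    exact lt_of_le_of_lt inf_le_left (ha.1 i).2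
  have h3 : VV P 1 (k + 1) ⊻ VV P 0 (k + 2) ⊆ VV P 1 (k + 2) := by
    intro f hf
    obtain ⟨a, ha, b, hb, rfl⟩ := Finset.mem_sups.1 hf
    rw [mem_VV] at ha hb ⊢
    refine ⟨fun i => ⟨le_trans (ha.1 i).1 le_sup_left, ?_⟩, hsup _ _ ha.2 hb.2⟩
    exact max_lt (by have := (ha.1 i).2; omega) (hb.1 i).2
  have h4 := VV_shift hP k
  have h5 := VV_shift hP (k + 1)
  calc (VV P 0 k).card * (VV P 0 (k + 2)).card
      = (VV P 1 (k + 1)).card * (VV P 0 (k + 2)).card := by rw [h4]
    _ ≤ _ := h1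
    _ ≤ (VV P 0 (k + 1)).card * (VV P 1 (k + 2)).card :=
        Nat.mul_le_mul (card_le_card h2) (card_le_card h3)
    _ = (VV P 0 (k + 1)).card * (VV P 0 (k + 1)).card := by rw [h5]
    _ = _ := by ring

theorem card_VV {n : ℕ} {P : (Fin n → ℕ) → Prop} (k : ℕ) [DecidablePred fun f : Fin n → Fin k =>
    P fun i => (f i).val] :
    (VV P 0 k).card = (univ.filter fun f : Fin n → Fin k => P fun i => (f i).val).card := by
  classical
  symm
  refine card_bij (fun f _ => fun i => (f i).val) ?_ ?_ ?_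
  · intro f hf
    rw [mem_VV]
    exact ⟨fun i => ⟨Nat.zero_le _, (f i).isLt⟩, (mem_filter.1 hf).2⟩
  · intro f _ g _ h
    funext i
    exact Fin.ext (congrFun h i)
  · intro g hg
    rw [mem_VV] at hg
    exact ⟨fun i => ⟨g i, (hg.1 i).2⟩, mem_filter.2 ⟨mem_univ _, hg.2⟩, rfl⟩

/-- (1) LOG-CONCAVITY of the number of order preserving maps -/
theorem Om_lc {n : ℕ} (Q : Rel n) (m : ℕ) :
    Pool.SC45.Om Q m * Pool.SC45.Om Q (m + 2) ≤ Pool.SC45.Om Q (m + 1) ^ 2 := by
  classical
  have h := VV_lc (n := n) (P := fun f => ∀ a b, Q a b → f a ≤ f b)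
    (fun f => by simp) (fun f g hf hg a b hab => sup_le_sup (hf a b hab) (hg a b hab))
    (fun f g hf hg a b hab => inf_le_inf (hf a b hab) (hg a b hab)) (m + 1)
  have e : ∀ k, Pool.SC45.Om Q k = (VV (fun f : Fin n → ℕ => ∀ a b, Q a b → f a ≤ f b) 0 (k + 1)).card := by
    intro k
    rw [card_VV (k + 1)]
    unfold Pool.SC45.Om
    congr 1
  rw [e m, e (m + 2), e (m + 1)]
  exact h

/-- (1) LOG-CONCAVITY of the number of strictly order preserving maps -/
theorem Ms_lc {n : ℕ} (Q : Rel n) (m : ℕ) :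
    (Pool.SC25.Ms Q m).card * (Pool.SC25.Ms Q (m + 2)).card ≤ (Pool.SC25.Ms Q (m + 1)).card ^ 2 := by
  classical
  have h := VV_lc (n := n) (P := fun f => ∀ a b, Q a b → f a < f b)
    (fun f => by simp) (fun f g hf hg a b hab => max_lt_max (hf a b hab) (hg a b hab))
    (fun f g hf hg a b hab => min_lt_min (hf a b hab) (hg a b hab)) m
  have e : ∀ k, (Pool.SC25.Ms Q k).card =
      (VV (fun f : Fin n → ℕ => ∀ a b, Q a b → f a < f b) 0 k).card := by
    intro k
    rw [card_VV k]
    unfold Pool.SC25.Ms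
    congr 1
  rw [e m, e (m + 2), e (m + 1)]
  exact h

/-- consequence in the real form used for the mass: `a_k ≥ min a_i a_l` for `i ≤ k ≤ l` -/
theorem min_le_of_lc {a : ℕ → ℝ} (h0 : ∀ k, 0 ≤ a k) (hz : ∀ i k, i ≤ k → 0 < a i → 0 < a k)
    (hlc : ∀ k, a k * a (k + 2) ≤ a (k + 1) ^ 2) {i k l : ℕ} (hik : i ≤ k) (hkl : k ≤ l) :
    min (a i) (a l) ≤ a k := by
  by_contra hcon
  rw [not_le, lt_min_iff] at hcon
  obtain ⟨hi, hl⟩ := hcon
  have hpi : 0 < a i := lt_of_le_of_lt (h0 k) hi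
  have hpk : 0 < a k := hz i k hik hpi
  -- the ratio `a (j+1) / a j` is non-increasing; it is `< 1` somewhere in `[i, k)`
  have hex : ∃ j, i ≤ j ∧ j < k ∧ a (j + 1) < a j := by
    by_contra hno
    push Not at hno
    have : ∀ d, i + d ≤ k → a i ≤ a (i + d) := by
      intro d
      induction d with
      | zero => intro _; exact le_rfl
      | succ d ih => intro hd; exact (ih (by omega)).trans (hno (i + d) (by omega) (by omega))
    have h2 := this (k - i) (by omega)
    rw [show i + (k - i) = k by omega] at h2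
    linarith
  obtain ⟨j, hij, hjk, hj⟩ := hex
  have hdec : ∀ d, a (j + d + 1) < a (j + d) := by
    intro d
    induction d with
    | zero => exact hj
    | succ d ih =>
      have hp1 : 0 < a (j + d) := hz i _ (by omega) hpi
      have hp2 : 0 < a (j + d + 1) := hz i _ (by omega) hpi
      have h3 := hlc (j + d)
      have h4 : a (j + d) * a (j + d + 2) < a (j + d) * a (j + d + 1) := by
        calc a (j + d) * a (j + d + 2) ≤ a (j + d + 1) ^ 2 := h3
          _ = a (j + d + 1) * a (j + d + 1) := sq _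
          _ < a (j + d) * a (j + d + 1) := mul_lt_mul_of_pos_right ih hp2
      have h5 := lt_of_mul_lt_mul_left h4 hp1.le
      exact h5
  have hle : ∀ d, a (k + d) ≤ a k := by
    intro d
    induction d with
    | zero => exact le_rfl
    | succ d ih =>
      have h6 := hdec (k + d - j)
      rw [show j + (k + d - j) = k + d by omega] at h6
      exact h6.le.trans ih
  have h7 := hle (l - k)
  rw [show k + (l - k) = l by omega] at h7
  linarith

end Pool.TA43.S76
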