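import Pool.Agent.TA43.NB
import Pool.Agent.TA43.MassS76
import Pool.Agent.TA43.OmLCS76

set_option autoImplicit false

/-!
# TA43/MassT76: proofs for TA43/Mass
-/

namespace Pool.TA43

open Pool.HB45 Pool.HM63 Pool.PH43 Pool.SC25 Pool.SC45

theorem lc_min76 (x : ℕ → ℝ) (h0 : ∀ m, 0 ≤ x m) (hlc : ∀ m, x m * x (m + 2) ≤ x (m + 1) ^ 2)
    (hpos : ∀ m, 0 < x m → 0 < x (m + 1)) (i k l : ℕ) (hik : i ≤ k) (hkl : k ≤ l) :
    min (x i) (x l) ≤ x k := by
  refine S76.min_le_of_lc h0 ?_ hlc hik hkl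
  intro i k hik hi
  induction k, hik using Nat.le_induction with
  | base => exact hi
  | succ k _ ih => exact hpos k ih

theorem OV_conv76 (N : ℕ) (v : ℕ → ℝ) (s : ℝ) (m : ℕ) :
    OV N v m * Real.exp (-s) ^ m * (1 - Real.exp (-s)) ^ (N + 2) =
      ∑ i ∈ (Finset.range (N + 1)).filter (fun i => i ≤ m),
        v i * Real.exp (-(s * i)) * NB N (Real.exp (-s)) (m - i) := by
  unfold OV
  rw [Finset.sum_filter, Finset.sum_mul, Finset.sum_mul]
  refine Finset.sum_congr rfl fun i hi => ?_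
  rw [Finset.mem_range] at hi
  split_ifs with h
  · unfold NB
    have e1 : N + 1 + m - i = N + 1 + (m - i) := by omega
    have e2 : Real.exp (-(s * i)) * Real.exp (-s) ^ (m - i) = Real.exp (-s) ^ m := by
      rw [show -(s * (i : ℝ)) = (i : ℝ) * (-s) by ring, Real.exp_nat_mul, ← pow_add]
      congr 1
      omega
    rw [e1, ← e2]
    ring
  · rw [Nat.choose_eq_zero_of_lt (by omega)]
    simp

theorem VV_pos76 {N : ℕ} {v : ℕ → ℝ} (hv : ∀ i, 0 ≤ v i) (h : 0 < VV N v 0) (s : ℝ) :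
    0 < VV N v s := by
  unfold VV at h ⊢
  obtain ⟨i, hi, hpos⟩ : ∃ i ∈ Finset.range (N + 1), 0 < v i := by
    by_contra hno
    push Not at hno
    have : ∑ i ∈ Finset.range (N + 1), v i * Real.exp (-(0 * (i : ℝ))) ≤ 0 := by
      refine Finset.sum_nonpos fun i hi => ?_
      have := hno i hi
      exact mul_nonpos_of_nonpos_of_nonneg this (Real.exp_pos _).le
    linarith
  refine lt_of_lt_of_le (mul_pos hpos (Real.exp_pos (-(s * i)))) ?_
  exact Finset.single_le_sum (f := fun i : ℕ => v i * Real.exp (-(s * i)))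
    (fun i _ => mul_nonneg (hv i) (Real.exp_pos _).le) hi

theorem num76 (s0 : ℝ) (hs0 : 0 < s0) : ∃ N0 : ℕ, ∀ N : ℕ, N0 ≤ N → 12 ≤ N ∧
    s0 ≤ Real.sqrt (((N : ℝ) + 1) * Real.log ((N : ℝ) + 1)) ∧
    8 * Real.sqrt (((N : ℝ) + 1) * Real.log ((N : ℝ) + 1)) + 5 ≤ (N : ℝ) + 1 := by
  have h1 : Filter.Tendsto (fun x : ℝ => x) Filter.atTop Filter.atTop := Filter.tendsto_id
  have hlog : ∀ᶠ x : ℝ in Filter.atTop, Real.log x ≤ 1 / 100 * x := by
    have h2 := Real.isLittleO_log_id_atTop.bound (show (0 : ℝ) < 1 / 100 by norm_num)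
    filter_upwards [h2, Filter.eventually_ge_atTop 1] with x hx hx1
    rw [Real.norm_eq_abs, Real.norm_eq_abs, id, abs_of_nonneg (by linarith : (0 : ℝ) ≤ x)] at hx
    exact (le_abs_self _).trans hx
  have hev : ∀ᶠ x : ℝ in Filter.atTop, 13 ≤ x ∧ s0 ^ 2 ≤ x ∧ Real.log x ≤ 1 / 100 * x ∧ 50 ≤ x :=
    (Filter.eventually_ge_atTop 13).and ((Filter.eventually_ge_atTop _).and
      (hlog.and (Filter.eventually_ge_atTop 50)))
  obtain ⟨N0, hN0⟩ := Filter.eventually_atTop.1
    ((tendsto_natCast_atTop_atTop (R := ℝ)).eventually hev)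
  refine ⟨N0, fun N hN => ?_⟩
  obtain ⟨h3, h4, h5, h6⟩ := hN0 (N + 1) (by omega)
  push_cast at h3 h4 h5 h6
  have hl1 : 1 ≤ Real.log ((N : ℝ) + 1) := by
    rw [Real.le_log_iff_exp_le (by linarith)]
    have := Real.exp_one_lt_d9
    linarith
  refine ⟨?_, ?_, ?_⟩
  · have : (12 : ℝ) ≤ N := by linarith
    exact_mod_cast this
  · refine Real.le_sqrt_of_sq_le ?_
    nlinarith
  · have h7 : Real.sqrt (((N : ℝ) + 1) * Real.log ((N : ℝ) + 1)) ≤ 1 / 10 * ((N : ℝ) + 1) := by
      refine Real.sqrt_le_iff.2 ⟨by linarith, ?_⟩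
      nlinarith
    linarith

theorem mass76 (s0 : ℝ) (hs0 : 0 < s0) : ∃ N0 : ℕ, ∀ N ≥ N0, ∀ (v : ℕ → ℝ) (j : ℕ) (s : ℝ),
    (∀ i, 0 ≤ v i) → 0 < VV N v 0 → j ≤ N →
    (∀ m, OV N v m * OV N v (m + 2) ≤ OV N v (m + 1) ^ 2) →
    1 / ((N : ℝ) + 1) ≤ s → s ≤ s0 →
    VV N v s / 2 ≤ VS v s (Finset.range (j + 1)) →
    VV N v s / 2 ≤ VS v s ((Finset.range (N + 1)).filter fun i => j ≤ i) →
    VV N v s / ((N : ℝ) + 1) ^ 3 ≤
      VS v s ((Finset.range (N + 1)).filter fun i => |(i : ℝ) - j| ≤ 2 * Lm N s) := by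
  classical
  obtain ⟨N1, hN1⟩ := nb_tail
  obtain ⟨N2, hN2⟩ := num76 s0 hs0
  refine ⟨max N1 N2, fun N hN v j s hv hV0 hjN hlc hs1 hs2 hj1 hj2 => ?_⟩
  obtain ⟨hN12, hsq, hbig⟩ := hN2 N (le_trans (le_max_right _ _) hN)
  have htail := hN1 N (le_trans (le_max_left _ _) hN)
  set x : ℝ := (N : ℝ) + 1 with hx
  have hx13 : 13 ≤ x := by
    have : (12 : ℝ) ≤ N := by exact_mod_cast hN12
    linarith
  have hx0 : 0 < x := by linarith
  have hs : 0 < s := lt_of_lt_of_le (by positivity) hs1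
  set r := Real.exp (-s) with hr
  have hr0 : 0 < r := Real.exp_pos _
  have hr1 : r < 1 := by
    rw [hr, Real.exp_lt_one_iff]
    linarith
  have h1r : 0 < 1 - r := by linarith
  have hV := VV_pos76 hv hV0 s
  set V := VV N v s with hVdef
  set L := Lm N s with hL
  set ν := nu N s with hν
  have hsq0 : 0 ≤ Real.sqrt (x * Real.log x) := Real.sqrt_nonneg _
  have hL1 : 1 ≤ 2 * L := by
    rw [hL]; unfold Lm
    rw [← mul_div_assoc, le_div_iff₀ hs]
    linarith
  have hνle : ν ≤ (x + 1) * x := by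
    rw [hν]; unfold nu
    have h1 : Real.exp (-s) / (1 - Real.exp (-s)) ≤ 1 / s := by
      rw [div_le_div_iff₀ h1r hs]
      have h2 : Real.exp (-s) * (s + 1) ≤ 1 := by
        have h3 := mul_le_mul_of_nonneg_left (Real.add_one_le_exp s) (Real.exp_pos (-s)).le
        rw [← Real.exp_add, neg_add_cancel, Real.exp_zero] at h3
        exact h3
      linarith
    have h2 : 1 / s ≤ x := by
      rw [div_le_iff₀ hs]
      rw [div_le_iff₀ hx0] at hs1
      linarith
    calc ((N : ℝ) + 2) * Real.exp (-s) / (1 - Real.exp (-s))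
        = ((N : ℝ) + 2) * (Real.exp (-s) / (1 - Real.exp (-s))) := by ring
      _ ≤ ((N : ℝ) + 2) * x := mul_le_mul_of_nonneg_left (h1.trans h2) (by positivity)
      _ = (x + 1) * x := by rw [hx]; ring
  have hν0 : 0 ≤ ν := by
    rw [hν]; unfold nu
    exact div_nonneg (by positivity) h1r.le
  have hLle : L ≤ 7 * Real.sqrt (x * Real.log x) * x := by
    rw [hL]; unfold Lm
    rw [div_le_iff₀ hs]
    have h2 : 1 ≤ x * s := by
      rw [div_le_iff₀ hx0] at hs1
      linarith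
    have h3 : 0 ≤ 7 * Real.sqrt (x * Real.log x) := by positivity
    nlinarith [mul_le_mul_of_nonneg_left h2 h3]
  obtain ⟨z, hz⟩ : ∃ z : ℕ, z = ⌈(N : ℝ) + ν + L⌉₊ := ⟨_, rfl⟩
  have hNνL : 0 ≤ (N : ℝ) + ν + L := by
    have : (0 : ℝ) ≤ N := Nat.cast_nonneg _
    linarith
  have hz1 : (N : ℝ) + ν + L ≤ z := by rw [hz]; exact Nat.le_ceil _
  have hz2 : (z : ℝ) + 1 ≤ 2 * x ^ 2 := by
    have h1 : (z : ℝ) < (N : ℝ) + ν + L + 1 := by rw [hz]; exact Nat.ceil_lt_add_one hNνL
    have h2 : 7 * Real.sqrt (x * Real.log x) ≤ x - 4 := by linarith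
    have h3 : 7 * Real.sqrt (x * Real.log x) * x ≤ (x - 4) * x :=
      mul_le_mul_of_nonneg_right h2 hx0.le
    have h4 : (N : ℝ) = x - 1 := by rw [hx]; ring
    nlinarith
  -- the data for `S76.mass`
  let p : ℕ → ℝ := fun i => if i ≤ N then v i * Real.exp (-(s * i)) / V else 0
  let a : ℕ → ℝ := fun m => OV N v m * r ^ m * (1 - r) ^ (N + 2) / V
  have hNB0 : ∀ i, 0 ≤ NB N r i := fun i => by
    unfold NB
    exact mul_nonneg (mul_nonneg (Nat.cast_nonneg _) (pow_nonneg hr0.le _)) (pow_nonneg h1r.le _)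
  have hsum := nb_sum N r hr0 hr1
  have hpS : ∀ S : Finset ℕ, (∀ i ∈ S, i ≤ N) → ∑ i ∈ S, p i = VS v s S / V := by
    intro S hS
    unfold VS
    rw [Finset.sum_div]
    refine Finset.sum_congr rfl fun i hi => ?_
    simp only [p]
    rw [if_pos (hS i hi)]
  have hJ : 1 - 2 * (1 / x ^ 5) ≤
      ∑ k ∈ (Finset.range (z + 1)).filter (fun k : ℕ => |(k : ℝ) - ν| ≤ L), NB N r k := by
    have hle : ∀ M : ℕ, ∑ k ∈ Finset.range M, NB N r k ≤
        ∑ k ∈ (Finset.range (z + 1)).filter (fun k : ℕ => |(k : ℝ) - ν| ≤ L), NB N r k +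
          2 / x ^ 5 := by
      intro M
      rw [← Finset.sum_filter_add_sum_filter_not (Finset.range M)
        (fun k : ℕ => |(k : ℝ) - ν| ≤ L)]
      refine add_le_add ?_ ?_
      · refine Finset.sum_le_sum_of_subset_of_nonneg ?_ fun i _ _ => hNB0 i
        intro k hk
        obtain ⟨-, h2⟩ := Finset.mem_filter.1 hk
        refine Finset.mem_filter.2 ⟨Finset.mem_range.2 ?_, h2⟩
        have h3 := (abs_le.1 h2).2
        have h4 : (k : ℝ) ≤ z := by
          have : (0 : ℝ) ≤ N := Nat.cast_nonneg _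
          linarith
        have : k ≤ z := by exact_mod_cast h4
        omega
      · refine htail s hs _ ?_
        intro i hi
        exact not_le.1 (Finset.mem_filter.1 hi).2
    have := le_of_tendsto' hsum.tendsto_sum_nat hle
    have e : 2 * (1 / x ^ 5) = 2 / x ^ 5 := by ring
    linarith
  have hδ : 1 / x ^ 5 ≤ 1 / 6 := by
    refine one_div_le_one_div_of_le (by norm_num) ?_
    have : (13 : ℝ) ^ 5 ≤ x ^ 5 := pow_le_pow_left₀ (by norm_num) hx13 5
    linarith [this]
  have ha : ∀ m, a m = ∑ i ∈ Finset.range (m + 1), p i * NB N r (m - i) := by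
    intro m
    simp only [a]
    rw [OV_conv76 N v s m, Finset.sum_div]
    have e1 : ∑ i ∈ Finset.range (m + 1), p i * NB N r (m - i) =
        ∑ i ∈ (Finset.range (m + 1)).filter (fun i => i ≤ N), p i * NB N r (m - i) := by
      rw [Finset.sum_filter]
      refine Finset.sum_congr rfl fun i _ => ?_
      split_ifs with h
      · rfl
      · simp only [p]; rw [if_neg h, zero_mul]
    rw [e1]
    have e2 : (Finset.range (N + 1)).filter (fun i => i ≤ m) =
        (Finset.range (m + 1)).filter (fun i => i ≤ N) := by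
      ext i
      simp only [Finset.mem_filter, Finset.mem_range]
      omega
    rw [e2]
    refine Finset.sum_congr rfl fun i hi => ?_
    simp only [p]
    rw [if_pos (Finset.mem_filter.1 hi).2]
    ring
  have hOV0 : ∀ m, 0 ≤ OV N v m := fun m => by
    unfold OV
    exact Finset.sum_nonneg fun i _ => mul_nonneg (hv i) (Nat.cast_nonneg _)
  have hOVpos : ∀ m, 0 < OV N v m → 0 < OV N v (m + 1) := by
    intro m hm
    unfold OV at hm ⊢
    obtain ⟨i, hi, hpos⟩ : ∃ i ∈ Finset.range (N + 1),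
        0 < v i * ((N + 1 + m - i).choose (N + 1) : ℝ) := by
      by_contra hno
      push Not at hno
      have := Finset.sum_nonpos hno
      linarith
    have h1 : 0 < v i := by
      rcases (hv i).lt_or_eq with h | h
      · exact h
      · rw [← h, zero_mul] at hpos; exact absurd hpos (lt_irrefl _)
    have h2 : 0 < (N + 1 + m - i).choose (N + 1) := by
      rcases Nat.eq_zero_or_pos ((N + 1 + m - i).choose (N + 1)) with h | h
      · rw [h, Nat.cast_zero, mul_zero] at hpos; exact absurd hpos (lt_irrefl _)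
      · exact h
    have h3 : N + 1 ≤ N + 1 + m - i := by
      by_contra h
      rw [Nat.choose_eq_zero_of_lt (not_le.1 h)] at h2
      exact lt_irrefl _ h2
    have h4 : 0 < ((N + 1 + (m + 1) - i).choose (N + 1) : ℝ) := by
      exact_mod_cast Nat.choose_pos (by omega)
    refine lt_of_lt_of_le (mul_pos h1 h4) ?_
    exact Finset.single_le_sum
      (f := fun i : ℕ => v i * ((N + 1 + (m + 1) - i).choose (N + 1) : ℝ))
      (fun i _ => mul_nonneg (hv i) (Nat.cast_nonneg _)) hi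
  have hc0 : 0 < (1 - r) ^ (N + 2) / V := div_pos (pow_pos h1r _) hV
  have haeq : ∀ m, a m = OV N v m * r ^ m * ((1 - r) ^ (N + 2) / V) := fun m => by
    simp only [a]; ring
  have hmin : ∀ i k l, i ≤ k → k ≤ l → min (a i) (a l) ≤ a k := by
    intro i k l hik hkl
    refine lc_min76 a ?_ ?_ ?_ i k l hik hkl
    · intro m
      rw [haeq]
      exact mul_nonneg (mul_nonneg (hOV0 m) (pow_nonneg hr0.le _)) hc0.le
    · intro m
      rw [haeq, haeq, haeq]
      have h1 := mul_le_mul_of_nonneg_right (hlc m)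
        (mul_nonneg (pow_nonneg hr0.le (2 * m + 2)) (sq_nonneg ((1 - r) ^ (N + 2) / V)))
      calc OV N v m * r ^ m * ((1 - r) ^ (N + 2) / V) *
            (OV N v (m + 2) * r ^ (m + 2) * ((1 - r) ^ (N + 2) / V))
          = OV N v m * OV N v (m + 2) * (r ^ (2 * m + 2) * ((1 - r) ^ (N + 2) / V) ^ 2) := by ring
        _ ≤ OV N v (m + 1) ^ 2 * (r ^ (2 * m + 2) * ((1 - r) ^ (N + 2) / V) ^ 2) := h1
        _ = _ := by ring
    · intro m hm
      rw [haeq] at hm ⊢
      have h1 : 0 < OV N v m := by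
        rcases (hOV0 m).lt_or_eq with h | h
        · exact h
        · rw [← h, zero_mul, zero_mul] at hm; exact absurd hm (lt_irrefl _)
      exact mul_pos (mul_pos (hOVpos m h1) (pow_pos hr0 _)) hc0
  have hfin := S76.mass N z j p (NB N r) a
    (fun i => by
      simp only [p]
      split_ifs
      · exact div_nonneg (mul_nonneg (hv i) (Real.exp_pos _).le) hV.le
      · exact le_rfl)
    hNB0
    (fun i hi => by simp only [p]; rw [if_neg (by omega)])
    (by
      rw [hpS _ (fun i hi => by have := Finset.mem_range.1 hi; omega)]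
      exact div_self hV.ne')
    (fun M => sum_le_hasSum _ (fun i _ => hNB0 i) hsum)
    ν L (1 / x ^ 5) hν0 hL1 hδ hz1 hjN hJ ha hmin
    (by
      rw [hpS _ (fun i hi => by have := Finset.mem_range.1 hi; omega), le_div_iff₀ hV]
      linarith)
    (by
      have e : Finset.Ico j (N + 1) = (Finset.range (N + 1)).filter fun i => j ≤ i := by
        ext i
        simp only [Finset.mem_Ico, Finset.mem_filter, Finset.mem_range]
        omega
      rw [e, hpS _ (fun i hi => by
        have := Finset.mem_range.1 (Finset.mem_filter.1 hi).1; omega), le_div_iff₀ hV]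
      linarith)
  rw [hpS _ (fun i hi => by have := Finset.mem_range.1 (Finset.mem_filter.1 hi).1; omega)] at hfin
  have hnum : 1 / x ^ 3 ≤ 1 / (6 * ((z : ℝ) + 1)) - 2 * (1 / x ^ 5) := by
    have h1 : 1 / (12 * x ^ 2) ≤ 1 / (6 * ((z : ℝ) + 1)) :=
      one_div_le_one_div_of_le (by positivity) (by linarith)
    have h2 : 1 / x ^ 3 + 2 * (1 / x ^ 5) ≤ 1 / (12 * x ^ 2) := by
      rw [← sub_nonneg]
      have e : 1 / (12 * x ^ 2) - (1 / x ^ 3 + 2 * (1 / x ^ 5)) =
          (x ^ 3 - 12 * x ^ 2 - 24) / (12 * x ^ 5) := by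
        field_simp
        ring
      rw [e]
      refine div_nonneg ?_ (by positivity)
      nlinarith [mul_nonneg (mul_nonneg hx0.le hx0.le) (sub_nonneg.2 hx13)]
    linarith
  have hend := hnum.trans hfin
  rw [le_div_iff₀ hV] at hend
  calc V / x ^ 3 = 1 / x ^ 3 * V := by ring
    _ ≤ _ := hend

end Pool.TA43
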