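import Pool.Agent.TA43.NB
import Pool.Agent.TA43.MassT76

set_option autoImplicit false

/-!
# TA43/Mass: the tilted law has mass near its median

PROOF. `r = e^(-s)`, `n = N + 1`, `p_i = v_i r^i/VV`, `a m = OV N v m r^m (1 - r)^(N+2)/VV = ∑_(i ≤ N) p_i NB(m - i)`
(`i ≤ m`), `Λ = Lm N s`, `ν = nu N s`. `I0 = {l : |l - ν| ≤ Λ}`: `∑_(I0) NB ≥ 1 - 2/n^5` (`nb_sum`,
`nb_tail`). (a) `∑_(m ≤ j+ν+Λ) a_m ≥ (1/2)(1 - 2/n^5) ≥ 1/3` (pairs `i ≤ j`, `l ∈ I0`). (b) the same for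
`j+ν-Λ ≤ m ≤ z := N + ν + Λ`. (c) `I = {m : |m - j - ν| ≤ Λ}`: if `∑_I a < 1/6` then some `m1 < I` has
`a ≥ 1/(6(z+1))` and some `m2 > I`, `m2 ≤ z` has `a ≥ 1/(6(z+1))`; `a` is log-concave without holes
(`a_m > 0` from the first `m` with `v_m > 0` on), so `a ≥ 1/(6(z+1))` on `I`, and `I` contains a natural
number (`Λ ≥ 1`: if `s` is so large that `Λ < 1/2`, see the hypothesis `s ≤ s0`). (d) `∑_I a ≤
P(|i - j| ≤ 2Λ) + 2/n^5`. `z + 1 ≤ 2 n^2` for `1/n ≤ s`, large `n`, so `P ≥ 1/(12 n^2) - 2/n^5 ≥ 1/n^3`.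
-/

namespace Pool.TA43

open Pool.HB45 Pool.HM63 Pool.PH43 Pool.SC25 Pool.SC45

/-- log-concavity gives `a_k ≥ min` between two points. `x` log-concave, `x_m > 0` for `m ≥ m0`,
`x_m = 0` for `m < m0`. -/
theorem lc_min (x : ℕ → ℝ) (h0 : ∀ m, 0 ≤ x m) (hlc : ∀ m, x m * x (m + 2) ≤ x (m + 1) ^ 2)
    (hpos : ∀ m, 0 < x m → 0 < x (m + 1)) (i k l : ℕ) (hik : i ≤ k) (hkl : k ≤ l) :
    min (x i) (x l) ≤ x k :=
  lc_min76 x h0 hlc hpos i k l hik hkl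

/-- `a m = ∑ p_i NB (m - i)` in the form without division -/
theorem OV_conv (N : ℕ) (v : ℕ → ℝ) (s : ℝ) (m : ℕ) :
    OV N v m * Real.exp (-s) ^ m * (1 - Real.exp (-s)) ^ (N + 2) =
      ∑ i ∈ (Finset.range (N + 1)).filter (fun i => i ≤ m),
        v i * Real.exp (-(s * i)) * NB N (Real.exp (-s)) (m - i) :=
  OV_conv76 N v s m

theorem mass (s0 : ℝ) (hs0 : 0 < s0) : ∃ N0 : ℕ, ∀ N ≥ N0, ∀ (v : ℕ → ℝ) (j : ℕ) (s : ℝ),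
    (∀ i, 0 ≤ v i) → 0 < VV N v 0 → j ≤ N →
    (∀ m, OV N v m * OV N v (m + 2) ≤ OV N v (m + 1) ^ 2) →
    1 / ((N : ℝ) + 1) ≤ s → s ≤ s0 →
    VV N v s / 2 ≤ VS v s (Finset.range (j + 1)) →
    VV N v s / 2 ≤ VS v s ((Finset.range (N + 1)).filter fun i => j ≤ i) →
    VV N v s / ((N : ℝ) + 1) ^ 3 ≤
      VS v s ((Finset.range (N + 1)).filter fun i => |(i : ℝ) - j| ≤ 2 * Lm N s) :=
  mass76 s0 hs0

end Pool.TA43
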