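import Pool.Agent.TA43.Defs
import Pool.Agent.TA64.NB

set_option autoImplicit false

/-!
# TA43/NB: the negative binomial law

`NB N r i = C(N + 1 + i, N + 1) r^i (1 - r)^(N + 2)`, mean `nu N r = (N + 2) r/(1 - r)`, `r = e^(-s)`.
-/

namespace Pool.TA43

open Pool.HB45 Pool.HM63 Pool.PH43 Pool.SC25 Pool.SC45

/-- negative binomial probabilities -/
noncomputable def NB (N : ℕ) (r : ℝ) (i : ℕ) : ℝ :=
  ((N + 1 + i).choose (N + 1) : ℝ) * r ^ i * (1 - r) ^ (N + 2)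

/-- the mean -/
noncomputable def nu (N : ℕ) (s : ℝ) : ℝ :=
  ((N : ℝ) + 2) * Real.exp (-s) / (1 - Real.exp (-s))

theorem NB_eq64 (N : ℕ) (s : ℝ) (i : ℕ) : NB N (Real.exp (-s)) i = Pool.TA64.nb (N + 1) s i := by
  unfold NB Pool.TA64.nb
  rw [add_comm i (N + 1)]

/-- PROOF. `hasSum_choose_mul_geometric_of_norm_lt_one`. -/
theorem nb_sum (N : ℕ) (r : ℝ) (h0 : 0 < r) (h1 : r < 1) : HasSum (NB N r) 1 := by
  have hs : 0 < -Real.log r := by
    have := Real.log_neg h0 h1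
    linarith
  have h := Pool.TA64.hasSum_nb (N + 1) hs
  have h2 : NB N r = Pool.TA64.nb (N + 1) (-Real.log r) := by
    funext i
    rw [← NB_eq64, neg_neg, Real.exp_log h0]
  rw [h2]
  exact h

theorem one_sub_exp_pos64 {s : ℝ} (hs : 0 < s) : 0 < 1 - Real.exp (-s) := by
  have : Real.exp (-s) < 1 := Real.exp_lt_one_iff.mpr (by linarith)
  linarith

theorem inv_eq64 {s : ℝ} (hs : 0 < s) : Real.exp (-s) / (1 - Real.exp (-s)) = (Real.exp s - 1)⁻¹ := by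
  have h4 : Real.exp (-s) * Real.exp s = 1 := by rw [← Real.exp_add]; simp
  have h5 := Pool.TA64.exp_sub_one_pos hs
  rw [div_eq_iff (one_sub_exp_pos64 hs).ne', inv_mul_eq_div, eq_div_iff h5.ne']
  linear_combination h4

/-- PROOF. Taylor: `f x = -log (1 - e^(-x))`, `f'' x = 1/(4 sinh^2 (x/2)) ≤ 1/x^2`, points `s` and `s - λ ≥ s/2`:
`f (s - λ) - f s + λ f' s ≤ (λ^2/2) (2/s)^2`, `f' s = -1/(e^s - 1) = -e^(-s)/(1 - e^(-s))`. -/
theorem nb_log (s l : ℝ) (hs : 0 < s) (hl : |l| ≤ s / 2) :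
    Real.log ((1 - Real.exp (-s)) / (1 - Real.exp (-(s - l)))) ≤
      l * Real.exp (-s) / (1 - Real.exp (-s)) + 2 * l ^ 2 / s ^ 2 := by
  have hl' := abs_le.mp hl
  have hu : s / 2 ≤ s - l := by linarith [hl'.2]
  have hu0 : 0 < s - l := by linarith
  have h := Pool.TA64.mgf_key hs hu
  have h1 := one_sub_exp_pos64 hs
  have h2 := one_sub_exp_pos64 hu0
  have h3 : s - (s - l) = l := by ring
  rw [h3] at h
  rw [Real.log_le_iff_le_exp (div_pos h1 h2), div_le_iff₀ h2]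
  refine h.trans ?_
  rw [mul_comm]
  refine mul_le_mul_of_nonneg_right ?_ h2.le
  rw [Real.exp_le_exp]
  have h4 : l * Real.exp (-s) / (1 - Real.exp (-s)) = l / (Real.exp s - 1) := by
    rw [mul_div_assoc, inv_eq64 hs, div_eq_mul_inv]
  rw [h4]
  have h5 : l ^ 2 / s ^ 2 ≤ 2 * l ^ 2 / s ^ 2 := by
    gcongr
    nlinarith [sq_nonneg l]
  linarith

/-- PROOF. `∑ NB e^(l i) = ((1 - r)/(1 - r e^l))^(N + 2)` (`nb_sum` at `r e^l < 1`), `nb_log`. -/
theorem nb_mgf (N : ℕ) (s l : ℝ) (hs : 0 < s) (hl : |l| ≤ s / 2) (S : Finset ℕ) :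
    ∑ i ∈ S, NB N (Real.exp (-s)) i * Real.exp (l * ((i : ℝ) - nu N s)) ≤
      Real.exp (2 * l ^ 2 * ((N : ℝ) + 2) / s ^ 2) := by
  have hl' := abs_le.mp hl
  have hu : s / 2 ≤ s - l := by linarith [hl'.2]
  have hu0 : 0 < s - l := by linarith
  have hnu : nu N s = ((N : ℝ) + 2) * (Real.exp s - 1)⁻¹ := by
    unfold nu
    rw [mul_div_assoc, inv_eq64 hs]
  have hterm : ∀ i : ℕ, NB N (Real.exp (-s)) i * Real.exp (l * ((i : ℝ) - nu N s)) ≤
      Pool.TA64.nb (N + 1) (s - l) i * Real.exp (2 * l ^ 2 * ((N : ℝ) + 2) / s ^ 2) := by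
    intro i
    rw [NB_eq64]
    have h := Pool.TA64.nb_tilt (N + 1) hs hu i
    have h3 : s - (s - l) = l := by ring
    rw [h3] at h
    have h4 := mul_le_mul_of_nonneg_right h (Real.exp_pos (l * ((i : ℝ) - nu N s))).le
    refine h4.trans ?_
    rw [mul_assoc, mul_assoc, ← Real.exp_add, ← Real.exp_add]
    refine mul_le_mul_of_nonneg_left ?_ (Pool.TA64.nb_nonneg (N + 1) hu0 i)
    rw [Real.exp_le_exp, hnu]
    have h5 : (((N + 1 : ℕ) : ℝ) + 1) * (l / (Real.exp s - 1) + l ^ 2 / s ^ 2) =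
        l * (((N : ℝ) + 2) * (Real.exp s - 1)⁻¹) + ((N : ℝ) + 2) * (l ^ 2 / s ^ 2) := by
      push_cast
      ring
    have h6 : ((N : ℝ) + 2) * (l ^ 2 / s ^ 2) ≤ 2 * l ^ 2 * ((N : ℝ) + 2) / s ^ 2 := by
      have h7 : 2 * l ^ 2 * ((N : ℝ) + 2) / s ^ 2 = 2 * (((N : ℝ) + 2) * (l ^ 2 / s ^ 2)) := by ring
      rw [h7]
      have h8 : 0 ≤ ((N : ℝ) + 2) * (l ^ 2 / s ^ 2) := by positivity
      linarith
    rw [h5]
    linarith
  have hsum := Pool.TA64.hasSum_nb (N + 1) hu0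
  calc ∑ i ∈ S, NB N (Real.exp (-s)) i * Real.exp (l * ((i : ℝ) - nu N s))
      ≤ ∑ i ∈ S, Pool.TA64.nb (N + 1) (s - l) i * Real.exp (2 * l ^ 2 * ((N : ℝ) + 2) / s ^ 2) :=
        Finset.sum_le_sum fun i _ => hterm i
    _ = (∑ i ∈ S, Pool.TA64.nb (N + 1) (s - l) i) * Real.exp (2 * l ^ 2 * ((N : ℝ) + 2) / s ^ 2) := by
        rw [Finset.sum_mul]
    _ ≤ 1 * Real.exp (2 * l ^ 2 * ((N : ℝ) + 2) / s ^ 2) := by
        refine mul_le_mul_of_nonneg_right ?_ (Real.exp_pos _).le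
        have := sum_le_hasSum S (fun i _ => Pool.TA64.nb_nonneg (N + 1) hu0 i) hsum
        exact this
    _ = _ := one_mul _

/-- one side -/
theorem nb_side64 {N : ℕ} (hN : 16 ≤ N) (hN2 : 16 * Real.log ((N : ℝ) + 1) ≤ (N : ℝ) + 1) {s : ℝ}
    (hs : 0 < s) (σ : ℝ) (hσ : σ = 1 ∨ σ = -1) (S : Finset ℕ)
    (hS : ∀ i ∈ S, Lm N s ≤ σ * ((i : ℝ) - nu N s)) :
    ∑ i ∈ S, NB N (Real.exp (-s)) i ≤ 1 / ((N : ℝ) + 1) ^ 5 := by
  set n : ℝ := (N : ℝ) + 1 with hn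
  have hn16 : (17 : ℝ) ≤ n := by
    have : (16 : ℝ) ≤ N := by exact_mod_cast hN
    rw [hn]; linarith
  have hn0 : 0 < n := by linarith
  have hlog : 0 ≤ Real.log n := Real.log_nonneg (by linarith)
  set q : ℝ := Real.sqrt (Real.log n / n) with hq
  have hq0 : 0 ≤ q := Real.sqrt_nonneg _
  have hq1 : q ≤ 1 / 4 := by
    rw [hq, show (1 / 4 : ℝ) = Real.sqrt ((1 / 4) ^ 2) by rw [Real.sqrt_sq (by norm_num)]]
    refine Real.sqrt_le_sqrt ?_
    rw [div_le_iff₀ hn0]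
    linarith
  have hqq : q ^ 2 = Real.log n / n := Real.sq_sqrt (by positivity)
  have hqL : q * Real.sqrt (n * Real.log n) = Real.log n := by
    rw [hq, ← Real.sqrt_mul (by positivity)]
    have : Real.log n / n * (n * Real.log n) = Real.log n ^ 2 := by field_simp
    rw [this, Real.sqrt_sq hlog]
  have hσ2 : σ ^ 2 = 1 := by rcases hσ with h | h <;> rw [h] <;> norm_num
  have hσa : |σ| = 1 := by rcases hσ with h | h <;> rw [h] <;> simp
  set l : ℝ := σ * (2 * s * q) with hl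
  have hla : |l| ≤ s / 2 := by
    rw [hl, abs_mul, hσa, one_mul, abs_of_nonneg (by positivity)]
    nlinarith
  have hl2 : l ^ 2 = 4 * s ^ 2 * q ^ 2 := by
    rw [hl, mul_pow, hσ2]; ring
  have hmgf := nb_mgf N s l hs hla S
  have hterm : ∀ i ∈ S, NB N (Real.exp (-s)) i * Real.exp (14 * Real.log n) ≤
      NB N (Real.exp (-s)) i * Real.exp (l * ((i : ℝ) - nu N s)) := by
    intro i hi
    refine mul_le_mul_of_nonneg_left ?_ (by rw [NB_eq64]; exact Pool.TA64.nb_nonneg (N + 1) hs i)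
    rw [Real.exp_le_exp]
    have h1 := hS i hi
    have h2 : l * ((i : ℝ) - nu N s) = 2 * s * q * (σ * ((i : ℝ) - nu N s)) := by rw [hl]; ring
    rw [h2]
    have h3 : 2 * s * q * Lm N s ≤ 2 * s * q * (σ * ((i : ℝ) - nu N s)) :=
      mul_le_mul_of_nonneg_left h1 (by positivity)
    refine le_trans (le_of_eq ?_) h3
    unfold Lm
    rw [← hn]
    have h4 : 2 * s * q * (7 * Real.sqrt (n * Real.log n) / s) =
        14 * (q * Real.sqrt (n * Real.log n)) * (s / s) := by ring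
    rw [h4, hqL, div_self hs.ne', mul_one]
  have h1 : (∑ i ∈ S, NB N (Real.exp (-s)) i) * Real.exp (14 * Real.log n) ≤
      Real.exp (2 * l ^ 2 * ((N : ℝ) + 2) / s ^ 2) := by
    rw [Finset.sum_mul]
    exact (Finset.sum_le_sum hterm).trans hmgf
  have h2 : 2 * l ^ 2 * ((N : ℝ) + 2) / s ^ 2 ≤ 9 * Real.log n := by
    have h3 : 2 * l ^ 2 * ((N : ℝ) + 2) / s ^ 2 = 8 * q ^ 2 * ((N : ℝ) + 2) * (s ^ 2 / s ^ 2) := by
      rw [hl2]; ring
    rw [h3, div_self (by positivity), mul_one, hqq]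
    have h4 : (N : ℝ) + 2 = n + 1 := by rw [hn]; ring
    rw [h4]
    have h5 : 8 * (Real.log n / n) * (n + 1) = 8 * Real.log n * ((n + 1) / n) := by ring
    have h6 : (n + 1) / n ≤ 9 / 8 := by
      rw [div_le_div_iff₀ hn0 (by norm_num)]
      linarith
    rw [h5]
    nlinarith
  have h3 : (∑ i ∈ S, NB N (Real.exp (-s)) i) ≤ Real.exp (9 * Real.log n) * Real.exp (-(14 * Real.log n)) := by
    have h4 : Real.exp (14 * Real.log n) * Real.exp (-(14 * Real.log n)) = 1 := by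
      rw [← Real.exp_add]; simp
    calc (∑ i ∈ S, NB N (Real.exp (-s)) i)
        = (∑ i ∈ S, NB N (Real.exp (-s)) i) * Real.exp (14 * Real.log n) *
          Real.exp (-(14 * Real.log n)) := by rw [mul_assoc, h4, mul_one]
      _ ≤ Real.exp (9 * Real.log n) * Real.exp (-(14 * Real.log n)) :=
        mul_le_mul_of_nonneg_right (h1.trans (Real.exp_le_exp.mpr h2)) (Real.exp_pos _).le
  refine h3.trans (le_of_eq ?_)
  rw [← Real.exp_add]
  have h5 : 9 * Real.log n + -(14 * Real.log n) = -(((5 : ℕ) : ℝ) * Real.log n) := by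
    push_cast
    ring
  rw [h5, Real.exp_neg, Real.exp_nat_mul, Real.exp_log hn0, one_div]

/-- TAILS. PROOF. `nb_mgf` at `l = ± 2 s √(log n/n)`, `n = N + 1`: `|l| ≤ s/2` for large `n`,
`2 l² (n + 1)/s² = 8 log n (n + 1)/n`, `|l| Λ = 14 log n`; each side at most `n^(-5)`. -/
theorem nb_tail : ∃ N0 : ℕ, ∀ N ≥ N0, ∀ s : ℝ, 0 < s → ∀ S : Finset ℕ,
    (∀ i ∈ S, Lm N s < |(i : ℝ) - nu N s|) →
    ∑ i ∈ S, NB N (Real.exp (-s)) i ≤ 2 / ((N : ℝ) + 1) ^ 5 := by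
  classical
  have hlim : ∀ᶠ x : ℝ in Filter.atTop, Real.log x ≤ 1 / 16 * x := by
    have h := Real.isLittleO_log_id_atTop.bound (by norm_num : (0 : ℝ) < 1 / 16)
    filter_upwards [h, Filter.eventually_ge_atTop 1] with x hx h1
    rw [Real.norm_eq_abs, id, Real.norm_eq_abs, abs_of_nonneg (by linarith : (0 : ℝ) ≤ x)] at hx
    exact (le_abs_self _).trans hx
  obtain ⟨x0, hx0⟩ := Filter.eventually_atTop.mp hlim
  obtain ⟨N1, hN1⟩ := exists_nat_ge x0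
  refine ⟨max 16 N1, fun N hN s hs S hS => ?_⟩
  have h16 : 16 ≤ N := le_trans (le_max_left _ _) hN
  have hNN : (N1 : ℝ) ≤ N := by exact_mod_cast le_trans (le_max_right _ _) hN
  have hN2 : 16 * Real.log ((N : ℝ) + 1) ≤ (N : ℝ) + 1 := by
    have := hx0 ((N : ℝ) + 1) (by linarith)
    linarith
  have hp := nb_side64 h16 hN2 hs 1 (Or.inl rfl) (S.filter fun i => Lm N s ≤ (i : ℝ) - nu N s)
    (fun i hi => by rw [one_mul]; exact (Finset.mem_filter.mp hi).2)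
  have hm := nb_side64 h16 hN2 hs (-1) (Or.inr rfl) (S.filter fun i => ¬ Lm N s ≤ (i : ℝ) - nu N s)
    (fun i hi => by
      have h1 := (Finset.mem_filter.mp hi)
      have h2 := hS i h1.1
      have h3 := not_le.mp h1.2
      rcases lt_abs.mp h2 with h4 | h4
      · exact absurd h4 (not_lt.mpr h3.le)
      · linarith)
  rw [← Finset.sum_filter_add_sum_filter_not S (fun i : ℕ => Lm N s ≤ (i : ℝ) - nu N s)]
  have h2 : (2 : ℝ) / ((N : ℝ) + 1) ^ 5 = 1 / ((N : ℝ) + 1) ^ 5 + 1 / ((N : ℝ) + 1) ^ 5 := by ring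
  rw [h2]
  exact add_le_add hp hm

end Pool.TA43
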