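import Pool.Agent.TA43.Defs
import Mathlib.Combinatorics.SetFamily.FourFunctions

set_option autoImplicit false

/-!
# TA43/OmLC: the order polynomials are log-concave

`Finset.le_card_infs_mul_card_sups` (Daykin); by helper76 and helper34.
-/

namespace Pool.TA43

open Pool.HB45 Pool.HM63 Pool.PH43 Pool.SC25 Pool.SC45
open Finset
open scoped FinsetFamily

/-- maps with values in `[a, b)` and the property `P` -/
noncomputable def Vv {n : ℕ} (P : (Fin n → ℕ) → Prop) (a b : ℕ) : Finset (Fin n → ℕ) := by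
  classical
  exact (Fintype.piFinset fun _ => Ico a b).filter P

theorem mem_Vv {n : ℕ} {P : (Fin n → ℕ) → Prop} {a b : ℕ} {f : Fin n → ℕ} :
    f ∈ Vv P a b ↔ (∀ i, a ≤ f i ∧ f i < b) ∧ P f := by
  classical
  simp [Vv, Fintype.mem_piFinset]

theorem Vv_shift {n : ℕ} {P : (Fin n → ℕ) → Prop} (hP : ∀ f, P (fun i => f i + 1) ↔ P f) (k : ℕ) :
    (Vv P 1 (k + 1)).card = (Vv P 0 k).card := by
  classical
  symm
  refine card_bij (fun f _ => fun i => f i + 1) ?_ ?_ ?_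
  · intro f hf
    rw [mem_Vv] at hf ⊢
    exact ⟨fun i => ⟨by omega, by have := (hf.1 i).2; omega⟩, (hP f).2 hf.2⟩
  · intro f _ g _ h
    funext i
    have := congrFun h i
    simpa using this
  · intro g hg
    rw [mem_Vv] at hg
    have e : (fun i => (g i - 1) + 1) = g := by
      funext i
      have := (hg.1 i).1
      omega
    refine ⟨fun i => g i - 1, ?_, e⟩
    rw [mem_Vv]
    refine ⟨fun i => ⟨Nat.zero_le _, by have := hg.1 i; omega⟩, ?_⟩
    rw [← hP]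
    have h2 := hg.2
    rw [← e] at h2
    exact h2

theorem Vv_lc {n : ℕ} {P : (Fin n → ℕ) → Prop} (hP : ∀ f, P (fun i => f i + 1) ↔ P f)
    (hsup : ∀ f g, P f → P g → P (f ⊔ g)) (hinf : ∀ f g, P f → P g → P (f ⊓ g)) (k : ℕ) :
    (Vv P 0 k).card * (Vv P 0 (k + 2)).card ≤ (Vv P 0 (k + 1)).card ^ 2 := by
  classical
  have h1 := Finset.le_card_infs_mul_card_sups (Vv P 1 (k + 1)) (Vv P 0 (k + 2))
  have h2 : Vv P 1 (k + 1) ⊼ Vv P 0 (k + 2) ⊆ Vv P 0 (k + 1) := by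
    intro f hf
    obtain ⟨a, ha, b, hb, rfl⟩ := Finset.mem_infs.1 hf
    rw [mem_Vv] at ha hb ⊢
    refine ⟨fun i => ⟨Nat.zero_le _, ?_⟩, hinf _ _ ha.2 hb.2⟩
    exact lt_of_le_of_lt inf_le_left (ha.1 i).2
  have h3 : Vv P 1 (k + 1) ⊻ Vv P 0 (k + 2) ⊆ Vv P 1 (k + 2) := by
    intro f hf
    obtain ⟨a, ha, b, hb, rfl⟩ := Finset.mem_sups.1 hf
    rw [mem_Vv] at ha hb ⊢
    refine ⟨fun i => ⟨le_trans (ha.1 i).1 le_sup_left, ?_⟩, hsup _ _ ha.2 hb.2⟩
    exact max_lt (by have := (ha.1 i).2; omega) (hb.1 i).2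
  have h4 := Vv_shift hP k
  have h5 := Vv_shift hP (k + 1)
  calc (Vv P 0 k).card * (Vv P 0 (k + 2)).card
      = (Vv P 1 (k + 1)).card * (Vv P 0 (k + 2)).card := by rw [h4]
    _ ≤ _ := h1
    _ ≤ (Vv P 0 (k + 1)).card * (Vv P 1 (k + 2)).card :=
        Nat.mul_le_mul (card_le_card h2) (card_le_card h3)
    _ = (Vv P 0 (k + 1)).card * (Vv P 0 (k + 1)).card := by rw [h5]
    _ = _ := by ring

theorem card_Vv {n : ℕ} {P : (Fin n → ℕ) → Prop} (k : ℕ) [DecidablePred fun f : Fin n → Fin k =>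
    P fun i => (f i).val] :
    (Vv P 0 k).card = (univ.filter fun f : Fin n → Fin k => P fun i => (f i).val).card := by
  classical
  symm
  refine card_bij (fun f _ => fun i => (f i).val) ?_ ?_ ?_
  · intro f hf
    rw [mem_Vv]
    exact ⟨fun i => ⟨Nat.zero_le _, (f i).isLt⟩, (mem_filter.1 hf).2⟩
  · intro f _ g _ h
    funext i
    exact Fin.ext (congrFun h i)
  · intro g hg
    rw [mem_Vv] at hg
    exact ⟨fun i => ⟨g i, (hg.1 i).2⟩, mem_filter.2 ⟨mem_univ _, hg.2⟩, rfl⟩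

theorem om_lc {n : ℕ} (Q : Rel n) (M : ℕ) :
    (Mp Q M).card * (Mp Q (M + 2)).card ≤ (Mp Q (M + 1)).card ^ 2 := by
  classical
  have h := Vv_lc (n := n) (P := fun f => ∀ a b, Q a b → f a ≤ f b)
    (fun f => by simp) (fun f g hf hg a b hab => sup_le_sup (hf a b hab) (hg a b hab))
    (fun f g hf hg a b hab => inf_le_inf (hf a b hab) (hg a b hab)) M
  have e : ∀ k, (Mp Q k).card =
      (Vv (fun f : Fin n → ℕ => ∀ a b, Q a b → f a ≤ f b) 0 k).card := by
    intro k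
    rw [card_Vv k]
    unfold Mp
    congr 1
  rw [e M, e (M + 2), e (M + 1)]
  exact h

theorem os_lc {n : ℕ} (Q : Rel n) (M : ℕ) :
    (Ms Q M).card * (Ms Q (M + 2)).card ≤ (Ms Q (M + 1)).card ^ 2 := by
  classical
  have h := Vv_lc (n := n) (P := fun f => ∀ a b, Q a b → f a < f b)
    (fun f => by simp) (fun f g hf hg a b hab => max_lt_max (hf a b hab) (hg a b hab))
    (fun f g hf hg a b hab => min_lt_min (hf a b hab) (hg a b hab)) M
  have e : ∀ k, (Ms Q k).card =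
      (Vv (fun f : Fin n → ℕ => ∀ a b, Q a b → f a < f b) 0 k).card := by
    intro k
    rw [card_Vv k]
    unfold Ms
    congr 1
  rw [e M, e (M + 2), e (M + 1)]
  exact h

end Pool.TA43
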