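import Pool.Agent.TA43.Defs

set_option autoImplicit false

/-!
# TA43/TB23: tilts whose median is at a high level are bounded (helper23 for helper41, helper43)
-/

namespace Pool.TA43

open Pool.HB45 Pool.HM63 Pool.PH43 Pool.SC25 Pool.SC45

theorem VV_pos23 {N : ℕ} {v : ℕ → ℝ} (hv : ∀ i, 0 ≤ v i) (hV : 0 < VV N v 0) {s : ℝ}
    (hs : 0 ≤ s) : 0 < VV N v s := by
  have h1 : Real.exp (-(s * N)) * VV N v 0 ≤ VV N v s := by
    unfold VV
    rw [Finset.mul_sum]
    refine Finset.sum_le_sum fun i hi => ?_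
    rw [Finset.mem_range] at hi
    have h2 : (i : ℝ) ≤ N := by exact_mod_cast Nat.lt_succ_iff.mp hi
    have h3 : Real.exp (-(s * N)) ≤ Real.exp (-(s * i)) := by
      apply Real.exp_le_exp.mpr
      have := mul_le_mul_of_nonneg_left h2 hs
      linarith
    rw [zero_mul, neg_zero, Real.exp_zero, mul_one, mul_comm]
    exact mul_le_mul_of_nonneg_left h3 (hv i)
  exact lt_of_lt_of_le (mul_pos (Real.exp_pos _) hV) h1

theorem le_OV23 {N : ℕ} {v : ℕ → ℝ} (hv : ∀ i, 0 ≤ v i) {l : ℕ} (hl : l ≤ N) :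
    v l ≤ OV N v l := by
  unfold OV
  have h := Finset.single_le_sum (f := fun i => v i * ((N + 1 + l - i).choose (N + 1) : ℝ))
    (s := Finset.range (N + 1)) (fun i _ => mul_nonneg (hv i) (Nat.cast_nonneg _))
    (Finset.mem_range.mpr (Nat.lt_succ_of_le hl))
  have e : N + 1 + l - l = N + 1 := by omega
  simp only [e, Nat.choose_self, Nat.cast_one, mul_one] at h
  exact h

theorem OV_le23 {N : ℕ} {v : ℕ → ℝ} (hv : ∀ i, 0 ≤ v i) {m : ℕ} (hm : m ≤ N) :
    OV N v m ≤ 2 ^ (2 * N + 1) * ∑ i ∈ Finset.range (m + 1), v i := by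
  unfold OV
  have h1 : ∑ i ∈ Finset.range (N + 1), v i * ((N + 1 + m - i).choose (N + 1) : ℝ) =
      ∑ i ∈ Finset.range (m + 1), v i * ((N + 1 + m - i).choose (N + 1) : ℝ) := by
    symm
    apply Finset.sum_subset
    · intro i hi
      rw [Finset.mem_range] at hi ⊢
      omega
    · intro i _ hi
      rw [Finset.mem_range] at hi
      rw [Nat.choose_eq_zero_of_lt (by omega), Nat.cast_zero, mul_zero]
  rw [h1, Finset.mul_sum]
  refine Finset.sum_le_sum fun i _ => ?_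
  rw [mul_comm]
  refine mul_le_mul_of_nonneg_right ?_ (hv i)
  have h2 : (N + 1 + m - i).choose (N + 1) ≤ 2 ^ (2 * N + 1) :=
    (Nat.choose_le_two_pow _ _).trans (Nat.pow_le_pow_right (by norm_num) (by omega))
  exact_mod_cast h2

theorem term_le23 {N : ℕ} {v : ℕ → ℝ} {β : ℕ} (hv : ∀ i, 0 ≤ v i)
    (hO : ∀ t, OV N v (β + t) ≤ 2 ^ (N + 1) * OV N v (β + t / 2)) {s : ℝ} (hs : 0 ≤ s) {l : ℕ}
    (hl : l ≤ N) {x : ℝ} (hx0 : 0 ≤ x) (hx : (β : ℝ) + x ≤ l) :
    v l * Real.exp (-(s * l)) ≤ 2 ^ (3 * N + 2) * Real.exp (-(s * (x / 2))) * VV N v s := by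
  have hβ : β ≤ l := by
    have : (β : ℝ) ≤ l := by linarith
    exact_mod_cast this
  obtain ⟨t, rfl⟩ := Nat.exists_eq_add_of_le hβ
  have hxt : x ≤ t := by
    push_cast at hx
    linarith
  have h1 : v (β + t) ≤ 2 ^ (N + 1) * (2 ^ (2 * N + 1) *
      ∑ i ∈ Finset.range (β + t / 2 + 1), v i) :=
    (le_OV23 hv hl).trans ((hO t).trans
      (mul_le_mul_of_nonneg_left (OV_le23 hv (by omega)) (by positivity)))
  have h2 : (∑ i ∈ Finset.range (β + t / 2 + 1), v i) * Real.exp (-(s * ((β + t : ℕ) : ℝ))) ≤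
      Real.exp (-(s * (x / 2))) * VV N v s := by
    unfold VV
    rw [Finset.sum_mul, Finset.mul_sum]
    have h3 : ∑ i ∈ Finset.range (β + t / 2 + 1), v i * Real.exp (-(s * ((β + t : ℕ) : ℝ))) ≤
        ∑ i ∈ Finset.range (β + t / 2 + 1),
          Real.exp (-(s * (x / 2))) * (v i * Real.exp (-(s * i))) := by
      refine Finset.sum_le_sum fun i hi => ?_
      rw [Finset.mem_range] at hi
      have h4 : (i : ℝ) + x / 2 ≤ ((β + t : ℕ) : ℝ) := by
        have h5 : 2 * i ≤ 2 * β + t := by omega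
        have h6 : (2 : ℝ) * i ≤ 2 * β + t := by exact_mod_cast h5
        push_cast
        linarith
      have h7 : Real.exp (-(s * ((β + t : ℕ) : ℝ))) ≤
          Real.exp (-(s * (x / 2))) * Real.exp (-(s * i)) := by
        rw [← Real.exp_add]
        apply Real.exp_le_exp.mpr
        have := mul_le_mul_of_nonneg_left h4 hs
        linarith
      calc v i * Real.exp (-(s * ((β + t : ℕ) : ℝ)))
          ≤ v i * (Real.exp (-(s * (x / 2))) * Real.exp (-(s * i))) :=
            mul_le_mul_of_nonneg_left h7 (hv i)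
        _ = Real.exp (-(s * (x / 2))) * (v i * Real.exp (-(s * i))) := by ring
    refine h3.trans ?_
    apply Finset.sum_le_sum_of_subset_of_nonneg
    · intro i hi
      rw [Finset.mem_range] at hi ⊢
      omega
    · intro i _ _
      exact mul_nonneg (Real.exp_pos _).le (mul_nonneg (hv i) (Real.exp_pos _).le)
  have e1 : (2 : ℝ) ^ (3 * N + 2) = 2 ^ (N + 1) * 2 ^ (2 * N + 1) := by
    rw [← pow_add]
    congr 1
    ring
  calc v (β + t) * Real.exp (-(s * ((β + t : ℕ) : ℝ)))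
      ≤ (2 ^ (N + 1) * (2 ^ (2 * N + 1) * ∑ i ∈ Finset.range (β + t / 2 + 1), v i)) *
        Real.exp (-(s * ((β + t : ℕ) : ℝ))) :=
        mul_le_mul_of_nonneg_right h1 (Real.exp_pos _).le
    _ = 2 ^ (N + 1) * 2 ^ (2 * N + 1) * ((∑ i ∈ Finset.range (β + t / 2 + 1), v i) *
        Real.exp (-(s * ((β + t : ℕ) : ℝ)))) := by ring
    _ ≤ 2 ^ (N + 1) * 2 ^ (2 * N + 1) * (Real.exp (-(s * (x / 2))) * VV N v s) :=
        mul_le_mul_of_nonneg_left h2 (by positivity)
    _ = 2 ^ (3 * N + 2) * Real.exp (-(s * (x / 2))) * VV N v s := by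
        rw [e1]
        ring

theorem num23 {N : ℕ} (hN : 1 ≤ N) : (N : ℝ) * 2 ^ (3 * N + 2) < Real.exp (10 * N) / 2 := by
  have h1 : (2 : ℝ) ≤ Real.exp 1 := by
    have := Real.add_one_le_exp (1 : ℝ)
    linarith
  have h2 : (2 : ℝ) ^ (10 * N) ≤ Real.exp (10 * N) := by
    have h3 : (2 : ℝ) ^ (10 * N) ≤ Real.exp 1 ^ (10 * N) := pow_le_pow_left₀ (by norm_num) h1 _
    rw [← Real.exp_nat_mul] at h3
    push_cast at h3
    rw [mul_one] at h3
    exact h3
  have h4 : N * 2 ^ (3 * N + 2) * 2 < 2 ^ (10 * N) := by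
    have h5 : N < 2 ^ N := Nat.lt_two_pow_self
    calc N * 2 ^ (3 * N + 2) * 2 < 2 ^ N * 2 ^ (3 * N + 2) * 2 := by
          have : 0 < 2 ^ (3 * N + 2) := by positivity
          nlinarith
      _ = 2 ^ (4 * N + 3) := by
          rw [← pow_add, ← pow_succ]
          congr 1
          ring
      _ ≤ 2 ^ (10 * N) := Nat.pow_le_pow_right (by norm_num) (by omega)
  have h6 : (N : ℝ) * 2 ^ (3 * N + 2) * 2 < 2 ^ (10 * N) := by exact_mod_cast h4
  linarith

theorem tilt_le23 (ε : ℝ) (hε : 0 < ε) : ∃ s0 : ℝ, 0 < s0 ∧ ∀ N : ℕ, 1 ≤ N → ∀ (v : ℕ → ℝ) (β : ℕ),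
    (∀ i, 0 ≤ v i) → 0 < VV N v 0 →
    (∀ t, OV N v (β + t) ≤ 2 ^ (N + 1) * OV N v (β + t / 2)) → ∀ (i : ℕ) (s : ℝ),
    (β : ℝ) + ε * N / 2 ≤ i → s0 < s → VV N v s / 2 < VS v s (Finset.range (i + 1)) := by
  refine ⟨40 / ε, by positivity, ?_⟩
  intro N hN v β hv hV hO i s hi hs
  have hs0 : 0 < s := lt_trans (by positivity) hs
  have hVs : 0 < VV N v s := VV_pos23 hv hV hs0.le
  rcases Nat.lt_or_ge i N with hiN | hiN
  · have hsplit : VV N v s = VS v s (Finset.range (i + 1)) +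
        ∑ l ∈ Finset.Ico (i + 1) (N + 1), v l * Real.exp (-(s * l)) := by
      unfold VV VS
      rw [Finset.range_eq_Ico, Finset.range_eq_Ico]
      exact (Finset.sum_Ico_consecutive _ (Nat.zero_le _) (by omega)).symm
    have hterm : ∀ l ∈ Finset.Ico (i + 1) (N + 1), v l * Real.exp (-(s * l)) ≤
        2 ^ (3 * N + 2) * Real.exp (-(s * (ε * N / 2 / 2))) * VV N v s := by
      intro l hl
      rw [Finset.mem_Ico] at hl
      refine term_le23 hv hO hs0.le (by omega) (by positivity) (hi.trans ?_)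
      exact_mod_cast (by omega : i ≤ l)
    have hsum := Finset.sum_le_card_nsmul _ _ _ hterm
    rw [Nat.card_Ico, nsmul_eq_mul] at hsum
    have hc : ((N + 1 - (i + 1) : ℕ) : ℝ) ≤ N := by exact_mod_cast (by omega : N + 1 - (i + 1) ≤ N)
    have hexp : Real.exp (10 * N) * Real.exp (-(s * (ε * N / 2 / 2))) ≤ 1 := by
      rw [← Real.exp_add]
      apply Real.exp_le_one_iff.mpr
      have h1 : 40 < s * ε := by
        rw [div_lt_iff₀ hε] at hs
        exact hs
      have h2 : (0 : ℝ) ≤ N := Nat.cast_nonneg _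
      nlinarith
    have hnum := num23 hN
    have hE : 0 < Real.exp (-(s * (ε * N / 2 / 2))) := Real.exp_pos _
    have h3 : (N : ℝ) * (2 ^ (3 * N + 2) * Real.exp (-(s * (ε * N / 2 / 2)))) < 1 / 2 := by
      calc (N : ℝ) * (2 ^ (3 * N + 2) * Real.exp (-(s * (ε * N / 2 / 2))))
          = (N : ℝ) * 2 ^ (3 * N + 2) * Real.exp (-(s * (ε * N / 2 / 2))) := by ring
        _ < Real.exp (10 * N) / 2 * Real.exp (-(s * (ε * N / 2 / 2))) :=
            mul_lt_mul_of_pos_right hnum hE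
        _ = Real.exp (10 * N) * Real.exp (-(s * (ε * N / 2 / 2))) / 2 := by ring
        _ ≤ 1 / 2 := by linarith
    have h4 : ((N + 1 - (i + 1) : ℕ) : ℝ) *
        (2 ^ (3 * N + 2) * Real.exp (-(s * (ε * N / 2 / 2))) * VV N v s) < VV N v s / 2 := by
      calc ((N + 1 - (i + 1) : ℕ) : ℝ) *
          (2 ^ (3 * N + 2) * Real.exp (-(s * (ε * N / 2 / 2))) * VV N v s)
          ≤ (N : ℝ) * (2 ^ (3 * N + 2) * Real.exp (-(s * (ε * N / 2 / 2))) * VV N v s) :=
            mul_le_mul_of_nonneg_right hc (by positivity)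
        _ = (N : ℝ) * (2 ^ (3 * N + 2) * Real.exp (-(s * (ε * N / 2 / 2)))) * VV N v s := by ring
        _ < 1 / 2 * VV N v s := mul_lt_mul_of_pos_right h3 hVs
        _ = VV N v s / 2 := by ring
    have h5 := lt_of_le_of_lt hsum h4
    rw [hsplit] at h5 ⊢
    linarith
  · have h1 : VV N v s ≤ VS v s (Finset.range (i + 1)) := by
      unfold VV VS
      apply Finset.sum_le_sum_of_subset_of_nonneg
      · intro l hl
        rw [Finset.mem_range] at hl ⊢
        omega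
      · intro l _ _
        exact mul_nonneg (hv l) (Real.exp_pos _).le
    linarith

end Pool.TA43
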