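import Pool.Agent.TA43.WinS25

set_option autoImplicit false

/-!
# TA43/WinA34: the windows are independent (proofs)
-/

namespace Pool.TA43

open Pool.HB45 Pool.HM63 Pool.PH43 Pool.SC25 Pool.SC45

variable {N B m : ℕ}

theorem sort_mulA34 {f : ℕ} (F : Fin f → ℕ) (hF : Function.Injective F) (τ : Equiv.Perm (Fin f)) :
    τ * Tuple.sort (fun i => F (τ i)) = Tuple.sort F := by
  have h1 : Monotone (F ∘ (τ * Tuple.sort (fun i => F (τ i)))) := Tuple.monotone_sort (fun i => F (τ i))
  have h2 : Monotone (F ∘ Tuple.sort F) := Tuple.monotone_sort F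
  have h3 := Tuple.unique_monotone h1 h2
  apply Equiv.ext
  intro i
  exact hF (congrFun h3 i)

theorem srt_embA34 (hm : m * (B + 2) ≤ N + 1) {lab : Fin (N + 1) → ℕ} (hi : Function.Injective lab)
    (k : Fin m) (π : Equiv.Perm (Fin (N + 1))) (τ : Equiv.Perm (Fin (B + 1))) :
    srt hm lab k (π * emb (win_le hm k) τ) = srt hm lab k π := by
  unfold srt
  have hF : Function.Injective (fun i => lab (π (wpos (win_le hm k) i))) := by
    intro i j hij
    have h1 := π.injective (hi hij)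
    have h2 := congrArg Fin.val h1
    simp only [wpos] at h2
    exact Fin.ext (by omega)
  have h1 : (fun i => lab ((π * emb (win_le hm k) τ) (wpos (win_le hm k) i))) =
      fun i => lab (π (wpos (win_le hm k) (τ i))) := by
    funext i
    rw [Equiv.Perm.mul_apply, emb_wpos]
  rw [h1, mul_assoc, ← emb_mul, sort_mulA34 (fun i => lab (π (wpos (win_le hm k) i))) hF τ]

theorem wpos_otherA34 (hm : m * (B + 2) ≤ N + 1) (k k' : Fin m) (hk : k' ≠ k)
    (π : Equiv.Perm (Fin (N + 1))) (τ : Equiv.Perm (Fin (B + 1))) (i : Fin (B + 1)) :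
    (π * emb (win_le hm k) τ) (wpos (win_le hm k') i) = π (wpos (win_le hm k') i) := by
  have hw := wpos_in (win_le hm k') i
  rw [Equiv.Perm.mul_apply, emb_of_not]
  rcases win_disj B (k := k.val) (l := k'.val) (fun h => hk (Fin.ext h.symm)) with h | h
  · omega
  · omega

theorem srt_otherA34 (hm : m * (B + 2) ≤ N + 1) (lab : Fin (N + 1) → ℕ)
    (k k' : Fin m) (hk : k' ≠ k) (π : Equiv.Perm (Fin (N + 1))) (τ : Equiv.Perm (Fin (B + 1))) :
    srt hm lab k' (π * emb (win_le hm k) τ) = srt hm lab k' π * emb (win_le hm k) τ := by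
  unfold srt
  have h1 : (fun i => lab ((π * emb (win_le hm k) τ) (wpos (win_le hm k') i))) =
      fun i => lab (π (wpos (win_le hm k') i)) := by
    funext i
    rw [wpos_otherA34 hm k k' hk]
  rw [h1, mul_assoc, mul_assoc, emb_commS25 hm hk]

theorem srt_memA34 (hm : m * (B + 2) ≤ N + 1) {Q : Rel (N + 1)} {lab : Fin (N + 1) → ℕ}
    (hn : Nat' Q lab) (k : Fin m) (π : Equiv.Perm (Fin (N + 1))) (hπ : π ∈ LE Q) :
    srt hm lab k π ∈ LE Q := by
  unfold srt
  rw [mul_emb_mem _ _ hπ, mem_LE]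
  intro i j hij
  have h1 := hn.mono _ _ hij
  by_contra hcon
  have h2 : Monotone ((fun i => lab (π (wpos (win_le hm k) i))) ∘
      Tuple.sort (fun i => lab (π (wpos (win_le hm k) i)))) := Tuple.monotone_sort _
  have h3 := h2 (not_lt.1 hcon)
  simp only [Function.comp_apply] at h3
  omega

theorem Hset_otherA34 (hm : m * (B + 2) ≤ N + 1) (Q : Rel (N + 1)) (lab : Fin (N + 1) → ℕ)
    (k k' : Fin m) (hk : k' ≠ k) (π : Equiv.Perm (Fin (N + 1))) (τ : Equiv.Perm (Fin (B + 1))) :
    Hset hm Q lab k' (π * emb (win_le hm k) τ) = Hset hm Q lab k' π := by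
  ext τ'
  rw [mem_Hset, mem_Hset, srt_otherA34 hm lab k k' hk]
  have h1 : winRel (win_le hm k') Q (srt hm lab k' π * emb (win_le hm k) τ) =
      winRel (win_le hm k') Q (srt hm lab k' π) := by
    refine winRel_mul_emb_of_disj (win_le hm k') (win_le hm k) ?_ _ τ
    rcases win_disj B (k := k.val) (l := k'.val) (fun h => hk (Fin.ext h.symm)) with h | h
    · exact Or.inr h
    · exact Or.inl h
  rw [h1]
  have h2 := des_indepS25 hm lab k k' hk (srt hm lab k' π) τ τ'
  refine and_congr_right fun _ => ?_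
  omega

theorem Hset_sameA34 (hm : m * (B + 2) ≤ N + 1) (Q : Rel (N + 1)) {lab : Fin (N + 1) → ℕ}
    (hi : Function.Injective lab) (k : Fin m) (π : Equiv.Perm (Fin (N + 1)))
    (τ : Equiv.Perm (Fin (B + 1))) :
    Hset hm Q lab k (π * emb (win_le hm k) τ) = Hset hm Q lab k π := by
  unfold Hset
  rw [srt_embA34 hm hi]

theorem Fx_embA34 (hm : m * (B + 2) ≤ N + 1) (Q : Rel (N + 1)) {lab : Fin (N + 1) → ℕ}
    (hi : Function.Injective lab) (k : Fin m) (π : Equiv.Perm (Fin (N + 1)))
    (τ : Equiv.Perm (Fin (B + 1))) :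
    Fx hm Q lab (π * emb (win_le hm k) τ) = Fx hm Q lab π := by
  classical
  unfold Fx
  congr 1
  refine Finset.filter_congr fun k' _ => ?_
  unfold Flex
  by_cases hk : k' = k
  · rw [hk, Hset_sameA34 hm Q hi]
  · rw [Hset_otherA34 hm Q lab k k' hk]

end Pool.TA43
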