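import Pool.Agent.TA43.Defs

set_option autoImplicit false

/-!
# TA43/WinS25: the change of `des` in a window
-/

namespace Pool.TA43

open Pool.HB45 Pool.HM63 Pool.PH43 Pool.SC25 Pool.SC45

variable {N B m : ℕ}

/-- the descents at window `k` (with its neighbours) -/
def DkS25 (hm : m * (B + 2) ≤ N + 1) (lab : Fin (N + 1) → ℕ) (k : Fin m)
    (π : Equiv.Perm (Fin (N + 1))) : ℕ :=
  desB (fun i => lab (π (wpos (win_le hm k) i))) (cB lab B k.val π) (dB lab B k.val π) 1

theorem DkS25_le (hm : m * (B + 2) ≤ N + 1) (lab : Fin (N + 1) → ℕ) (k : Fin m)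
    (π : Equiv.Perm (Fin (N + 1))) : DkS25 hm lab k π ≤ B + 2 := by
  unfold DkS25 desB des
  have h1 : (Finset.univ.filter fun i : Fin B =>
      (fun i => lab (π (wpos (win_le hm k) i))) ((1 : Equiv.Perm (Fin (B + 1))) i.succ) <
      (fun i => lab (π (wpos (win_le hm k) i))) ((1 : Equiv.Perm (Fin (B + 1))) i.castSucc)).card ≤
        B := by
    refine (Finset.card_le_univ _).trans ?_
    rw [Fintype.card_fin]
  split_ifs <;> omega

theorem restS25 (hm : m * (B + 2) ≤ N + 1) (lab : Fin (N + 1) → ℕ) (k : Fin m)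
    (π : Equiv.Perm (Fin (N + 1))) (g : Equiv.Perm (Fin (B + 1))) :
    rest lab B m (π * emb (win_le hm k) g) = rest lab B m π := by
  unfold rest
  congr 1
  refine Finset.filter_congr fun p _ => ?_
  refine and_congr_right fun hp => ?_
  have hk : (k.val + 1) * (B + 2) ≤ m * (B + 2) := Nat.mul_le_mul_right _ k.isLt
  rw [Nat.add_mul] at hk
  rw [Equiv.Perm.mul_apply, Equiv.Perm.mul_apply,
    emb_of_not (win_le hm k) g p.succ (by rw [Fin.val_succ]; omega),
    emb_of_not (win_le hm k) g p.castSucc (by rw [Fin.val_castSucc]; omega)]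

theorem des_emb_S25 (hm : m * (B + 2) ≤ N + 1) (lab : Fin (N + 1) → ℕ) (k : Fin m)
    (π : Equiv.Perm (Fin (N + 1))) (τ : Equiv.Perm (Fin (B + 1))) :
    des lab (π * emb (win_le hm k) τ) + DkS25 hm lab k π =
      des lab π + DkS25 hm lab k (π * emb (win_le hm k) τ) := by
  classical
  rw [des_eq_sum hm lab (π * emb (win_le hm k) τ), des_eq_sum hm lab π, restS25 hm lab k π τ]
  have h1 : ∀ ρ : Equiv.Perm (Fin (N + 1)), ∑ l : Fin m,
      desB (fun i => lab (ρ (wpos (win_le hm l) i))) (cB lab B l.val ρ) (dB lab B l.val ρ) 1 =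
      DkS25 hm lab k ρ + ∑ l ∈ Finset.univ.erase k, DkS25 hm lab l ρ := by
    intro ρ
    exact (Finset.add_sum_erase Finset.univ (fun l => DkS25 hm lab l ρ) (Finset.mem_univ k)).symm
  rw [h1, h1]
  have h2 : ∑ l ∈ Finset.univ.erase k, DkS25 hm lab l (π * emb (win_le hm k) τ) =
      ∑ l ∈ Finset.univ.erase k, DkS25 hm lab l π := by
    refine Finset.sum_congr rfl fun l hl => ?_
    have hl' : k ≠ l := fun h => (Finset.mem_erase.1 hl).1 h.symm
    exact (GW_win hm (fun _ _ => True) lab π k l hl' τ).2.2.1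
  rw [h2]
  ring

theorem des_emb_leS25 (hm : m * (B + 2) ≤ N + 1) (lab : Fin (N + 1) → ℕ) (k : Fin m)
    (π : Equiv.Perm (Fin (N + 1))) (τ τ' : Equiv.Perm (Fin (B + 1))) :
    des lab (π * emb (win_le hm k) τ) ≤ des lab (π * emb (win_le hm k) τ') + (B + 2) := by
  have h1 := des_emb_S25 hm lab k π τ
  have h2 := des_emb_S25 hm lab k π τ'
  have h3 := DkS25_le hm lab k (π * emb (win_le hm k) τ)
  omega

/-- rearrangements of different windows commute -/
theorem emb_commS25 (hm : m * (B + 2) ≤ N + 1) {k k' : Fin m} (hk : k' ≠ k)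
    (τ τ' : Equiv.Perm (Fin (B + 1))) :
    emb (win_le hm k) τ * emb (win_le hm k') τ' = emb (win_le hm k') τ' * emb (win_le hm k) τ := by
  rcases win_disj B (k := k.val) (l := k'.val) (fun h => hk (Fin.ext h.symm)) with h | h
  · exact emb_comm (win_le hm k) (win_le hm k') h τ τ'
  · exact (emb_comm (win_le hm k') (win_le hm k) h τ' τ).symm

theorem des_indepS25 (hm : m * (B + 2) ≤ N + 1) (lab : Fin (N + 1) → ℕ) (k k' : Fin m)
    (hk : k' ≠ k) (π : Equiv.Perm (Fin (N + 1))) (τ τ' : Equiv.Perm (Fin (B + 1))) :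
    des lab (π * emb (win_le hm k) τ * emb (win_le hm k') τ') + des lab π =
      des lab (π * emb (win_le hm k) τ) + des lab (π * emb (win_le hm k') τ') := by
  have h1 := des_emb_S25 hm lab k' (π * emb (win_le hm k) τ) τ'
  have h2 := des_emb_S25 hm lab k' π τ'
  have h3 : DkS25 hm lab k' (π * emb (win_le hm k) τ) = DkS25 hm lab k' π :=
    (GW_win hm (fun _ _ => True) lab π k k' (fun h => hk h.symm) τ).2.2.1
  have h4 : DkS25 hm lab k' (π * emb (win_le hm k) τ * emb (win_le hm k') τ') =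
      DkS25 hm lab k' (π * emb (win_le hm k') τ') := by
    rw [mul_assoc, emb_commS25 hm hk, ← mul_assoc]
    exact (GW_win hm (fun _ _ => True) lab (π * emb (win_le hm k') τ') k k'
      (fun h => hk h.symm) τ).2.2.1
  omega

end Pool.TA43
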