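import Pool.Agent.TA43.Defs
import Pool.Agent.TA43.WinS25
import Pool.Agent.TA43.WinA34

set_option autoImplicit false

/-!
# TA43/Win: the windows are independent (proofs in WinS25, WinA34)
-/

namespace Pool.TA43

open Pool.HB45 Pool.HM63 Pool.PH43 Pool.SC25 Pool.SC45

variable {N B m : ℕ}

/-- `emb_mul` -/
theorem srt_emb (hm : m * (B + 2) ≤ N + 1) {lab : Fin (N + 1) → ℕ} (hi : Function.Injective lab)
    (k : Fin m) (π : Equiv.Perm (Fin (N + 1))) (τ : Equiv.Perm (Fin (B + 1))) :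
    srt hm lab k (π * emb (win_le hm k) τ) = srt hm lab k π :=
  srt_embA34 hm hi k π τ

/-- `emb_comm`, `win_disj`: the content of window `k` is not changed -/
theorem srt_other (hm : m * (B + 2) ≤ N + 1) (lab : Fin (N + 1) → ℕ)
    (k k' : Fin m) (hk : k' ≠ k) (π : Equiv.Perm (Fin (N + 1))) (τ : Equiv.Perm (Fin (B + 1))) :
    srt hm lab k' (π * emb (win_le hm k) τ) = srt hm lab k' π * emb (win_le hm k) τ :=
  srt_otherA34 hm lab k k' hk π τ

/-- CHANGE OF `des` IN A WINDOW. The difference depends only on the window and its two neighbours: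
PROOF. Descents at positions `p` with `o ≤ p + 1`, `p ≤ o + B` (`o = k (B + 2)`), see `desB_win`, `des_rest`. -/
theorem des_emb_le (hm : m * (B + 2) ≤ N + 1) (lab : Fin (N + 1) → ℕ) (k : Fin m)
    (π : Equiv.Perm (Fin (N + 1))) (τ τ' : Equiv.Perm (Fin (B + 1))) :
    des lab (π * emb (win_le hm k) τ) ≤ des lab (π * emb (win_le hm k) τ') + (B + 2) :=
  des_emb_leS25 hm lab k π τ τ'

/-- the change of `des` in window `k'` does not depend on the arrangement of window `k` -/
theorem des_indep (hm : m * (B + 2) ≤ N + 1) (lab : Fin (N + 1) → ℕ) (k k' : Fin m) (hk : k' ≠ k)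
    (π : Equiv.Perm (Fin (N + 1))) (τ τ' : Equiv.Perm (Fin (B + 1))) :
    des lab (π * emb (win_le hm k) τ * emb (win_le hm k') τ') + des lab π =
      des lab (π * emb (win_le hm k) τ) + des lab (π * emb (win_le hm k') τ') :=
  des_indepS25 hm lab k k' hk π τ τ'

theorem Hset_same (hm : m * (B + 2) ≤ N + 1) (Q : Rel (N + 1)) {lab : Fin (N + 1) → ℕ}
    (hi : Function.Injective lab) (k : Fin m) (π : Equiv.Perm (Fin (N + 1)))
    (τ : Equiv.Perm (Fin (B + 1))) :
    Hset hm Q lab k (π * emb (win_le hm k) τ) = Hset hm Q lab k π := by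
  unfold Hset
  rw [srt_emb hm hi]

/-- PROOF. `srt_other`, `winRel_mul_emb_of_disj`, `des_indep` at the word `srt k' π`. -/
theorem Hset_other (hm : m * (B + 2) ≤ N + 1) (Q : Rel (N + 1)) (lab : Fin (N + 1) → ℕ)
    (k k' : Fin m) (hk : k' ≠ k) (π : Equiv.Perm (Fin (N + 1))) (τ : Equiv.Perm (Fin (B + 1))) :
    Hset hm Q lab k' (π * emb (win_le hm k) τ) = Hset hm Q lab k' π :=
  Hset_otherA34 hm Q lab k k' hk π τ

/-- `Fx` is a class invariant (`Hset_same`, `Hset_other`) -/
theorem Fx_emb (hm : m * (B + 2) ≤ N + 1) (Q : Rel (N + 1)) {lab : Fin (N + 1) → ℕ}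
    (hi : Function.Injective lab) (k : Fin m) (π : Equiv.Perm (Fin (N + 1)))
    (τ : Equiv.Perm (Fin (B + 1))) :
    Fx hm Q lab (π * emb (win_le hm k) τ) = Fx hm Q lab π :=
  Fx_embA34 hm Q hi k π τ

/-- the sorted word is a linear extension (`mul_emb_mem`; `Q`-comparable letters are label-ordered) -/
theorem srt_mem (hm : m * (B + 2) ≤ N + 1) {Q : Rel (N + 1)} {lab : Fin (N + 1) → ℕ}
    (hn : Nat' Q lab) (k : Fin m) (π : Equiv.Perm (Fin (N + 1))) (hπ : π ∈ LE Q) :
    srt hm lab k π ∈ LE Q :=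
  srt_memA34 hm hn k π hπ

end Pool.TA43
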